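import Mathlib

/-!
# Elimination operators (nested residues) for products of powers of differences
-/

namespace Pool.Agent.H618R2.Skew

open MvPolynomial Finset

/-- polynomials in the potentials `X u` of the vertices -/
abbrev MP := MvPolynomial ℕ ℚ

/-- generalised binomial coefficient -/
noncomputable def zch (N : ℤ) (k : ℕ) : ℚ := (∏ i ∈ range k, ((N : ℚ) - i)) / (k.factorial : ℚ)

/-- the series `(1 - y t)^N` -/
noncomputable def ser (N : ℤ) (y : MP) : PowerSeries MP :=
  PowerSeries.mk fun k => C (zch N k) * (-y) ^ k

/-- the product of the series with exponents `p.2` and potentials `X p.1` -/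
noncomputable def serL (L : List (ℕ × ℤ)) : PowerSeries MP := (L.map fun p => ser p.2 (X p.1)).prod

/-- total exponent -/
def tot (L : List (ℕ × ℤ)) : ℤ := (L.map Prod.snd).sum

/-- coefficient with integral index -/
noncomputable def cz (S : PowerSeries MP) (j : ℤ) : MP := if 0 ≤ j then PowerSeries.coeff j.toNat S else 0

/-- the coefficient of `T^(-1)` of `p(T) T^e S(1/T)` -/
noncomputable def phi (S : PowerSeries MP) (e : ℤ) (p : Polynomial MP) : MP :=
  p.sum fun i a => a * cz S (i + e + 1)

/-- a polynomial as a polynomial in the variable `u` -/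
noncomputable def sep (u : ℕ) : MP →ₐ[ℚ] Polynomial MP :=
  aeval fun v => if v = u then Polynomial.X else Polynomial.C (X v)

/-- elimination of the variable `u`: the coefficient of `T^(-1)` (at infinity) of
`f(T) * ∏ (T - X v)^N` over the pairs `(v, N)` in `L`, `T = X u` -/
noncomputable def elim (u : ℕ) (L : List (ℕ × ℤ)) (f : MP) : MP := phi (serL L) (tot L) (sep u f)

/-- elimination of the variables `u, u+1, ..., u+k-1` -/
noncomputable def run (L : ℕ → List (ℕ × ℤ)) : ℕ → ℕ → MP → MP
  | _, 0, f => f
  | u, k + 1, f => run L (u + 1) k (elim u (L u) f)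

end Pool.Agent.H618R2.Skew
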