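import Pool.Agent.H549R2.Convex6
import Pool.Agent.H618R2.Skew.Defs

/-!
# The staircase matrices attached to a 0-1 matrix

The wires `v < 2n` carry the potentials of the rows and columns of the given `n × n` matrix `A`.
The vertices are arranged in blocks of `2n + 1`: the current occurrences of the `2n` wires, and one
messenger, at position `p`.  Every one `(i, j)` of `A` gives `n + j - i` blocks, in which the
messenger moves from wire `i` to wire `n + j`.
-/

namespace Pool.Agent.H618R2.Skew

open Pool.Agent.H549R2.Convex

/-- the ones of the matrix, as pairs (wire of the row, wire of the column) -/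
def edgesE (A : List (List Bool)) : List (ℕ × ℕ) :=
  (List.range A.length).flatMap fun i =>
    ((List.range A.length).filter fun j => ent A i j).map fun j => (i, A.length + j)

/-- a block: position of the messenger; is it the first block of its edge; is it the last -/
abbrev Blk := ℕ × Bool × Bool

/-- the blocks of an edge -/
def edgeBlocks (e : ℕ × ℕ) : List Blk :=
  (List.range (e.2 - e.1)).map fun s => (e.1 + 1 + s, decide (s = 0), decide (e.1 + 1 + s = e.2))

/-- all the blocks but the final one -/
def blocks (A : List (List Bool)) : List Blk := (edgesE A).flatMap edgeBlocks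

/-- number of positions in a block -/
def wd (A : List (List Bool)) : ℕ := 2 * A.length + 1

/-- number of blocks, without the final one -/
def nB (A : List (List Bool)) : ℕ := (blocks A).length

/-- number of vertices that are eliminated -/
def nG (A : List (List Bool)) : ℕ := (nB A + 1) * wd A

/-- number of crossings -/
def nK (A : List (List Bool)) : ℕ := ((blocks A).filter fun b => !b.2.2).length

/-- the factor of the multiplicity parameter -/
def nC (A : List (List Bool)) : ℕ := nB A + A.length + 3

/-- bound for the degree in the multiplicity parameter -/
def nD (A : List (List Bool)) : ℕ := nG A * (nG A * (2 * nK A + 4))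

/-- block number `t` (the final block has the messenger at position `0`) -/
def blk (A : List (List Bool)) (t : ℕ) : Blk := (blocks A).getD t (0, true, true)

/-- shift of the multiplicity of the main row of position `i` -/
def am (D : ℕ) (b : Blk) (i : ℕ) : ℕ :=
  if b.2.2 = true then 1 else if i = b.1 then D else if i = b.1 + 1 then 2 else 1

/-- target position of the main row of position `i`, `q` = next position of the messenger -/
def ta (b : Blk) (q i : ℕ) : ℕ :=
  if b.2.2 = true then
    (if (if i ≤ b.1 then i else i - 1) < q then (if i ≤ b.1 then i else i - 1)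
      else (if i ≤ b.1 then i else i - 1) + 1)
  else if i = b.1 + 1 then b.1 else i

/-- positive shift of the multiplicity of the column of position `i` -/
def bp (D : ℕ) (b : Blk) (i : ℕ) : ℕ := if b.2.1 = false ∧ i + 1 = b.1 then D else 0

/-- negative shift of the multiplicity of the column of position `i` -/
def bm (D : ℕ) (b : Blk) (i : ℕ) : ℕ :=
  if i + 1 = b.1 then 2 else if b.2.2 = false ∧ i = b.1 then D else 1

/-- target of the main rows of vertex `u` -/
def mainT (A : List (List Bool)) (u : ℕ) : ℕ :=
  if u / wd A < nB A then
    (u / wd A + 1) * wd A + ta (blk A (u / wd A)) (blk A (u / wd A + 1)).1 (u % wd A)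
  else (u / wd A + 1) * wd A

/-- shift of the multiplicity of the main rows of vertex `u` -/
def mainA (A : List (List Bool)) (D u : ℕ) : ℕ :=
  if u / wd A < nB A then am D (blk A (u / wd A)) (u % wd A)
  else if u % wd A = 0 then 1 else dL A (u % wd A - 1) + 1

/-- additional rows of vertex `u` -/
def exL (A : List (List Bool)) (D u : ℕ) : List (ℕ × ℕ) :=
  if (blk A (u / wd A)).2.2 = false ∧ u % wd A = (blk A (u / wd A)).1 + 1 then
    [((u / wd A + 1) * wd A + (blk A (u / wd A)).1 + 1, D)] else []

/-- positive shift of the multiplicity of the columns of vertex `u` -/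
def colP (A : List (List Bool)) (D u : ℕ) : ℕ := bp D (blk A (u / wd A)) (u % wd A)

/-- negative shift of the multiplicity of the columns of vertex `u` -/
def colM (A : List (List Bool)) (D u : ℕ) : ℕ := bm D (blk A (u / wd A)) (u % wd A)

/-- the rows of vertex `u`: targets and multiplicities -/
def tg (A : List (List Bool)) (D M u : ℕ) : List (ℕ × ℕ) :=
  (mainT A u, nC A * M - mainA A D u) :: exL A D u

/-- the number of columns of vertex `u` -/
def mc (A : List (List Bool)) (D M u : ℕ) : ℕ := nC A * M + colP A D u - colM A D u

/-- the rows of the staircase matrix, as intervals of keys -/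
def rowsS (A : List (List Bool)) (D M : ℕ) : List (ℕ × ℕ) :=
  (List.range (nG A)).flatMap fun u =>
    (tg A D M u).flatMap fun q => (List.range q.2).map fun _ => (u, q.1 - 1)

/-- the keys of the columns of the staircase matrix -/
def colsS (A : List (List Bool)) (D M : ℕ) : List ℕ :=
  (List.range (nG A)).flatMap fun u => (List.range (mc A D M u)).map fun _ => u

/-- the staircase matrices -/
def HS (A : List (List Bool)) (D M : ℕ) : List (List Bool) := mat (rowsS A D M) (colsS A D M)

/-- the product of the factorials of the multiplicities of the columns -/
def DS (A : List (List Bool)) (D M : ℕ) : ℕ :=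
  ((List.range (nG A)).map fun u => (mc A D M u).factorial).prod

/-- The ones of the matrix form a staircase (skew Ferrers) shape: with any two ones, one weakly to
the upper right of the other, all entries of the rectangle spanned by them are ones. -/
def Staircase (A : List (List Bool)) : Prop :=
  ∀ i p i' j q j' : ℕ, i ≤ p → p ≤ i' → j' ≤ q → q ≤ j → ent A i j = true → ent A i' j' = true →
    ent A p q = true

/-- integral exponents of the differences from vertex `u`, for every integral value of `M` -/
def Lz (A : List (List Bool)) (D : ℕ) (M : ℤ) (u : ℕ) : List (ℕ × ℤ) :=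
  (u + 1, -((nC A : ℤ) * M + colP A D u - colM A D u) - 1) ::
    (mainT A u, (nC A : ℤ) * M - mainA A D u) :: (exL A D u).map fun q => (q.1, (q.2 : ℤ))

/-- one block acting on `P + Z Q`, `Z` the potential of the messenger -/
noncomputable def stepB (D : ℕ) (b : Blk) (s : MP × MP) : MP × MP :=
  let s1 : MP × MP := if b.2.1 = true then (MvPolynomial.X (b.1 - 1) * s.1, -s.1) else s
  if b.2.2 = true then (s1.1 + MvPolynomial.X b.1 * s1.2, 0)
  else (MvPolynomial.C (D : ℚ) * s1.1 + MvPolynomial.X b.1 *
      MvPolynomial.pderiv b.1 (s1.1 + MvPolynomial.X b.1 * s1.2),
    MvPolynomial.C (D : ℚ) * s1.2 - MvPolynomial.pderiv b.1 (s1.1 + MvPolynomial.X b.1 * s1.2))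

/-- the polynomial of the wires after all blocks -/
noncomputable def SD (A : List (List Bool)) (D : ℕ) : MP :=
  ((blocks A).foldl (fun s b => stepB D b s) (1, 0)).1

end Pool.Agent.H618R2.Skew
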