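import Pool.Agent.H618R2.Skew.T4

/-!
# The permanent of staircase matrices: Turing reductions, completeness
-/

namespace Pool.Agent.NPC.H618Skew

open Pool.Agent.H549R2.Convex Pool.Agent.H618R2.Skew Pool.Agent.NPC.Cnt
open Pool.Agent.NPC.H549Convex (LL poly_prod upoly_fact upoly_choose ent_poly dL_poly degL_poly
  mat_poly sqB sqB_poly degB degB_poly sum_filter_range_list F_size fp_of_poly)
open Pool.Agent.NPC.H549PM (upoly_min upoly_pow2 alt alt_poly alt_eq alt_congr tF tF_upoly MF_poly
  qF_upoly kF_upoly)
open Pool.Agent.H549R2.PM (MF qF kF sat_eq MF_square)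

open Classical in
/-- The permanent restricted to the matrices of staircase shape; other inputs have value `0`. -/
noncomputable def FS (A : List (List Bool)) : ℕ := if Staircase A then F A else 0

theorem FS_size (A : LL) : (FS A).size ≤ A.length * A.length + 1 := by
  rw [FS]
  split_ifs
  · exact F_size A
  · simp

/-- all matrices of the reduction have staircase shape (task T3) -/
def StairId : Prop := ∀ (A : LL) (D M : ℕ), Staircase (HS A D M)

/-- the queries of one matrix -/
def qsS (A : LL) : List LL := (List.range (nQ A)).map fun x => qry (A, x)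

theorem qsS_p : Poly qsS := Poly.map (F := fun (A : LL) x => qry (A, x)) (nQ_u Poly.id).range qry_p

theorem post_one (hred : RedId) (hst : StairId) (A : LL) (g : LL → ℕ)
    (hg : ∀ B, Staircase B → g B = F B) : psS (A, (qsS A).map g, 0) = F A := by
  refine psS_correct hred _ fun x hx => ?_
  simp only at hx ⊢
  rw [zero_add]
  have hlen : x < ((qsS A).map g).length := by simpa [qsS] using hx
  rw [List.getD_eq_getElem _ _ hlen, List.getElem_map]
  have h3 : (qsS A)[x]'(by simpa using hlen) = qry (A, x) := by
    simp only [qsS, List.getElem_map, List.getElem_range]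
  rw [h3]
  exact hg _ (hst _ _ _)

theorem turing (hred : RedId) (hst : StairId) : TuringReduces (strFn F) (strFn FS) := by
  have h1 : Poly (fun x : List Bool => match (decode x : Option LL) with
      | none => [] | some A => qsS A) := by
    refine (Poly.optCases (o := fun x : List Bool => (decode x : Option LL))
      (g := fun _ => []) (h := fun _ A => qsS A) poly_decode (Poly.const _)
      (qsS_p.comp (Poly.snd Poly.id))).congr fun x => ?_
    cases (decode x : Option LL) <;> rfl
  have h2 : Poly (fun p : List Bool × List ℕ => match (decode p.1 : Option LL) with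
      | none => 0 | some A => psS (A, p.2, 0)) := by
    have hp : Poly (fun q : (List Bool × List ℕ) × LL => ((q.2, q.1.2, 0) : Cz)) :=
      Poly.pair (Poly.snd Poly.id) (Poly.pair (Poly.snd (Poly.fst Poly.id)) (Poly.const 0))
    have hp2 := Poly.comp psS_p hp
    refine (Poly.optCases (o := fun p : List Bool × List ℕ => (decode p.1 : Option LL))
      (g := fun _ => 0) (h := fun p A => psS (A, p.2, 0)) (poly_decode.comp (Poly.fst Poly.id))
      (Poly.const _) hp2).congr fun x => ?_
    cases (decode x.1 : Option LL) <;> rfl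
  refine turingReduces_of_list _ _ h1 h2 (fun x => ?_) (Polynomial.X * Polynomial.X +
    Polynomial.C 1) (fun A => ?_)
  · simp only
    cases hx : (decode x : Option LL) with
    | none =>
      have hno : ¬ ∃ A : LL, bits A = x := by
        rintro ⟨A, hA⟩
        have := decode_eq_some.2 hA
        rw [hx] at this
        exact absurd this (by simp)
      rw [strFn_of_not _ hno]
    | some A =>
      have hA : bits A = x := decode_eq_some.1 hx
      rw [← hA, strFn_bits]
      simp only
      rw [post_one hred hst A FS]
      intro B hB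
      rw [FS, if_pos hB]
  · refine (FS_size A).trans ?_
    have h := length_lt_sz A
    simp only [Polynomial.eval_add, Polynomial.eval_mul, Polynomial.eval_X, Polynomial.eval_C]
    have := Nat.mul_le_mul h.le h.le
    omega

theorem fp_iff (hred : RedId) (hst : StairId) :
    FP (strFn F) ↔ ∃ g : List Bool → List Bool, PolyTime g ∧
      ∀ A : List (List Bool), Staircase A → g (bits A) = (F A).bits := by
  constructor
  · intro h
    exact ⟨_, h, fun A _ => by rw [strFn_bits]⟩
  · rintro ⟨g, hg, hgF⟩
    have hid : PC (bits : LL → List Bool) (id : List Bool → List Bool) (fun A => bits A) :=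
      (PC.id : PC (bits : LL → List Bool) bits (fun A => A))
    have h1 : PC (bits : LL → List Bool) (id : List Bool → List Bool) (fun A => g (bits A)) :=
      PC.comp (Pool.Agent.H642R2.TMSim.polyTime_toPC hg) hid
    have h2 : PC (bits : LL → List Bool) (bits : List Bool → List Bool) (fun A => g (bits A)) :=
      PC.comp (g := fun x : List Bool => x) (f := fun A : LL => g (bits A)) PC.ofBits h1
    have h3 : Poly (fun A : LL => valB (g (bits A))) := Poly.valBits h2
    set G : LL → ℕ := fun A => valB (g (bits A)) with hG
    have hGF : ∀ B, Staircase B → G B = F B := by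
      intro B hB
      rw [hG]
      simp only
      rw [hgF B hB, valB_bits]
    have h4 : Poly (fun A : LL => psS (A, (qsS A).map G, 0)) := by
      have h5 : Poly (fun A : LL => (qsS A).map G) :=
        Poly.map (F := fun (_ : LL) B => G B) qsS_p (h3.comp (Poly.snd Poly.id))
      exact psS_p.comp (f := fun A : LL => ((A, (qsS A).map G, 0) : Cz))
        (Poly.pair Poly.id (Poly.pair h5 (Poly.const 0)))
    have h5 : Poly F := h4.congr fun A => post_one hred hst A G hGF
    have h6 : Poly (fun x : List Bool => match (decode x : Option LL) with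
        | none => 0 | some A => F A) := by
      refine (Poly.optCases (o := fun x : List Bool => (decode x : Option LL))
        (g := fun _ => 0) (h := fun _ A => F A) poly_decode (Poly.const _)
        (h5.comp (Poly.snd Poly.id))).congr fun x => ?_
      cases (decode x : Option LL) <;> rfl
    have h7 : Poly (strFn F) := h6.congr fun x => by
      cases hx : (decode x : Option LL) with
      | none =>
        have hno : ¬ ∃ A : LL, bits A = x := by
          rintro ⟨A, hA⟩
          have := decode_eq_some.2 hA
          rw [hx] at this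
          exact absurd this (by simp)
        rw [strFn_of_not _ hno]
      | some A =>
        have hA : bits A = x := decode_eq_some.1 hx
        rw [← hA, strFn_bits]
    exact fp_of_poly h7

section Hard

/-- a common bound for the numbers of queries of the matrices of a formula -/
def nM (φ : CNF ℕ) : ℕ := ((List.range (qF φ + 1)).flatMap fun t =>
  List.range (nQ (MF φ (tF (φ, t))))).length + 1

theorem MFt_p : Poly (fun p : CNF ℕ × ℕ => MF p.1 (tF (p.1, p.2))) := MF_poly

theorem nM_u : UPoly nM := by
  refine UPoly.add (UPoly.length ?_) (UPoly.const 1)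
  exact Poly.flatMap (F := fun (φ : CNF ℕ) t => List.range (nQ (MF φ (tF (φ, t)))))
    (UPoly.add qF_upoly (UPoly.const 1)).range ((nQ_u MFt_p).range)

theorem nQ_le (φ : CNF ℕ) (t : ℕ) (ht : t ≤ qF φ) : nQ (MF φ (tF (φ, t))) ≤ nM φ := by
  have h : ∀ (l : List ℕ) (f : ℕ → List ℕ), t ∈ l → (f t).length ≤ (l.flatMap f).length := by
    intro l f ht
    rw [List.length_flatMap]
    exact List.single_le_sum (by simp) _ (List.mem_map_of_mem ht)
  have h1 := h (List.range (qF φ + 1)) (fun t => List.range (nQ (MF φ (tF (φ, t)))))
    (List.mem_range.2 (by omega))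
  rw [List.length_range] at h1
  unfold nM
  omega

/-- the queries of a formula -/
def qsF (φ : CNF ℕ) : List LL :=
  (List.range ((qF φ + 1) * nM φ)).map fun i => qry (MF φ (tF (φ, i / nM φ)), i % nM φ)

theorem qsF_p : Poly qsF := by
  have hN : UPoly (fun φ : CNF ℕ => (qF φ + 1) * nM φ) :=
    UPoly.mul (UPoly.add qF_upoly (UPoly.const 1)) nM_u
  have hM : Poly (fun p : CNF ℕ × ℕ => nM p.1) := nM_u.toPoly.comp (Poly.fst Poly.id)
  refine Poly.map (F := fun (φ : CNF ℕ) i => qry (MF φ (tF (φ, i / nM φ)), i % nM φ)) hN.range ?_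
  have h2 : Poly (fun p : CNF ℕ × ℕ => MF p.1 (tF (p.1, p.2 / nM p.1))) :=
    MF_poly.comp (f := fun p : CNF ℕ × ℕ => (p.1, p.2 / nM p.1))
      (Poly.pair (Poly.fst Poly.id) (Poly.div (Poly.snd Poly.id) hM))
  exact qry_p.comp (f := fun p : CNF ℕ × ℕ =>
    (MF p.1 (tF (p.1, p.2 / nM p.1)), p.2 % nM p.1))
    (Poly.pair h2 (Poly.mod (Poly.snd Poly.id) hM))

/-- the final computation for a formula -/
def psF (p : CNF ℕ × List ℕ) : ℕ :=
  alt (qF p.1) (fun t => psS (MF p.1 (tF (p.1, t)), p.2, t * nM p.1) / (kF p.1).factorial) /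
    (2 ^ qF p.1 * (qF p.1).factorial)

theorem psF_p : Poly psF := by
  have hq : UPoly (fun p : CNF ℕ × List ℕ => qF p.1) := qF_upoly.comp (Poly.fst Poly.id)
  have hφ : Poly (fun z : (CNF ℕ × List ℕ) × ℕ => z.1.1) := Poly.fst (Poly.fst Poly.id)
  have h2 : Poly (fun z : (CNF ℕ × List ℕ) × ℕ => MF z.1.1 (tF (z.1.1, z.2))) :=
    MF_poly.comp (f := fun z : (CNF ℕ × List ℕ) × ℕ => (z.1.1, z.2))
      (Poly.pair hφ (Poly.snd Poly.id))
  have h3 : Poly (fun z : (CNF ℕ × List ℕ) × ℕ =>
      ((MF z.1.1 (tF (z.1.1, z.2)), z.1.2, z.2 * nM z.1.1) : Cz)) :=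
    Poly.pair h2 (Poly.pair (Poly.snd (Poly.fst Poly.id))
      (Poly.mul (Poly.snd Poly.id) (nM_u.toPoly.comp hφ)))
  have h1 : Poly (fun z : (CNF ℕ × List ℕ) × ℕ =>
      psS (MF z.1.1 (tF (z.1.1, z.2)), z.1.2, z.2 * nM z.1.1) / (kF z.1.1).factorial) :=
    Poly.div (psS_p.comp h3) (upoly_fact (kF_upoly.comp hφ))
  exact Poly.div (alt_poly (g := fun (p : CNF ℕ × List ℕ) t =>
    psS (MF p.1 (tF (p.1, t)), p.2, t * nM p.1) / (kF p.1).factorial) hq h1)
    (Poly.mul (upoly_pow2 hq) (upoly_fact hq))

theorem psF_correct (hred : RedId) (hst : StairId) (φ : CNF ℕ) (g : LL → ℕ)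
    (hg : ∀ B, Staircase B → g B = F B) : psF (φ, (qsF φ).map g) = satCount φ := by
  have htF : ∀ t ≤ qF φ, tF (φ, t) = t := fun t ht => Nat.min_eq_left ht
  have hpos : 0 < nM φ := Nat.succ_pos _
  have hinner : ∀ t ≤ qF φ, psS (MF φ (tF (φ, t)), (qsF φ).map g, t * nM φ) = F (MF φ t) := by
    intro t ht
    have h1 := psS_correct hred (MF φ (tF (φ, t)), (qsF φ).map g, t * nM φ) (by
      intro x hx
      simp only at hx ⊢
      have hx2 : x < nM φ := by
        by_contra hc
        have := nQ_le φ t ht
        omega
      have hidx : t * nM φ + x < (qF φ + 1) * nM φ := by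
        have := Nat.mul_le_mul_right (nM φ) ht
        have e : (qF φ + 1) * nM φ = qF φ * nM φ + nM φ := by ring
        omega
      have hlq : t * nM φ + x < ((qsF φ).map g).length := by
        simp only [qsF, List.length_map, List.length_range]
        exact hidx
      rw [List.getD_eq_getElem _ _ hlq, List.getElem_map]
      have h3 : (qsF φ)[t * nM φ + x]'(by simpa using hlq) = qry (MF φ (tF (φ, t)), x) := by
        simp only [qsF, List.getElem_map, List.getElem_range]
        have e1 : (t * nM φ + x) / nM φ = t := by
          rw [mul_comm, Nat.mul_add_div hpos, Nat.div_eq_of_lt hx2, add_zero]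
        have e2 : (t * nM φ + x) % nM φ = x := by
          rw [mul_comm, Nat.mul_add_mod, Nat.mod_eq_of_lt hx2]
        rw [e1, e2]
      rw [h3]
      exact hg _ (hst _ _ _))
    rw [h1]
    simp only
    rw [htF t ht]
  have h1 : alt (qF φ) (fun t => psS (MF φ (tF (φ, t)), (qsF φ).map g, t * nM φ) /
      (kF φ).factorial) = 2 ^ qF φ * (qF φ).factorial * satCount φ := by
    rw [alt_congr _ _ (fun t => F (MF φ t) / (kF φ).factorial)]
    · apply alt_eq
      have h2 := sat_eq φ
      push_cast
      push_cast at h2
      exact h2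
    · intro t ht
      rw [hinner t ht]
  rw [psF]
  simp only
  rw [h1, Nat.mul_div_cancel_left _ (by positivity)]

/-- the permanent of staircase matrices is `#P`-hard -/
theorem hardS (hred : RedId) (hst : StairId) : SharpPHard (strFn FS) := by
  refine sharpPHard_of_satCount qsF psF qsF_p psF_p (fun φ => ?_)
    (Polynomial.X * Polynomial.X + Polynomial.C 1) (fun A => ?_)
  · refine (psF_correct hred hst φ FS fun B hB => ?_).symm
    rw [FS, if_pos hB]
  · refine (FS_size A).trans ?_
    have h := length_lt_sz A
    simp only [Polynomial.eval_add, Polynomial.eval_mul, Polynomial.eval_X, Polynomial.eval_C]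
    have := Nat.mul_le_mul h.le h.le
    omega

end Hard

section Membership

variable {α : Type} [TEnc α]

theorem all_p {n : α → ℕ} {f : α → ℕ → Bool} (hn : UPoly n)
    (hf : Poly (fun p : α × ℕ => f p.1 p.2)) : Poly (fun a => (List.range (n a)).all (f a)) :=
  Poly.all (p := f) hn.range hf

/-- six indices -/
abbrev Six : Type := (((((LL × ℕ) × ℕ) × ℕ) × ℕ) × ℕ) × ℕ

/-- one test: `i, p, i', j, q, j'` -/
def ts (z : Six) : Bool :=
  !(decide (z.1.1.1.1.1.2 ≤ z.1.1.1.1.2) && (decide (z.1.1.1.1.2 ≤ z.1.1.1.2) &&
    (decide (z.2 ≤ z.1.2) && (decide (z.1.2 ≤ z.1.1.2) &&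
    (ent z.1.1.1.1.1.1 z.1.1.1.1.1.2 z.1.1.2 && ent z.1.1.1.1.1.1 z.1.1.1.2 z.2))))) ||
    ent z.1.1.1.1.1.1 z.1.1.1.1.2 z.1.2

theorem ts_p : Poly ts := by
  have hA : Poly (fun z : Six => z.1.1.1.1.1.1) :=
    Poly.fst (Poly.fst (Poly.fst (Poly.fst (Poly.fst (Poly.fst Poly.id)))))
  have hi : Poly (fun z : Six => z.1.1.1.1.1.2) :=
    Poly.snd (Poly.fst (Poly.fst (Poly.fst (Poly.fst (Poly.fst Poly.id)))))
  have hp : Poly (fun z : Six => z.1.1.1.1.2) :=
    Poly.snd (Poly.fst (Poly.fst (Poly.fst (Poly.fst Poly.id))))
  have hi' : Poly (fun z : Six => z.1.1.1.2) := Poly.snd (Poly.fst (Poly.fst (Poly.fst Poly.id)))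
  have hj : Poly (fun z : Six => z.1.1.2) := Poly.snd (Poly.fst (Poly.fst Poly.id))
  have hq : Poly (fun z : Six => z.1.2) := Poly.snd (Poly.fst Poly.id)
  have hj' : Poly (fun z : Six => z.2) := Poly.snd Poly.id
  have he : ∀ {a b : Six → ℕ}, Poly a → Poly b →
      Poly (fun z : Six => ent z.1.1.1.1.1.1 (a z) (b z)) := fun {a b} ha hb =>
    ent_poly.comp (f := fun z : Six => (z.1.1.1.1.1.1, a z, b z)) (Poly.pair hA (Poly.pair ha hb))
  exact Poly.or (Poly.not (Poly.and (Poly.decide_le hi hp) (Poly.and (Poly.decide_le hp hi')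
    (Poly.and (Poly.decide_le hj' hq) (Poly.and (Poly.decide_le hq hj)
      (Poly.and (he hi hj) (he hi' hj'))))))) (he hp hq)

/-- test for the staircase shape of square matrices -/
def stB (A : LL) : Bool :=
  (List.range A.length).all fun i => (List.range A.length).all fun p =>
    (List.range A.length).all fun i' => (List.range A.length).all fun j =>
      (List.range A.length).all fun q => (List.range A.length).all fun j' =>
        ts ((((((A, i), p), i'), j), q), j')

theorem stB_p : Poly stB := by
  have h6 : Poly (fun z : ((((LL × ℕ) × ℕ) × ℕ) × ℕ) × ℕ =>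
      (List.range z.1.1.1.1.1.length).all fun j' => ts (z, j')) :=
    all_p (UPoly.length (Poly.fst (Poly.fst (Poly.fst (Poly.fst (Poly.fst Poly.id)))))) ts_p
  have h5 : Poly (fun z : (((LL × ℕ) × ℕ) × ℕ) × ℕ =>
      (List.range z.1.1.1.1.length).all fun q =>
        (List.range z.1.1.1.1.length).all fun j' => ts ((z, q), j')) :=
    all_p (f := fun (z : (((LL × ℕ) × ℕ) × ℕ) × ℕ) q =>
      (List.range z.1.1.1.1.length).all fun j' => ts ((z, q), j'))
      (UPoly.length (Poly.fst (Poly.fst (Poly.fst (Poly.fst Poly.id))))) h6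
  have h4 : Poly (fun z : ((LL × ℕ) × ℕ) × ℕ =>
      (List.range z.1.1.1.length).all fun j => (List.range z.1.1.1.length).all fun q =>
        (List.range z.1.1.1.length).all fun j' => ts (((z, j), q), j')) :=
    all_p (f := fun (z : ((LL × ℕ) × ℕ) × ℕ) j => (List.range z.1.1.1.length).all fun q =>
      (List.range z.1.1.1.length).all fun j' => ts (((z, j), q), j'))
      (UPoly.length (Poly.fst (Poly.fst (Poly.fst Poly.id)))) h5
  have h3 : Poly (fun z : (LL × ℕ) × ℕ => (List.range z.1.1.length).all fun i' =>
      (List.range z.1.1.length).all fun j => (List.range z.1.1.length).all fun q =>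
        (List.range z.1.1.length).all fun j' => ts ((((z, i'), j), q), j')) :=
    all_p (f := fun (z : (LL × ℕ) × ℕ) i' =>
      (List.range z.1.1.length).all fun j => (List.range z.1.1.length).all fun q =>
        (List.range z.1.1.length).all fun j' => ts ((((z, i'), j), q), j'))
      (UPoly.length (Poly.fst (Poly.fst Poly.id))) h4
  have h2 : Poly (fun z : LL × ℕ => (List.range z.1.length).all fun p =>
      (List.range z.1.length).all fun i' =>
      (List.range z.1.length).all fun j => (List.range z.1.length).all fun q =>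
        (List.range z.1.length).all fun j' => ts (((((z, p), i'), j), q), j')) :=
    all_p (f := fun (z : LL × ℕ) p => (List.range z.1.length).all fun i' =>
      (List.range z.1.length).all fun j => (List.range z.1.length).all fun q =>
        (List.range z.1.length).all fun j' => ts (((((z, p), i'), j), q), j'))
      (UPoly.length (Poly.fst Poly.id)) h3
  exact all_p (f := fun (A : LL) i => (List.range A.length).all fun p =>
      (List.range A.length).all fun i' =>
      (List.range A.length).all fun j => (List.range A.length).all fun q =>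
        (List.range A.length).all fun j' => ts ((((((A, i), p), i'), j), q), j'))
      (UPoly.length Poly.id) h2

theorem ent_lt {A : LL} (hsq : ∀ r ∈ A, r.length = A.length) {i j : ℕ} (h : ent A i j = true) :
    i < A.length ∧ j < A.length := by
  unfold ent at h
  have hi : i < A.length := by
    by_contra hc
    have h3 : A.getD i [] = [] := List.getD_eq_default _ _ (not_lt.1 hc)
    rw [h3] at h
    simp at h
  refine ⟨hi, ?_⟩
  rw [List.getD_eq_getElem _ _ hi] at h
  have h2 : (A[i]).length = A.length := hsq _ (List.getElem_mem hi)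
  by_contra hc
  have h3 : (A[i]).length ≤ j := by omega
  rw [List.getD_eq_default _ _ h3] at h
  simp at h

theorem stB_iff {A : LL} (hsq : ∀ r ∈ A, r.length = A.length) :
    stB A = true ↔ Staircase A := by
  unfold stB Staircase
  simp only [List.all_eq_true, List.mem_range, ts, Bool.or_eq_true, Bool.not_eq_true',
    Bool.and_eq_false_iff, decide_eq_false_iff_not]
  constructor
  · intro h i p i' j q j' h1 h2 h3 h4 h5 h6
    obtain ⟨hi, hj⟩ := ent_lt hsq h5
    obtain ⟨hi', hj'⟩ := ent_lt hsq h6
    rcases h i hi p (by omega) i' hi' j hj q (by omega) j' hj' with h7 | h7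
    · rcases h7 with h7 | h7 | h7 | h7 | h7 | h7
      · exact absurd h1 h7
      · exact absurd h2 h7
      · exact absurd h3 h7
      · exact absurd h4 h7
      · rw [h5] at h7; exact absurd h7 (by simp)
      · rw [h6] at h7; exact absurd h7 (by simp)
    · exact h7
  · intro h i _ p _ i' _ j _ q _ j' _
    by_cases h1 : i ≤ p
    · by_cases h2 : p ≤ i'
      · by_cases h3 : j' ≤ q
        · by_cases h4 : q ≤ j
          · cases h5 : ent A i j with
            | false => left; simp
            | true =>
              cases h6 : ent A i' j' with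
              | false => left; simp
              | true => right; exact h i p i' j q j' h1 h2 h3 h4 h5 h6
          · left; right; right; right; left; exact h4
        · left; right; right; left; exact h3
      · left; right; left; exact h2
    · left; left; exact h1

/-- test of a certificate -/
def crt (A : LL) (w : List ℕ) : Bool :=
  sqB A && (stB A && (decide (w.length = A.length) &&
    ((List.range A.length).all (fun i => decide (w.getD i 0 < A.length) &&
      ent A i (w.getD i 0)) &&
    (List.range A.length).all (fun i => (List.range A.length).all fun k =>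
      !decide (w.getD i 0 = w.getD k 0) || decide (i = k)))))

theorem crt_p : Poly (fun x : LL × List ℕ => crt x.1 x.2) := by
  have hA : Poly (fun x : LL × List ℕ => x.1) := Poly.fst Poly.id
  have hn : UPoly (fun x : LL × List ℕ => x.1.length) := UPoly.length hA
  have hw1 : Poly (fun z : (LL × List ℕ) × ℕ => z.1.2.getD z.2 0) :=
    Poly.getD (Poly.snd (Poly.fst Poly.id)) (Poly.snd Poly.id) (Poly.const 0)
  have h1 : Poly (fun z : (LL × List ℕ) × ℕ => decide (z.1.2.getD z.2 0 < z.1.1.length) &&
      ent z.1.1 z.2 (z.1.2.getD z.2 0)) :=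
    Poly.and (Poly.decide_lt hw1 (Poly.length (Poly.fst (Poly.fst Poly.id))))
      (ent_poly.comp (f := fun z : (LL × List ℕ) × ℕ => (z.1.1, z.2, z.1.2.getD z.2 0))
        (Poly.pair (Poly.fst (Poly.fst Poly.id)) (Poly.pair (Poly.snd Poly.id) hw1)))
  have h2 : Poly (fun z : ((LL × List ℕ) × ℕ) × ℕ =>
      !decide (z.1.1.2.getD z.1.2 0 = z.1.1.2.getD z.2 0) || decide (z.1.2 = z.2)) :=
    Poly.or (Poly.not (Poly.decide_eq
      (Poly.getD (Poly.snd (Poly.fst (Poly.fst Poly.id))) (Poly.snd (Poly.fst Poly.id))
        (Poly.const 0))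
      (Poly.getD (Poly.snd (Poly.fst (Poly.fst Poly.id))) (Poly.snd Poly.id) (Poly.const 0))))
      (Poly.decide_eq (Poly.snd (Poly.fst Poly.id)) (Poly.snd Poly.id))
  have h3 : Poly (fun z : (LL × List ℕ) × ℕ => (List.range z.1.1.length).all fun k =>
      !decide (z.1.2.getD z.2 0 = z.1.2.getD k 0) || decide (z.2 = k)) :=
    all_p (f := fun (z : (LL × List ℕ) × ℕ) k =>
      !decide (z.1.2.getD z.2 0 = z.1.2.getD k 0) || decide (z.2 = k))
      (UPoly.length (Poly.fst (Poly.fst Poly.id))) h2
  have h4 := all_p (α := LL × List ℕ) (f := fun (x : LL × List ℕ) i =>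
    decide (x.2.getD i 0 < x.1.length) && ent x.1 i (x.2.getD i 0)) hn h1
  have h5 := all_p (α := LL × List ℕ) (f := fun (x : LL × List ℕ) i =>
    (List.range x.1.length).all fun k =>
      !decide (x.2.getD i 0 = x.2.getD k 0) || decide (i = k)) hn h3
  exact Poly.and (sqB_poly.comp hA) (Poly.and (stB_p.comp hA)
    (Poly.and (Poly.decide_eq (Poly.length (Poly.snd Poly.id)) (Poly.length hA))
      (Poly.and h4 h5)))

theorem sqB_iff (A : LL) : sqB A = true ↔ ∀ r ∈ A, r.length = A.length := by
  rw [sqB, List.all_eq_true]
  simp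

theorem crt_card (A : LL) : Nat.card {w : List ℕ // crt A w = true} = FS A := by
  classical
  by_cases hsq : ∀ r ∈ A, r.length = A.length
  · by_cases hst : Staircase A
    · rw [FS, if_pos hst, F_eq_card' A hsq A.length rfl]
      have hcrt : ∀ w : List ℕ, crt A w = true ↔ w.length = A.length ∧
          (∀ i < A.length, w.getD i 0 < A.length ∧ ent A i (w.getD i 0) = true) ∧
          ∀ i < A.length, ∀ k < A.length, w.getD i 0 = w.getD k 0 → i = k := by
        intro w
        unfold crt
        rw [(sqB_iff A).2 hsq, (stB_iff hsq).2 hst]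
        simp only [Bool.true_and, Bool.and_eq_true, decide_eq_true_eq, List.all_eq_true,
          List.mem_range, Bool.or_eq_true, Bool.not_eq_true', decide_eq_false_iff_not]
        refine and_congr Iff.rfl (and_congr Iff.rfl ?_)
        refine forall_congr' fun i => forall_congr' fun _ => forall_congr' fun k =>
          forall_congr' fun _ => ?_
        tauto
      rw [← Fintype.card_subtype, ← Nat.card_eq_fintype_card]
      symm
      have hgd : ∀ (f : Fin A.length → Fin A.length) (i : ℕ) (hi : i < A.length),
          (List.ofFn (fun i => (f i).val)).getD i 0 = (f ⟨i, hi⟩).val := by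
        intro f i hi
        rw [List.getD_eq_getElem _ _ (by rw [List.length_ofFn]; exact hi), List.getElem_ofFn]
      refine Nat.card_congr (Equiv.ofBijective
        (fun σ : {σ : Equiv.Perm (Fin A.length) //
          ∀ i : Fin A.length, ent A i.val (σ i).val = true} =>
          (⟨List.ofFn (fun i => (σ.1 i).val), ?_⟩ : {w : List ℕ // crt A w = true})) ⟨?_, ?_⟩)
      · rw [hcrt]
        refine ⟨List.length_ofFn, fun i hi => ?_, fun i hi k hk h => ?_⟩
        · rw [hgd σ.1 i hi]
          exact ⟨(σ.1 ⟨i, hi⟩).2, σ.2 ⟨i, hi⟩⟩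
        · rw [hgd σ.1 i hi, hgd σ.1 k hk] at h
          have h1 := σ.1.injective (Fin.ext h)
          exact Fin.mk.inj_iff.1 h1
      · intro f g h
        apply Subtype.ext
        have h1 := congrArg Subtype.val h
        simp only at h1
        have h2 := List.ofFn_injective h1
        apply Equiv.ext
        intro i
        exact Fin.ext (congrFun h2 i)
      · rintro ⟨w, hc⟩
        obtain ⟨hlen, hlt, hinj⟩ := (hcrt w).1 hc
        have hinj' : Function.Injective
            (fun i : Fin A.length => (⟨w.getD i.val 0, (hlt i.val i.2).1⟩ : Fin A.length)) := by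
          intro i k h
          exact Fin.ext (hinj i.val i.2 k.val k.2 (Fin.mk.inj_iff.1 h))
        refine ⟨⟨Equiv.ofBijective _ (Finite.injective_iff_bijective.1 hinj'), fun i => ?_⟩, ?_⟩
        · exact (hlt i.val i.2).2
        · apply Subtype.ext
          simp only
          apply List.ext_getElem
          · rw [List.length_ofFn, hlen]
          · intro i h1 h2
            rw [List.getElem_ofFn]
            simp only [Equiv.ofBijective_apply]
            rw [List.getD_eq_getElem w _ h2]
    · rw [FS, if_neg hst]
      have : ∀ w, ¬ crt A w = true := by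
        intro w h
        unfold crt at h
        simp only [Bool.and_eq_true] at h
        exact hst ((stB_iff hsq).1 h.2.1)
      haveI : IsEmpty {w : List ℕ // crt A w = true} := ⟨fun w => this w.1 w.2⟩
      exact Nat.card_of_isEmpty
  · have h0 : FS A = 0 := by
      rw [FS, F, if_neg hsq]
      simp
    rw [h0]
    have : ∀ w, ¬ crt A w = true := by
      intro w h
      unfold crt at h
      simp only [Bool.and_eq_true] at h
      exact hsq ((sqB_iff A).1 h.1)
    haveI : IsEmpty {w : List ℕ // crt A w = true} := ⟨fun w => this w.1 w.2⟩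
    exact Nat.card_of_isEmpty

theorem memS : SharpP (strFn FS) := by
  have h := sharpP_typed crt crt_p
    (Polynomial.X * (Polynomial.C 4 * Polynomial.X + Polynomial.C 2) + Polynomial.C 1) ?_
  · have e : (fun A : LL => Nat.card {w : List ℕ // crt A w = true}) = FS := funext crt_card
    rw [e] at h
    exact h
  · intro A w hc
    unfold crt at hc
    simp only [Bool.and_eq_true, decide_eq_true_eq, List.all_eq_true, List.mem_range] at hc
    obtain ⟨_, _, hlen, hlt, _⟩ := hc
    have h1 : ∀ a ∈ w, sz a ≤ 4 * A.length + 1 := by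
      intro a ha
      obtain ⟨i, hi, rfl⟩ := List.mem_iff_getElem.1 ha
      have h2 := (hlt i (by omega)).1
      rw [List.getD_eq_getElem w _ hi] at h2
      have h3 := sz_nat_le w[i]
      have h4 : (w[i]).size ≤ w[i] := Nat.size_le.2 Nat.lt_two_pow_self
      omega
    have h2 := sz_le_length_mul w _ h1
    have h3 := length_lt_sz A
    simp only [Polynomial.eval_add, Polynomial.eval_mul, Polynomial.eval_X, Polynomial.eval_C]
    have h4 : w.length * (4 * A.length + 1 + 1) ≤ sz A * (4 * sz A + 2) :=
      Nat.mul_le_mul (by omega) (by omega)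
    omega

end Membership

/-- `#P = FP` iff the permanents of staircase matrices can be computed in polynomial time. -/
theorem fp_iff_stair (hred : RedId) (hst : StairId) : (∀ f : List Bool → ℕ, SharpP f → FP f) ↔
    ∃ g : List Bool → List Bool, PolyTime g ∧
      ∀ A : List (List Bool), Staircase A → g (bits A) = (F A).bits := by
  constructor
  · intro h
    refine ⟨_, h _ memS, fun A hA => ?_⟩
    rw [strFn_bits, FS, if_pos hA]
  · rintro ⟨g, hg, hgF⟩ f hf
    have hid : PC (bits : LL → List Bool) (id : List Bool → List Bool) (fun l => bits l) :=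
      (PC.id : PC (bits : LL → List Bool) bits (fun l => l))
    have h1 : PC (bits : LL → List Bool) (id : List Bool → List Bool) (fun l => g (bits l)) :=
      PC.comp (Pool.Agent.H642R2.TMSim.polyTime_toPC hg) hid
    have h2 : PC (bits : LL → List Bool) (bits : List Bool → List Bool) (fun l => g (bits l)) :=
      PC.comp (g := fun x : List Bool => x) (f := fun l : LL => g (bits l)) PC.ofBits h1
    have h3 : Poly (fun l : LL => valB (g (bits l))) := Poly.valBits h2
    set G : LL → ℕ := fun l => valB (g (bits l)) with hG
    have hGF : ∀ B, Staircase B → G B = F B := by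
      intro B hB
      rw [hG]
      simp only
      rw [hgF B hB, valB_bits]
    have h4 : Poly (fun φ : CNF ℕ => psF (φ, (qsF φ).map G)) := by
      have h5 : Poly (fun φ : CNF ℕ => (qsF φ).map G) :=
        Poly.map (F := fun (_ : CNF ℕ) B => G B) qsF_p (h3.comp (Poly.snd Poly.id))
      exact psF_p.comp (f := fun φ : CNF ℕ => (φ, (qsF φ).map G)) (Poly.pair Poly.id h5)
    have h5 : Poly (fun φ : CNF ℕ => satCount φ) :=
      h4.congr fun φ => psF_correct hred hst φ G hGF
    obtain ⟨V, p, hV, hf⟩ := hf
    obtain ⟨G', hG', hGf⟩ := parsimonious hV p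
    have h6 : Poly G' := PC.comp hG' pc_raw
    have h7 : Poly (fun x : List Bool => satCount (G' x)) := h5.comp (f := G') h6
    have h8 : Poly f := h7.congr fun x => by rw [hf x, ← hGf x]
    exact fp_of_poly h8

end Pool.Agent.NPC.H618Skew
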