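import Pool.Agent.H618R2.Skew.Defs

/-!
# T2: nested elimination is a polynomial in the multiplicity parameter
-/

namespace Pool.Agent.H618R2.Skew

open MvPolynomial Finset

namespace T2

/-- all monomials of `f` have degree at most `g` -/
def Dle (f : MP) (g : ℤ) : Prop := ∀ d ∈ f.support, ((Finsupp.degree d : ℕ) : ℤ) ≤ g

theorem Dle.zero (g : ℤ) : Dle 0 g := by intro d hd; simp at hd

theorem Dle.mono {f : MP} {g g' : ℤ} (h : Dle f g) (hg : g ≤ g') : Dle f g' :=
  fun d hd => (h d hd).trans hg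

theorem Dle.add {f f' : MP} {g : ℤ} (h : Dle f g) (h' : Dle f' g) : Dle (f + f') g := by
  intro d hd
  have := MvPolynomial.support_add hd
  rcases Finset.mem_union.1 this with h1 | h1
  · exact h d h1
  · exact h' d h1

theorem Dle.sum {ι : Type*} (s : Finset ι) (f : ι → MP) (g : ℤ) (h : ∀ i ∈ s, Dle (f i) g) :
    Dle (∑ i ∈ s, f i) g := by
  classical
  induction s using Finset.induction_on with
  | empty => simpa using Dle.zero g
  | insert a s ha ih =>
    rw [Finset.sum_insert ha]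
    exact (h a (Finset.mem_insert_self _ _)).add
      (ih fun i hi => h i (Finset.mem_insert_of_mem hi))

theorem Dle.mul {f f' : MP} {g g' : ℤ} (h : Dle f g) (h' : Dle f' g') : Dle (f * f') (g + g') := by
  classical
  intro d hd
  have := MvPolynomial.support_mul f f' hd
  obtain ⟨a, ha, b, hb, rfl⟩ := Finset.mem_add.1 this
  rw [map_add]
  push_cast
  exact add_le_add (h a ha) (h' b hb)

theorem Dle.C (q : ℚ) : Dle (MvPolynomial.C q) 0 := by
  intro d hd
  rw [MvPolynomial.mem_support_iff, MvPolynomial.coeff_C] at hd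
  have : (0 : ℕ →₀ ℕ) = d := by
    by_contra h
    simp [h] at hd
  rw [← this]
  simp

theorem Dle.one : Dle 1 0 := by
  have := Dle.C 1
  simpa using this

theorem Dle.X (v : ℕ) : Dle (MvPolynomial.X v) 1 := by
  intro d hd
  rw [MvPolynomial.support_X] at hd
  have := Finset.mem_singleton.1 hd
  subst this
  simp

theorem Dle.neg {f : MP} {g : ℤ} (h : Dle f g) : Dle (-f) g := by
  intro d hd
  rw [MvPolynomial.support_neg] at hd
  exact h d hd

theorem Dle.pow {f : MP} {g : ℤ} (h : Dle f g) (k : ℕ) : Dle (f ^ k) (k * g) := by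
  induction k with
  | zero => simpa using Dle.one
  | succ k ih =>
    rw [pow_succ]
    have := ih.mul h
    refine this.mono ?_
    push_cast
    linarith

theorem Dle.eq_zero {f : MP} {g : ℤ} (h : Dle f g) (hg : g < 0) : f = 0 := by
  rw [← MvPolynomial.support_eq_empty]
  by_contra hne
  obtain ⟨d, hd⟩ := Finset.nonempty_iff_ne_empty.2 hne
  have := h d hd
  omega

/-- homogeneous weights for polynomials over `MP` -/
def DG (g : ℤ) (p : Polynomial MP) : Prop := ∀ i : ℕ, Dle (p.coeff i) (g - i)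

theorem DG.zero (g : ℤ) : DG g 0 := by
  intro i
  simpa using Dle.zero _

theorem DG.mul {g g' : ℤ} {p q : Polynomial MP} (h : DG g p) (h' : DG g' q) : DG (g + g') (p * q) := by
  intro i
  rw [Polynomial.coeff_mul]
  refine Dle.sum _ _ _ fun x hx => ?_
  have hx' : x.1 + x.2 = i := by simpa using hx
  refine ((h x.1).mul (h' x.2)).mono ?_
  rw [← hx']
  push_cast
  linarith

theorem DG.one : DG 0 (1 : Polynomial MP) := by
  intro i
  rw [Polynomial.coeff_one]
  split_ifs with hi
  · subst hi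
    simpa using Dle.one
  · exact Dle.zero _

theorem DG.prod {ι : Type*} (s : Finset ι) (p : ι → Polynomial MP) (g : ι → ℤ)
    (h : ∀ i ∈ s, DG (g i) (p i)) : DG (∑ i ∈ s, g i) (∏ i ∈ s, p i) := by
  classical
  induction s using Finset.induction_on with
  | empty => simpa using DG.one
  | insert a s ha ih =>
    rw [Finset.sum_insert ha, Finset.prod_insert ha]
    exact (h a (Finset.mem_insert_self _ _)).mul
      (ih fun i hi => h i (Finset.mem_insert_of_mem hi))

theorem DG.pow {g : ℤ} {p : Polynomial MP} (h : DG g p) (k : ℕ) : DG (k * g) (p ^ k) := by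
  have := DG.prod (Finset.range k) (fun _ => p) (fun _ => g) (fun _ _ => h)
  simpa using this

theorem DG.sum {ι : Type*} (s : Finset ι) (p : ι → Polynomial MP) (g : ℤ)
    (h : ∀ i ∈ s, DG g (p i)) : DG g (∑ i ∈ s, p i) := by
  intro i
  rw [Polynomial.finsetSum_coeff]
  exact Dle.sum _ _ _ fun x hx => h x hx i

theorem DG.mono {g g' : ℤ} {p : Polynomial MP} (h : DG g p) (hg : g ≤ g') : DG g' p :=
  fun i => (h i).mono (by linarith)

theorem DG.sepX (u v : ℕ) : DG 1 (if v = u then Polynomial.X else Polynomial.C (X v) : Polynomial MP) := by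
  intro i
  split_ifs with h
  · rw [Polynomial.coeff_X]
    split_ifs with hi
    · subst hi
      simpa using Dle.one
    · exact Dle.zero _
  · rw [Polynomial.coeff_C]
    split_ifs with hi
    · subst hi
      simpa using Dle.X v
    · exact Dle.zero _

theorem DG.sep {f : MP} {g : ℤ} (h : Dle f g) (u : ℕ) : DG g (sep u f) := by
  have hf : f = ∑ d ∈ f.support, monomial d (coeff d f) := (MvPolynomial.support_sum_monomial_coeff f).symm
  have h2 : Skew.sep u f = ∑ d ∈ f.support, Skew.sep u (monomial d (coeff d f)) := by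
    conv_lhs => rw [hf]
    rw [map_sum]
  rw [h2]
  refine DG.sum _ _ _ fun d hd => ?_
  refine DG.mono ?_ (h d hd)
  rw [Skew.sep, aeval_monomial]
  have h3 : DG 0 (algebraMap ℚ (Polynomial MP) (coeff d f)) := by
    intro i
    rw [Polynomial.algebraMap_apply, Polynomial.coeff_C]
    split_ifs with hi
    · subst hi
      simpa using Dle.C _
    · exact Dle.zero _
  have h4 : DG (∑ v ∈ d.support, ((d v : ℕ) : ℤ) * 1)
      (∏ v ∈ d.support, (if v = u then Polynomial.X else Polynomial.C (X v) : Polynomial MP) ^ (d v)) :=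
    DG.prod _ _ _ fun v _ => (DG.sepX u v).pow _
  have h5 := h3.mul h4
  rw [Finsupp.prod]
  refine h5.mono ?_
  rw [Finsupp.degree_apply]
  push_cast
  simp

/-- polynomial dependence on the integral parameter, degree at most `B` -/
def PD (B : ℕ) (F : ℤ → MP) : Prop :=
  ∃ P : Polynomial MP, P.natDegree ≤ B ∧ ∀ M : ℤ, F M = P.eval (C (M : ℚ))

theorem PD.const (a : MP) : PD 0 (fun _ => a) := ⟨Polynomial.C a, by simp, by simp⟩

theorem PD.mono {B B' : ℕ} {F : ℤ → MP} (h : PD B F) (hB : B ≤ B') : PD B' F := by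
  obtain ⟨P, h1, h2⟩ := h
  exact ⟨P, h1.trans hB, h2⟩

theorem PD.add {B : ℕ} {F F' : ℤ → MP} (h : PD B F) (h' : PD B F') : PD B (fun M => F M + F' M) := by
  obtain ⟨P, h1, h2⟩ := h
  obtain ⟨P', h1', h2'⟩ := h'
  exact ⟨P + P', (Polynomial.natDegree_add_le _ _).trans (max_le h1 h1'), fun M => by
    simp [h2, h2']⟩

theorem PD.sum {ι : Type*} (s : Finset ι) (F : ι → ℤ → MP) (B : ℕ) (h : ∀ i ∈ s, PD B (F i)) :
    PD B (fun M => ∑ i ∈ s, F i M) := by
  classical
  induction s using Finset.induction_on with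
  | empty => simpa using (PD.const 0).mono (Nat.zero_le B)
  | insert a s ha ih =>
    simp_rw [Finset.sum_insert ha]
    exact (h a (Finset.mem_insert_self _ _)).add
      (ih fun i hi => h i (Finset.mem_insert_of_mem hi))

theorem PD.mul {B B' : ℕ} {F F' : ℤ → MP} (h : PD B F) (h' : PD B' F') :
    PD (B + B') (fun M => F M * F' M) := by
  obtain ⟨P, h1, h2⟩ := h
  obtain ⟨P', h1', h2'⟩ := h'
  exact ⟨P * P', Polynomial.natDegree_mul_le.trans (add_le_add h1 h1'), fun M => by
    simp [h2, h2']⟩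

theorem PD.lin (a b : ℤ) (q : ℚ) : PD 1 (fun M => C (((a * M + b : ℤ) : ℚ) - q)) := by
  refine ⟨Polynomial.C (C (a : ℚ)) * Polynomial.X + Polynomial.C (C ((b : ℚ) - q)), ?_, ?_⟩
  · exact Polynomial.natDegree_linear_le
  · intro M
    simp only [Polynomial.eval_add, Polynomial.eval_mul, Polynomial.eval_C, Polynomial.eval_X,
      ← C_mul, ← C_add]
    congr 1
    push_cast
    ring

theorem PD.zch (a b : ℤ) (k : ℕ) : PD k (fun M => C (zch (a * M + b) k)) := by
  have h : ∀ k, PD k (fun M => C (∏ i ∈ range k, (((a * M + b : ℤ) : ℚ) - i))) := by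
    intro k
    induction k with
    | zero => simpa using PD.const 1
    | succ k ih =>
      simp_rw [Finset.prod_range_succ, C_mul]
      exact ih.mul (PD.lin a b k)
  have h2 := (h k).mul (PD.const (C ((k.factorial : ℚ)⁻¹)))
  unfold Skew.zch
  simp only [← C_mul] at h2
  simpa [div_eq_mul_inv] using h2

theorem PD.linMap {B : ℕ} {F : ℤ → MP} (h : PD B F) (T : MP →ₗ[ℚ] MP) : PD B (fun M => T (F M)) := by
  obtain ⟨P, h1, h2⟩ := h
  refine ⟨∑ k ∈ range (B + 1), Polynomial.C (T (P.coeff k)) * Polynomial.X ^ k, ?_, ?_⟩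
  · refine Polynomial.natDegree_sum_le_of_forall_le _ _ fun k hk => ?_
    exact (Polynomial.natDegree_C_mul_X_pow_le _ _).trans (Nat.lt_succ_iff.1 (Finset.mem_range.1 hk))
  · intro M
    simp only [h2]
    rw [Polynomial.eval_eq_sum_range' (Nat.lt_succ_of_le h1), map_sum, Polynomial.eval_finsetSum]
    refine Finset.sum_congr rfl fun k _ => ?_
    rw [Polynomial.eval_mul, Polynomial.eval_C, Polynomial.eval_pow, Polynomial.eval_X, ← C_pow,
      mul_comm (P.coeff k), mul_comm (T (P.coeff k)), C_mul', C_mul', map_smul]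

/-- good families of power series -/
def TS (S : ℤ → PowerSeries MP) : Prop :=
  ∀ j : ℕ, PD j (fun M => PowerSeries.coeff j (S M)) ∧ ∀ M, Dle (PowerSeries.coeff j (S M)) j

theorem TS.one : TS (fun _ => 1) := by
  intro j
  refine ⟨(PD.const _).mono (Nat.zero_le j), fun M => ?_⟩
  rw [PowerSeries.coeff_one]
  split_ifs with hj
  · subst hj
    simpa using Dle.one
  · exact Dle.zero _

theorem TS.mul {S S' : ℤ → PowerSeries MP} (h : TS S) (h' : TS S') : TS (fun M => S M * S' M) := by
  intro j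
  refine ⟨?_, fun M => ?_⟩
  · simp_rw [PowerSeries.coeff_mul]
    refine PD.sum _ _ _ fun x hx => ?_
    have hx' : x.1 + x.2 = j := by simpa using hx
    exact ((h x.1).1.mul (h' x.2).1).mono hx'.le
  · rw [PowerSeries.coeff_mul]
    refine Dle.sum _ _ _ fun x hx => ?_
    have hx' : x.1 + x.2 = j := by simpa using hx
    refine (((h x.1).2 M).mul ((h' x.2).2 M)).mono ?_
    rw [← hx']
    push_cast
    exact le_rfl

theorem TS.ser (a b : ℤ) (v : ℕ) : TS (fun M => ser (a * M + b) (X v)) := by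
  intro j
  unfold Skew.ser
  simp only [PowerSeries.coeff_mk]
  refine ⟨?_, fun M => ?_⟩
  · have := (PD.zch a b j).mul (PD.const ((-(X v : MP)) ^ j))
    simpa using this
  · have := (Dle.C (Skew.zch (a * M + b) j)).mul ((Dle.X v).neg.pow j)
    refine this.mono ?_
    simp

theorem TS.serL (ex : List (ℕ × ℤ)) : TS (fun _ => serL ex) := by
  induction ex with
  | nil => simpa [Skew.serL] using TS.one
  | cons p L ih =>
    have h1 := TS.ser 0 p.2 p.1
    simp only [zero_mul, zero_add] at h1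
    have := h1.mul ih
    simpa [Skew.serL] using this

theorem TS.cons (a b : ℤ) (v : ℕ) (L : ℤ → List (ℕ × ℤ)) (h : TS (fun M => Skew.serL (L M))) :
    TS (fun M => Skew.serL ((v, a * M + b) :: L M)) := by
  have := (TS.ser a b v).mul h
  simpa [Skew.serL] using this

/-- type of a family of polynomials -/
def Ty (g : ℤ) (B : ℕ) (F : ℤ → MP) : Prop := (∀ M, Dle (F M) g) ∧ PD B F

/-- coefficient `i` of `sep u` as a linear map -/
noncomputable def cmap (u i : ℕ) : MP →ₗ[ℚ] MP :=
  ((Polynomial.lcoeff MP i).restrictScalars ℚ) ∘ₗ (sep u).toLinearMap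

theorem cmap_apply (u i : ℕ) (f : MP) : cmap u i f = (sep u f).coeff i := rfl

theorem elim_eq (u : ℕ) (L : List (ℕ × ℤ)) (f : MP) (g : ℤ) (h : Dle f g) :
    elim u L f = ∑ i ∈ range (g.toNat + 1), cmap u i f * cz (serL L) (i + tot L + 1) := by
  unfold elim phi
  have hd : (sep u f).natDegree < g.toNat + 1 := by
    rw [Nat.lt_succ_iff, Polynomial.natDegree_le_iff_coeff_eq_zero]
    intro N hN
    refine (DG.sep h u N).eq_zero ?_
    have := Int.self_le_toNat g
    have h2 : ((g.toNat : ℕ) : ℤ) < N := by exact_mod_cast hN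
    linarith
  rw [Polynomial.sum_over_range' _ _ _ hd]
  · rfl
  · intro n
    simp

theorem Ty.elim {g : ℤ} {B : ℕ} {F : ℤ → MP} (h : Ty g B F) (u : ℕ) (L : ℤ → List (ℕ × ℤ)) (δ : ℤ)
    (hL : TS (fun M => serL (L M))) (hδ : ∀ M, tot (L M) + 1 = δ) :
    Ty (g + δ) (B + (g + δ).toNat) (fun M => elim u (L M) (F M)) := by
  have key : ∀ M, Skew.elim u (L M) (F M) =
      ∑ i ∈ range (g.toNat + 1), cmap u i (F M) * cz (serL (L M)) (i + δ) := by
    intro M
    rw [elim_eq u (L M) (F M) g (h.1 M)]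
    refine Finset.sum_congr rfl fun i _ => ?_
    rw [← hδ M]
    congr 2
    ring
  simp_rw [key]
  refine ⟨fun M => ?_, ?_⟩
  · refine Dle.sum _ _ _ fun i _ => ?_
    have h1 : Dle (cmap u i (F M)) (g - i) := DG.sep (h.1 M) u i
    have h2 : Dle (cz (serL (L M)) (i + δ)) (i + δ) := by
      unfold cz
      split_ifs with h0
      · refine ((hL ((i : ℤ) + δ).toNat).2 M).mono ?_
        rw [Int.toNat_of_nonneg h0]
      · exact Dle.zero _
    refine (h1.mul h2).mono ?_
    linarith
  · refine PD.sum _ _ _ fun i hi => ?_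
    have hi' : i < g.toNat + 1 := Finset.mem_range.1 hi
    rcases lt_or_ge g 0 with hg | hg
    · have h0 : ∀ M, F M = 0 := fun M => (h.1 M).eq_zero hg
      simp_rw [h0]
      simpa using (PD.const 0).mono (Nat.zero_le _)
    · unfold cz
      by_cases h0 : 0 ≤ (i : ℤ) + δ
      · simp only [if_pos h0]
        refine ((h.2.linMap (cmap u i)).mul (hL ((i : ℤ) + δ).toNat).1).mono ?_
        have : ((i : ℤ) + δ).toNat ≤ (g + δ).toNat := by
          apply Int.toNat_le_toNat
          have : (i : ℤ) ≤ g := by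
            have := Int.toNat_of_nonneg hg
            omega
          linarith
        omega
      · simp only [if_neg h0, mul_zero]
        exact (PD.const 0).mono (Nat.zero_le _)

theorem run_ty (Lf : ℤ → ℕ → List (ℕ × ℤ)) (δ : ℕ → ℤ) (gm : ℕ)
    (hL : ∀ u, TS (fun M => serL (Lf M u))) (hδ : ∀ M u, tot (Lf M u) + 1 = δ u) :
    ∀ (k u : ℕ) (g : ℤ) (B : ℕ) (F : ℤ → MP), Ty g B F →
      (∀ j ≤ k, g + ∑ w ∈ range j, δ (u + w) ≤ gm) →
      PD (B + k * gm) (fun M => run (Lf M) u k (F M)) := by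
  intro k
  induction k with
  | zero =>
    intro u g B F h _
    simpa [run] using h.2
  | succ k ih =>
    intro u g B F h hg
    have h1 := h.elim u (fun M => Lf M u) (δ u) (hL u) (fun M => hδ M u)
    have h2 := ih (u + 1) (g + δ u) (B + (g + δ u).toNat) _ h1 ?_
    · simp only [run]
      refine h2.mono ?_
      have h3 := hg 1 (by omega)
      simp only [Finset.sum_range_one, add_zero] at h3
      have h4 : (g + δ u).toNat ≤ gm := by omega
      have h5 : (k + 1) * gm = k * gm + gm := by ring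
      omega
    · intro j hj
      have h3 := hg (j + 1) (by omega)
      rw [Finset.sum_range_succ'] at h3
      have h4 : ∑ w ∈ range j, δ (u + 1 + w) = ∑ w ∈ range j, δ (u + (w + 1)) := by
        refine Finset.sum_congr rfl fun w _ => ?_
        congr 1
        omega
      rw [h4]
      simp only [add_zero] at h3
      linarith

end T2

/-- T2: the nested elimination is a polynomial in the parameter `M` -/
theorem genC (G : ℕ) (c : ℤ) (mn : ℕ → ℕ) (β α : ℕ → ℤ) (ex : ℕ → List (ℕ × ℤ)) (gm : ℕ)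
    (hg : ∀ u ≤ G, ∑ w ∈ range u, (α w - β w + tot (ex w)) ≤ gm) :
    ∃ P : Polynomial ℚ, P.natDegree ≤ G * gm ∧ ∀ M : ℤ,
      constantCoeff (run (fun u => (u + 1, -(c * M + β u) - 1) :: (mn u, c * M + α u) :: ex u) 0 G 1) =
        P.eval (M : ℚ) := by
  have h0 : T2.Ty 0 0 (fun _ => (1 : MP)) := ⟨fun _ => T2.Dle.one, T2.PD.const 1⟩
  have h1 := T2.run_ty
    (fun M u => (u + 1, -(c * M + β u) - 1) :: (mn u, c * M + α u) :: ex u)
    (fun u => α u - β u + tot (ex u)) gm ?_ ?_ G 0 0 0 _ h0 ?_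
  · obtain ⟨P, hP1, hP2⟩ := h1
    refine ⟨P.map constantCoeff, (Polynomial.natDegree_map_le).trans (by simpa using hP1), fun M => ?_⟩
    have := hP2 M
    simp only at this
    rw [this, ← Polynomial.eval₂_hom, Polynomial.eval_map]
    simp
  · intro u
    have h2 := T2.TS.cons c (α u) (mn u) (fun _ => ex u) (T2.TS.serL (ex u))
    have h3 := T2.TS.cons (-c) (-β u - 1) (u + 1) (fun M => (mn u, c * M + α u) :: ex u) h2
    have h4 : ∀ M : ℤ, -c * M + (-β u - 1) = -(c * M + β u) - 1 := fun M => by ring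
    simp_rw [h4] at h3
    exact h3
  · intro M u
    simp only [tot, List.map_cons, List.sum_cons]
    ring
  · intro j hj
    simpa using hg j hj

/-- T2' -/
theorem fd_zero (P : Polynomial ℚ) (B : ℕ) (h : P.natDegree ≤ B) :
    ∑ m ∈ range (B + 1), (-1 : ℚ) ^ m * ((B + 1).choose (m + 1) : ℚ) * P.eval ((m : ℚ) + 1) =
      P.eval 0 := by
  have h1 := Polynomial.fwdDiff_iter_eq_zero_of_degree_lt (P := P) (n := B + 1) (Nat.lt_succ_of_le h)
  have h2 := congrFun h1 0
  rw [fwdDiff_iter_eq_sum_shift, Finset.sum_range_succ'] at h2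
  simp only [Pi.zero_apply, zero_add, smul_eq_mul, nsmul_eq_mul, mul_one, zsmul_eq_mul, Nat.choose_zero_right, Nat.cast_one,
    Nat.cast_zero, zero_mul, Nat.sub_zero] at h2
  push_cast at h2
  have h3 : ∑ m ∈ range (B + 1), (-1 : ℚ) ^ m * ((B + 1).choose (m + 1) : ℚ) * P.eval ((m : ℚ) + 1) =
      (-1) ^ B * ∑ m ∈ range (B + 1), (-1 : ℚ) ^ (B + 1 - (m + 1)) * ((B + 1).choose (m + 1) : ℚ) *
        P.eval ((m : ℚ) + 1) := by
    rw [Finset.mul_sum]
    refine Finset.sum_congr rfl fun m hm => ?_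
    have hm' : m ≤ B := Nat.lt_succ_iff.1 (Finset.mem_range.1 hm)
    have : (-1 : ℚ) ^ m = (-1) ^ B * (-1) ^ (B + 1 - (m + 1)) := by
      rw [← pow_add]
      have h5 : B + (B + 1 - (m + 1)) = m + 2 * (B - m) := by omega
      rw [h5, pow_add, pow_mul]
      simp
    rw [this]
    ring
  rw [h3]
  have h4 : ∑ m ∈ range (B + 1), (-1 : ℚ) ^ (B + 1 - (m + 1)) * ((B + 1).choose (m + 1) : ℚ) *
        P.eval ((m : ℚ) + 1) = - ((-1) ^ (B + 1) * P.eval 0) := by
    have h7 : ∀ m, B + 1 - (m + 1) = B - m := fun m => by omega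
    simp only [h7]
    linarith
  rw [h4, pow_succ]
  have h6 : ((-1 : ℚ) ^ B) * (-1) ^ B = 1 := by
    rw [← mul_pow]
    simp
  linear_combination (P.eval 0) * h6

/-- T2'' -/
theorem fd_lead (P : Polynomial ℚ) (K : ℕ) (h : P.natDegree ≤ K) :
    ∑ j ∈ range (K + 1), (-1 : ℚ) ^ (K + j) * (K.choose j : ℚ) * P.eval ((j : ℚ) + 1) =
      (K.factorial : ℚ) * P.coeff K := by
  have h0 : ∑ j ∈ range (K + 1), (-1 : ℚ) ^ (K + j) * (K.choose j : ℚ) * P.eval ((j : ℚ) + 1) =
      (fwdDiff (1 : ℚ))^[K] P.eval 1 := by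
    rw [fwdDiff_iter_eq_sum_shift]
    refine Finset.sum_congr rfl fun j hj => ?_
    have hj' : j ≤ K := Nat.lt_succ_iff.1 (Finset.mem_range.1 hj)
    have : (-1 : ℚ) ^ (K + j) = (-1) ^ (K - j) := by
      have h5 : K + j = (K - j) + 2 * j := by omega
      rw [h5, pow_add, pow_mul]
      simp
    rw [this, zsmul_eq_mul, nsmul_eq_mul, mul_one, add_comm (1 : ℚ)]
    push_cast
    ring
  rw [h0]
  rcases h.lt_or_eq with h1 | h1
  · rw [Polynomial.fwdDiff_iter_eq_zero_of_degree_lt h1, Polynomial.coeff_eq_zero_of_natDegree_lt h1]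
    simp
  · subst h1
    rw [Polynomial.fwdDiff_iter_degree_eq_factorial]
    simp [mul_comm]

end Pool.Agent.H618R2.Skew
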