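import Pool.Agent.H618R2.Skew.T0

/-!
# Nested elimination with nonnegative multiplicities is a coefficient (task T1)
-/

namespace Pool.Agent.H618R2.Skew

open MvPolynomial Finset

namespace T1

/-! ### the lists -/

theorem ser_zero (y : MP) : ser 0 y = 1 := by
  ext k
  rcases k with _ | k
  · simp [ser, zch]
  · have : zch 0 (k + 1) = 0 := by
      unfold zch
      rw [Finset.prod_range_succ']
      simp
    simp [ser, this, PowerSeries.coeff_one]

theorem elim_perm (u : ℕ) {L L' : List (ℕ × ℤ)} (h : L.Perm L') (f : MP) :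
    elim u L f = elim u L' f := by
  have h1 : serL L = serL L' := by
    unfold serL
    exact (h.map _).prod_eq
  have h2 : tot L = tot L' := by
    unfold tot
    exact (h.map _).sum_eq
  unfold elim
  rw [h1, h2]

theorem elim_zero (u v : ℕ) (L : List (ℕ × ℤ)) (f : MP) :
    elim u ((v, 0) :: L) f = elim u L f := by
  unfold elim
  have h1 : serL ((v, 0) :: L) = serL L := by
    simp [serL, ser_zero]
  have h2 : tot ((v, 0) :: L) = tot L := by
    simp [tot]
  rw [h1, h2]

theorem elim_pow
    (T0b : ∀ (u v : ℕ) (_ : v ≠ u) (N : ℤ) (L : List (ℕ × ℤ)) (f : MP),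
      elim u ((v, N + 1) :: L) f = elim u ((v, N) :: L) (f * (X u - X v)))
    (u v : ℕ) (hv : v ≠ u) (n : ℕ) (L : List (ℕ × ℤ)) (f : MP) :
    elim u ((v, (n : ℤ)) :: L) f = elim u L (f * (X u - X v) ^ n) := by
  induction n generalizing f with
  | zero => simp [elim_zero]
  | succ n ih =>
    have : ((n + 1 : ℕ) : ℤ) = (n : ℤ) + 1 := by push_cast; ring
    rw [this, T0b u v hv, ih]
    congr 1
    ring

theorem elim_list
    (T0b : ∀ (u v : ℕ) (_ : v ≠ u) (N : ℤ) (L : List (ℕ × ℤ)) (f : MP),
      elim u ((v, N + 1) :: L) f = elim u ((v, N) :: L) (f * (X u - X v)))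
    (u : ℕ) (a : ℕ × ℤ) (tg : List (ℕ × ℕ)) (htg : ∀ q ∈ tg, q.1 ≠ u) (f : MP) :
    elim u (a :: tg.map fun q => (q.1, (q.2 : ℤ))) f =
      elim u [a] (f * (tg.map fun q => (X u - X q.1 : MP) ^ q.2).prod) := by
  induction tg generalizing f with
  | nil => simp
  | cons q tg ih =>
    rw [List.map_cons, elim_perm u (List.Perm.swap _ _ _),
      elim_pow T0b u q.1 (htg q (by simp)) q.2, ih (fun r hr => htg r (by simp [hr]))]
    congr 1
    simp only [List.map_cons, List.prod_cons]
    ring

/-! ### separating a variable -/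

theorem sep_monomial (u : ℕ) (s : ℕ →₀ ℕ) (a : ℚ) :
    sep u (monomial s a) = Polynomial.monomial (s u) (monomial (s.erase u) a) := by
  have key : ∀ t : ℕ →₀ ℕ, t u = 0 → sep u (monomial t a) = Polynomial.C (monomial t a) := by
    intro t ht
    unfold sep
    rw [aeval_monomial]
    have : (t.prod fun i k => (if i = u then (Polynomial.X : Polynomial MP)
        else Polynomial.C (X i)) ^ k) = t.prod fun i k => (Polynomial.C (X i : MP)) ^ k := by
      apply Finsupp.prod_congr
      intro i hi
      have : i ≠ u := by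
        rintro rfl
        simp [ht] at hi
      simp [this]
    rw [this]
    rw [monomial_eq (s := t) (a := a)]
    simp only [Finsupp.prod, map_mul, map_prod, map_pow]
    congr 1
  have h1 : monomial s a = monomial (s.erase u) a * (X u : MP) ^ (s u) := by
    rw [X_pow_eq_monomial, monomial_mul, mul_one]
    congr 1
    rw [add_comm, Finsupp.single_add_erase]
  rw [h1, map_mul, key _ (by simp), map_pow]
  have h2 : sep u (X u) = Polynomial.X := by
    unfold sep
    simp
  rw [h2, ← Polynomial.C_mul_X_pow_eq_monomial]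

theorem coeff_sep (u m : ℕ) (d : ℕ →₀ ℕ) (hd : d u = 0) (h : MP) :
    coeff (Finsupp.single u m + d) h = coeff d ((sep u h).coeff m) := by
  induction h using MvPolynomial.induction_on' with
  | monomial s a =>
    rw [sep_monomial, Polynomial.coeff_monomial, coeff_monomial]
    by_cases hs : s = Finsupp.single u m + d
    · subst hs
      have h1 : (Finsupp.single u m + d) u = m := by simp [hd]
      have h2 : (Finsupp.single u m + d).erase u = d := by
        ext v
        by_cases hv : v = u
        · subst hv; simp [hd]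
        · simp [Finsupp.erase_ne hv, Finsupp.single_apply, Ne.symm hv]
      rw [if_pos h1, h2]
      simp
    · rw [if_neg hs]
      split_ifs with h1
      · rw [coeff_monomial]
        rw [if_neg]
        intro h2
        apply hs
        rw [← h2, ← h1, Finsupp.single_add_erase]
      · simp
  | add p q hp hq =>
    rw [map_add, Polynomial.coeff_add, coeff_add, coeff_add, hp, hq]

theorem sep_coeff_supported (u i : ℕ) (g : MP) (hg : g ∈ supported ℚ {v | u ≤ v}) :
    (sep u g).coeff i ∈ supported ℚ {v | u + 1 ≤ v} := by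
  rw [mem_supported] at hg
  rw [g.as_sum, map_sum, Polynomial.finsetSum_coeff]
  apply Subalgebra.sum_mem
  intro s hs
  rw [sep_monomial, Polynomial.coeff_monomial]
  split_ifs with h
  · rw [mem_supported]
    intro v hv
    have hc : coeff s g ≠ 0 := by
      rwa [mem_support_iff] at hs
    rw [vars_monomial hc] at hv
    have hv' : v ≠ u ∧ s v ≠ 0 := by
      simpa [and_comm] using hv
    have : v ∈ g.vars := by
      rw [mem_vars]
      exact ⟨s, hs, by simpa using hv'.2⟩
    have := hg this
    simp only [Set.mem_ofPred_eq] at this ⊢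
    omega
  · exact Subalgebra.zero_mem _

theorem eval_hasse_supported (u m : ℕ) (g : MP) (hg : g ∈ supported ℚ {v | u ≤ v}) :
    (Polynomial.hasseDeriv m (sep u g)).eval (X (u + 1)) ∈ supported ℚ {v | u + 1 ≤ v} := by
  rw [Polynomial.eval_eq_sum_range]
  apply Subalgebra.sum_mem
  intro i _
  apply Subalgebra.mul_mem
  · rw [Polynomial.hasseDeriv_coeff]
    apply Subalgebra.mul_mem
    · exact natCast_mem _ _
    · exact sep_coeff_supported u _ g hg
  · apply Subalgebra.pow_mem
    rw [X_mem_supported]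
    simp

theorem sep_eq_C (u : ℕ) (g : MP) (hg : g ∈ supported ℚ {v | u + 1 ≤ v}) :
    sep u g = Polynomial.C g := by
  have h : supported ℚ {v : ℕ | u + 1 ≤ v} ≤
      AlgHom.equalizer (sep u) (Polynomial.CAlgHom.comp (AlgHom.id ℚ MP) : MP →ₐ[ℚ] Polynomial MP) := by
    unfold supported
    apply AlgHom.adjoin_le_equalizer
    rintro _ ⟨v, hv, rfl⟩
    have hv' : v ≠ u := by
      simp only [Set.mem_ofPred_eq] at hv
      omega
    simp [sep, hv']
  exact h hg

/-! ### the substitution -/

/-- the potentials, in terms of the differences -/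
noncomputable def psi (G : ℕ) : MP →ₐ[ℚ] MP := aeval fun j => -(∑ κ ∈ Ico j G, (X κ : MP))

theorem psi_X (G j : ℕ) : psi G (X j) = -(∑ κ ∈ Ico j G, (X κ : MP)) := by
  simp [psi]

theorem psi_supported (G u : ℕ) (g : MP) (hg : g ∈ supported ℚ {v | u ≤ v}) :
    psi G g ∈ supported ℚ {v | u ≤ v} := by
  have h : supported ℚ {v : ℕ | u ≤ v} ≤ (supported ℚ {v : ℕ | u ≤ v}).comap (psi G) := by
    conv_lhs => unfold supported
    apply Algebra.adjoin_le
    rintro _ ⟨v, hv, rfl⟩
    simp only [Set.mem_ofPred_eq] at hv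
    rw [SetLike.mem_coe, Subalgebra.mem_comap, psi_X]
    apply Subalgebra.neg_mem
    apply Subalgebra.sum_mem
    intro κ hκ
    rw [X_mem_supported]
    rw [mem_Ico] at hκ
    simp only [Set.mem_ofPred_eq]
    omega
  exact h hg

theorem sep_psi (G u : ℕ) (hu : u < G) (g : MP) (hg : g ∈ supported ℚ {v | u ≤ v}) :
    sep u (psi G g) = ((sep u g).map (psi G).toRingHom).comp
      (Polynomial.C (psi G (X (u + 1))) - Polynomial.X) := by
  unfold supported at hg
  induction hg using Algebra.adjoin_induction with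
  | mem x hx =>
    obtain ⟨v, hv, rfl⟩ := hx
    simp only [Set.mem_ofPred_eq] at hv
    rcases Nat.eq_or_lt_of_le hv with rfl | hv
    · have h1 : psi G (X u) = psi G (X (u + 1)) - X u := by
        rw [psi_X, psi_X, Finset.sum_eq_sum_Ico_succ_bot hu]
        ring
      have h2 : sep u (X u) = Polynomial.X := by simp [sep]
      rw [h1, map_sub, h2, sep_eq_C u (psi G (X (u + 1)))
        (psi_supported G (u + 1) _ (by rw [X_mem_supported]; simp))]
      simp
    · have h2 : sep u (X v) = Polynomial.C (X v) := sep_eq_C u _ (by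
        rw [X_mem_supported]; simp only [Set.mem_ofPred_eq]; omega)
      rw [h2, sep_eq_C u (psi G (X v)) (psi_supported G (u + 1) _ (by
        rw [X_mem_supported]; simp only [Set.mem_ofPred_eq]; omega))]
      simp
  | algebraMap r =>
    have h2 : sep u (algebraMap ℚ MP r) = Polynomial.C (algebraMap ℚ MP r) := by
      rw [AlgHom.commutes]
      rfl
    rw [AlgHom.commutes, h2, Polynomial.map_C, Polynomial.C_comp]
    simp
  | add x y _ _ hx hy =>
    rw [map_add, map_add, hx, hy, map_add, Polynomial.map_add, Polynomial.add_comp]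
  | mul x y _ _ hx hy =>
    rw [map_mul, map_mul, hx, hy, map_mul, Polynomial.map_mul, Polynomial.mul_comp]

theorem coeff_comp_sub (p : Polynomial MP) (b : MP) (m : ℕ) :
    (p.comp (Polynomial.C b - Polynomial.X)).coeff m =
      (-1) ^ m * (Polynomial.hasseDeriv m p).eval b := by
  have h1 : p.comp (Polynomial.C b - Polynomial.X) =
      (Polynomial.taylor b p).comp (Polynomial.C (-1) * Polynomial.X) := by
    rw [Polynomial.taylor_apply, Polynomial.comp_assoc]
    congr 1
    simp
    ring
  rw [h1, Polynomial.comp_C_mul_X_coeff, Polynomial.taylor_coeff]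
  ring

theorem map_hasse (φ : MP →+* MP) (p : Polynomial MP) (m : ℕ) :
    Polynomial.hasseDeriv m (p.map φ) = (Polynomial.hasseDeriv m p).map φ := by
  ext1 i
  rw [Polynomial.hasseDeriv_coeff, Polynomial.coeff_map, Polynomial.coeff_map,
    Polynomial.hasseDeriv_coeff, map_mul, map_natCast]

/-- one elimination step, on the side of the coefficients -/
theorem step (G u m : ℕ) (hu : u < G) (d : ℕ →₀ ℕ) (hd : d u = 0) (g R : MP)
    (hg : g ∈ supported ℚ {v | u ≤ v}) (hR : R ∈ supported ℚ {v | u + 1 ≤ v}) :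
    coeff (Finsupp.single u m + d) (psi G g * R) =
      (-1) ^ m * coeff d (psi G ((Polynomial.hasseDeriv m (sep u g)).eval (X (u + 1))) * R) := by
  rw [coeff_sep u m d hd, map_mul, sep_eq_C u R hR, Polynomial.coeff_mul_C, sep_psi G u hu g hg,
    coeff_comp_sub, map_hasse]
  have h1 : Polynomial.eval (psi G (X (u + 1)))
      ((Polynomial.hasseDeriv m (sep u g)).map (psi G).toRingHom) =
      psi G ((Polynomial.hasseDeriv m (sep u g)).eval (X (u + 1))) := by
    have := Polynomial.eval_map_apply (f := (psi G).toRingHom) (x := X (u + 1))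
      (p := Polynomial.hasseDeriv m (sep u g))
    exact this
  rw [h1]
  have h2 : ((-1 : MP) ^ m) = C ((-1 : ℚ) ^ m) := by simp
  rw [h2, mul_assoc, coeff_C_mul]

/-! ### the product of the linear forms -/

theorem psi_diff (G u v : ℕ) (h1 : u < v) (h2 : v ≤ G) :
    (∑ κ ∈ Ico u v, (X κ : MP)) = -(psi G (X u - X v)) := by
  rw [map_sub, psi_X, psi_X, ← Finset.sum_Ico_consecutive _ h1.le h2]
  ring

theorem prod_list (G u : ℕ) (tg : List (ℕ × ℕ)) (htg : ∀ q ∈ tg, u < q.1 ∧ q.1 ≤ G) :
    (tg.map fun q => (∑ κ ∈ Ico u q.1, (X κ : MP)) ^ q.2).prod =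
      C ((-1 : ℚ) ^ (tg.map Prod.snd).sum) *
        psi G ((tg.map fun q => (X u - X q.1 : MP) ^ q.2).prod) := by
  induction tg with
  | nil => simp
  | cons q tg ih =>
    rw [List.map_cons, List.prod_cons, ih (fun r hr => htg r (by simp [hr])),
      psi_diff G u q.1 (htg q (by simp)).1 (htg q (by simp)).2]
    simp only [List.map_cons, List.sum_cons, List.prod_cons, map_mul, map_pow, map_neg, map_one,
      pow_add]
    rw [neg_pow]
    ring

theorem diff_list_supported (u : ℕ) (tg : List (ℕ × ℕ)) (htg : ∀ q ∈ tg, u < q.1) :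
    (tg.map fun q => (X u - X q.1 : MP) ^ q.2).prod ∈ supported ℚ {v | u ≤ v} := by
  apply Subalgebra.list_prod_mem
  intro x hx
  rw [List.mem_map] at hx
  obtain ⟨q, hq, rfl⟩ := hx
  apply Subalgebra.pow_mem
  apply Subalgebra.sub_mem
  · rw [X_mem_supported]; simp
  · rw [X_mem_supported]; exact (htg q hq).le

theorem lin_list_supported (u : ℕ) (tg : List (ℕ × ℕ)) :
    (tg.map fun q => (∑ κ ∈ Ico u q.1, (X κ : MP)) ^ q.2).prod ∈ supported ℚ {v | u ≤ v} := by
  apply Subalgebra.list_prod_mem
  intro x hx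
  rw [List.mem_map] at hx
  obtain ⟨q, hq, rfl⟩ := hx
  apply Subalgebra.pow_mem
  apply Subalgebra.sum_mem
  intro κ hκ
  rw [mem_Ico] at hκ
  rw [X_mem_supported]
  exact hκ.1

theorem supported_mono' (u w : ℕ) (h : u ≤ w) :
    supported ℚ {v | w ≤ v} ≤ supported ℚ {v : ℕ | u ≤ v} :=
  supported_mono (fun v hv => by simp only [Set.mem_ofPred_eq] at hv ⊢; omega)

theorem constantCoeff_psi (G : ℕ) (f : MP) : coeff 0 (psi G f) = constantCoeff f := by
  have h : (constantCoeff.comp (psi G).toRingHom : MP →+* ℚ) = constantCoeff := by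
    apply MvPolynomial.ringHom_ext
    · intro r
      simp
    · intro i
      have := psi_X G i
      simp only [RingHom.comp_apply]
      change constantCoeff (psi G (X i)) = _
      rw [this]
      simp
  have := congrArg (fun φ : MP →+* ℚ => φ f) h
  exact this

theorem main
    (T0b : ∀ (u v : ℕ) (_ : v ≠ u) (N : ℤ) (L : List (ℕ × ℤ)) (f : MP),
      elim u ((v, N + 1) :: L) f = elim u ((v, N) :: L) (f * (X u - X v)))
    (T0c : ∀ (u v s : ℕ) (f : MP),
      elim u [(v, -(s : ℤ) - 1)] f = ((Polynomial.hasseDeriv s (sep u f)).eval (X v)))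
    (G : ℕ) (tg : ℕ → List (ℕ × ℕ)) (m : ℕ → ℕ)
    (htg : ∀ u < G, ∀ q ∈ tg u, u < q.1 ∧ q.1 ≤ G) (k : ℕ) :
    ∀ (u : ℕ) (_ : u + k = G) (f : MP) (_ : f ∈ supported ℚ {v | u ≤ v}),
    coeff (∑ w ∈ Ico u G, Finsupp.single w (m w))
        (psi G f * ∏ w ∈ Ico u G, ((tg w).map fun q => (∑ κ ∈ Ico w q.1, (X κ : MP)) ^ q.2).prod) =
      (∏ w ∈ Ico u G, (-1 : ℚ) ^ (m w + ((tg w).map Prod.snd).sum)) *
        constantCoeff (run (fun u => (u + 1, -(m u : ℤ) - 1) :: (tg u).map fun q => (q.1, (q.2 : ℤ)))
          u k f) := by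
  induction k with
  | zero =>
    intro u hu f hf
    have : u = G := by omega
    subst this
    simp only [Ico_self, sum_empty, prod_empty, mul_one, one_mul, run]
    exact constantCoeff_psi u f
  | succ k ih =>
    intro u hu f hf
    have hG : u < G := by omega
    set g : MP := f * ((tg u).map fun q => (X u - X q.1 : MP) ^ q.2).prod with hgdef
    have hg : g ∈ supported ℚ {v | u ≤ v} :=
      Subalgebra.mul_mem _ hf (diff_list_supported u (tg u) (fun q hq => (htg u hG q hq).1))
    have hel : elim u ((u + 1, -(m u : ℤ) - 1) :: (tg u).map fun q => (q.1, (q.2 : ℤ))) f =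
        (Polynomial.hasseDeriv (m u) (sep u g)).eval (X (u + 1)) := by
      rw [elim_list T0b u _ (tg u) (fun q hq => ne_of_gt (htg u hG q hq).1), T0c]
    have hrun : run (fun u => (u + 1, -(m u : ℤ) - 1) :: (tg u).map fun q => (q.1, (q.2 : ℤ)))
          u (k + 1) f = run (fun u => (u + 1, -(m u : ℤ) - 1) ::
            (tg u).map fun q => (q.1, (q.2 : ℤ))) (u + 1) k
          ((Polynomial.hasseDeriv (m u) (sep u g)).eval (X (u + 1))) := by
      rw [run, hel]
    rw [hrun, Finset.sum_eq_sum_Ico_succ_bot hG, Finset.prod_eq_prod_Ico_succ_bot hG,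
      Finset.prod_eq_prod_Ico_succ_bot hG]
    have hih := ih (u + 1) (by omega) ((Polynomial.hasseDeriv (m u) (sep u g)).eval (X (u + 1)))
      (eval_hasse_supported u (m u) g hg)
    set R : MP := ∏ w ∈ Ico (u + 1) G, ((tg w).map fun q => (∑ κ ∈ Ico w q.1, (X κ : MP)) ^ q.2).prod
      with hRdef
    have hR : R ∈ supported ℚ {v | u + 1 ≤ v} := by
      apply Subalgebra.prod_mem
      intro w hw
      rw [mem_Ico] at hw
      exact supported_mono' _ _ hw.1 (lin_list_supported w (tg w))
    have hd : (∑ w ∈ Ico (u + 1) G, Finsupp.single w (m w)) u = 0 := by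
      rw [Finsupp.finsetSum_apply]
      apply Finset.sum_eq_zero
      intro w hw
      rw [mem_Ico] at hw
      rw [Finsupp.single_apply, if_neg (by omega)]
    have h1 : psi G f * (((tg u).map fun q => (∑ κ ∈ Ico u q.1, (X κ : MP)) ^ q.2).prod * R) =
        C ((-1 : ℚ) ^ ((tg u).map Prod.snd).sum) * (psi G g * R) := by
      rw [prod_list G u (tg u) (htg u hG), hgdef, map_mul]
      ring
    rw [h1, coeff_C_mul, step G u (m u) hG _ hd g R hg hR, hih]
    rw [pow_add]
    ring

end T1

/-- T1: nested elimination with nonnegative multiplicities is a coefficient -/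
theorem genA (G : ℕ) (tg : ℕ → List (ℕ × ℕ)) (m : ℕ → ℕ)
    (htg : ∀ u < G, ∀ q ∈ tg u, u < q.1 ∧ q.1 ≤ G) :
    coeff (∑ u ∈ range G, Finsupp.single u (m u))
        (∏ u ∈ range G, ((tg u).map fun q => (∑ κ ∈ Ico u q.1, (X κ : MP)) ^ q.2).prod) =
      (∏ u ∈ range G, (-1 : ℚ) ^ (m u + ((tg u).map Prod.snd).sum)) *
        constantCoeff (run (fun u => (u + 1, -(m u : ℤ) - 1) :: (tg u).map fun q => (q.1, (q.2 : ℤ)))
          0 G 1) := by
  have h := T1.main elim_succ elim_pole G tg m htg G 0 (by omega) 1 (Subalgebra.one_mem _)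
  rw [map_one, one_mul] at h
  rw [Finset.range_eq_Ico]
  exact h

end Pool.Agent.H618R2.Skew
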