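import Pool.Agent.H273R2.Skew.T3
import Pool.Agent.H618R2.Skew.T1

/-!
Task T3 (helper273 for helper618): `lengths_eq`, `HS_staircase` are in the imported files, here the
final form of `div_eq`.
-/

namespace Pool.Agent.H618R2.Skew

open MvPolynomial Finset Pool.Agent.H549R2.Convex

/-- T3b: the normalised permanents as nested eliminations -/
theorem div_eq (A : List (List Bool)) (D M : ℕ) (hn : 0 < A.length)
    (hdeg : ∀ j < A.length, 1 ≤ degL A j) (hD1 : 1 ≤ D) (hD2 : D ≤ nK A + 1) (hM : 1 ≤ M) :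
    ((F (HS A D M) / DS A D M : ℕ) : ℚ) = constantCoeff (run (Lz A D M) 0 (nG A) 1) :=
  div_eq_of_genA (fun G tg m h => genA G tg m h) A D M hn hdeg hD1 hD2 hM

end Pool.Agent.H618R2.Skew
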