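import Pool.Agent.H618R2.Skew.Model

/-!
# T6: the dependence on `D`, and the coefficient of the graph polynomial
-/

namespace Pool.Agent.H618R2.Skew

open MvPolynomial Finset Pool.Agent.H549R2.Convex

/-- `f` is polynomial in `D` of degree at most `j`, with coefficient `c` in degree `j` -/
def PolyD (j : ℕ) (c : MP) (f : ℕ → MP) : Prop :=
  ∃ a : ℕ → MP, a j = c ∧ ∀ D : ℕ, f D = ∑ i ∈ range (j + 1), C ((D : ℚ) ^ i) * a i

theorem PolyD.add {j : ℕ} {c c' : MP} {f g : ℕ → MP} (hf : PolyD j c f) (hg : PolyD j c' g) :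
    PolyD j (c + c') (fun D => f D + g D) := by
  obtain ⟨a, ha, hf⟩ := hf
  obtain ⟨b, hb, hg⟩ := hg
  refine ⟨fun i => a i + b i, by simp only [ha, hb], fun D => ?_⟩
  beta_reduce
  rw [hf, hg, ← Finset.sum_add_distrib]
  exact Finset.sum_congr rfl fun i _ => by ring

theorem PolyD.mul_left {j : ℕ} {c : MP} {f : ℕ → MP} (x : MP) (hf : PolyD j c f) :
    PolyD j (x * c) (fun D => x * f D) := by
  obtain ⟨a, ha, hf⟩ := hf
  refine ⟨fun i => x * a i, by simp only [ha], fun D => ?_⟩
  beta_reduce
  rw [hf, Finset.mul_sum]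
  exact Finset.sum_congr rfl fun i _ => by ring

theorem PolyD.neg {j : ℕ} {c : MP} {f : ℕ → MP} (hf : PolyD j c f) :
    PolyD j (-c) (fun D => -f D) := by
  have := hf.mul_left (-1)
  simpa using this

theorem PolyD.mulD {j : ℕ} {c : MP} {f : ℕ → MP} (hf : PolyD j c f) :
    PolyD (j + 1) c (fun D => C (D : ℚ) * f D) := by
  obtain ⟨a, ha, hf⟩ := hf
  refine ⟨fun i => if i = 0 then 0 else a (i - 1), by simp [ha], fun D => ?_⟩
  beta_reduce
  rw [Finset.sum_range_succ', hf, Finset.mul_sum]
  simp only [Nat.succ_ne_zero, if_false, if_true, mul_zero, add_zero]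
  refine Finset.sum_congr rfl fun i _ => ?_
  rw [← mul_assoc, ← C_mul, pow_succ', Nat.add_sub_cancel]

theorem PolyD.raise {j : ℕ} {c : MP} {f : ℕ → MP} (hf : PolyD j c f) :
    PolyD (j + 1) 0 f := by
  obtain ⟨a, ha, hf⟩ := hf
  refine ⟨fun i => if i = j + 1 then 0 else a i, by simp, fun D => ?_⟩
  rw [Finset.sum_range_succ, hf]
  simp only [if_true, mul_zero, add_zero]
  refine Finset.sum_congr rfl fun i hi => ?_
  rw [mem_range] at hi
  rw [if_neg (by omega)]

theorem PolyD.pderiv {j : ℕ} {c : MP} {f : ℕ → MP} (v : ℕ) (hf : PolyD j c f) :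
    PolyD j (MvPolynomial.pderiv v c) (fun D => MvPolynomial.pderiv v (f D)) := by
  obtain ⟨a, ha, hf⟩ := hf
  refine ⟨fun i => MvPolynomial.pderiv v (a i), by simp only [ha], fun D => ?_⟩
  beta_reduce
  rw [hf, map_sum]
  refine Finset.sum_congr rfl fun i _ => ?_
  rw [pderiv_C_mul]

theorem PolyD.congr {j : ℕ} {c c' : MP} {f g : ℕ → MP} (hf : PolyD j c f) (hc : c = c')
    (h : ∀ D, f D = g D) : PolyD j c' g := by
  rw [← hc, ← funext h]
  exact hf

/-- the state just before the crossing -/
noncomputable def T6s1 (fst : Bool) (a : ℕ) (s : MP × MP) : MP × MP :=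
  if fst = true then (X a * s.1, -s.1) else s

theorem T6_cross {j : ℕ} {c1 c2 : MP} {f g : ℕ → MP} (v : ℕ) (hf : PolyD j c1 f)
    (hg : PolyD j c2 g) :
    PolyD (j + 1) c1 (fun D => C (D : ℚ) * f D + X v * MvPolynomial.pderiv v (f D + X v * g D)) ∧
      PolyD (j + 1) c2 (fun D => C (D : ℚ) * g D - MvPolynomial.pderiv v (f D + X v * g D)) := by
  have h1 := (hf.add (hg.mul_left (X v))).pderiv v
  have h2 := (h1.mul_left (X v)).raise
  have h3 := (h1.neg).raise
  refine ⟨(hf.mulD.add h2).congr (add_zero _) fun D => rfl,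
    (hg.mulD.add h3).congr (add_zero _) fun D => ?_⟩
  rw [sub_eq_add_neg]

/-- first crossings of an edge -/
theorem T6_blocks {j : ℕ} {c : MP} {f : ℕ → MP} (a b m : ℕ) (hb : b = a + 1 + m)
    (hf : PolyD j c f) : ∀ k, k ≤ m →
    PolyD (j + k) (X a * c) (fun D => (T6s1 (decide (k = 0)) a
      ((((List.range k).map fun s => (a + 1 + s, decide (s = 0), decide (a + 1 + s = b))).foldl
        (fun s b => stepB D b s) (f D, 0)))).1) ∧
    PolyD (j + k) (-c) (fun D => (T6s1 (decide (k = 0)) a
      ((((List.range k).map fun s => (a + 1 + s, decide (s = 0), decide (a + 1 + s = b))).foldl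
        (fun s b => stepB D b s) (f D, 0)))).2) := by
  intro k
  induction k with
  | zero =>
    intro _
    simp only [T6s1, List.range_zero, List.map_nil, List.foldl_nil, decide_true, if_true, add_zero]
    exact ⟨hf.mul_left _, hf.neg⟩
  | succ k ih =>
    intro hk
    obtain ⟨h1, h2⟩ := ih (by omega)
    have h3 := T6_cross (a + 1 + k) h1 h2
    have key : ∀ D, T6s1 (decide (k + 1 = 0)) a
        ((((List.range (k + 1)).map fun s => (a + 1 + s, decide (s = 0), decide (a + 1 + s = b))).foldl
        (fun s b => stepB D b s) (f D, 0))) =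
        stepB D (a + 1 + k, decide (k = 0), decide (a + 1 + k = b))
          ((((List.range k).map fun s => (a + 1 + s, decide (s = 0), decide (a + 1 + s = b))).foldl
        (fun s b => stepB D b s) (f D, 0))) := by
      intro D
      rw [List.range_succ, List.map_append, List.foldl_append]
      simp [T6s1]
    simp_rw [key]
    have hne : ¬ (a + 1 + k = b) := by omega
    have hstep : ∀ (D : ℕ) (s : MP × MP),
        stepB D (a + 1 + k, decide (k = 0), decide (a + 1 + k = b)) s =
          (C (D : ℚ) * (T6s1 (decide (k = 0)) a s).1 + X (a + 1 + k) *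
            MvPolynomial.pderiv (a + 1 + k) ((T6s1 (decide (k = 0)) a s).1 +
              X (a + 1 + k) * (T6s1 (decide (k = 0)) a s).2),
           C (D : ℚ) * (T6s1 (decide (k = 0)) a s).2 -
            MvPolynomial.pderiv (a + 1 + k) ((T6s1 (decide (k = 0)) a s).1 +
              X (a + 1 + k) * (T6s1 (decide (k = 0)) a s).2)) := by
      intro D s
      by_cases hk0 : k = 0
      · subst hk0
        simp [stepB, T6s1, hne]
      · simp [stepB, T6s1, hne, hk0]
    simp_rw [hstep]
    exact h3

/-- one edge -/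
theorem T6_edge {j : ℕ} {c : MP} {f : ℕ → MP} (e : ℕ × ℕ) (he : e.1 < e.2)
    (hf : PolyD j c f) : ∃ g : ℕ → MP, (∀ D, (edgeBlocks e).foldl (fun s b => stepB D b s) (f D, 0) =
      (g D, 0)) ∧
      PolyD (j + ((edgeBlocks e).filter fun b => !b.2.2).length) (c * (X e.1 - X e.2)) g := by
  obtain ⟨a, b⟩ := e
  simp only at he
  obtain ⟨m, hb⟩ : ∃ m, b = a + 1 + m := ⟨b - a - 1, by omega⟩
  have hm : b - a = m + 1 := by omega
  have hlen : ((edgeBlocks (a, b)).filter fun b => !b.2.2).length = m := by
    rw [edgeBlocks]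
    simp only [hm]
    rw [List.range_succ, List.map_append, List.filter_append, List.length_append]
    have h1 : (List.map (fun s => (a + 1 + s, decide (s = 0), decide (a + 1 + s = b)))
        (List.range m)).filter (fun b => !b.2.2) =
        List.map (fun s => (a + 1 + s, decide (s = 0), decide (a + 1 + s = b))) (List.range m) := by
      rw [List.filter_eq_self]
      intro x hx
      rw [List.mem_map] at hx
      obtain ⟨s, hs, rfl⟩ := hx
      rw [List.mem_range] at hs
      simp only [Bool.not_eq_true', decide_eq_false_iff_not]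
      omega
    rw [h1, List.length_map, List.length_range]
    simp [hb]
  rw [hlen]
  obtain ⟨h1, h2⟩ := T6_blocks a b m hb hf m le_rfl
  refine ⟨_, fun D => ?_, (h1.add (h2.mul_left (X b))).congr (by ring) fun D => rfl⟩
  rw [edgeBlocks]
  simp only [hm]
  rw [List.range_succ, List.map_append, List.foldl_append]
  simp only [List.map_cons, List.map_nil, List.foldl_cons, List.foldl_nil]
  by_cases hm0 : m = 0
  · subst hm0
    simp [stepB, T6s1, hb]
  · simp [stepB, T6s1, hb, hm0]

theorem T6_edges (E : List (ℕ × ℕ)) : ∀ (_ : ∀ e ∈ E, e.1 < e.2) (j : ℕ) (c : MP) (f : ℕ → MP)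
    (_ : PolyD j c f), ∃ g : ℕ → MP, (∀ D, (E.flatMap edgeBlocks).foldl (fun s b => stepB D b s)
      (f D, 0) = (g D, 0)) ∧
      PolyD (j + ((E.flatMap edgeBlocks).filter fun b => !b.2.2).length)
        (c * (E.map fun e => (X e.1 - X e.2 : MP)).prod) g := by
  induction E with
  | nil =>
    intro _ j c f hf
    exact ⟨f, fun D => rfl, by simpa using hf⟩
  | cons e E ih =>
    intro hE j c f hf
    obtain ⟨g, hg1, hg2⟩ := T6_edge e (hE e (List.mem_cons_self ..)) hf
    obtain ⟨g', hg1', hg2'⟩ := ih (fun e' he' => hE e' (List.mem_cons_of_mem _ he')) _ _ g hg2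
    refine ⟨g', fun D => ?_, ?_⟩
    · rw [List.flatMap_cons, List.foldl_append, hg1, hg1']
    · rw [List.flatMap_cons, List.filter_append, List.length_append, List.map_cons, List.prod_cons,
        ← add_assoc, ← mul_assoc]
      exact hg2'

theorem T6_lt (A : List (List Bool)) : ∀ e ∈ edgesE A, e.1 < e.2 := by
  intro e he
  rw [edgesE, List.mem_flatMap] at he
  obtain ⟨i, hi, he⟩ := he
  rw [List.mem_map] at he
  obtain ⟨j, _, rfl⟩ := he
  rw [List.mem_range] at hi
  simp only
  omega

/-- T6: the dependence on `D` -/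
theorem SD_lead (A : List (List Bool)) : ∃ P : Polynomial MP, P.natDegree ≤ nK A ∧
    P.coeff (nK A) = ((edgesE A).map fun e => (X e.1 - X e.2 : MP)).prod ∧
    ∀ D : ℕ, SD A D = P.eval (D : MP) := by
  have h0 : PolyD 0 1 (fun _ => 1) := ⟨fun _ => 1, rfl, fun D => by simp⟩
  obtain ⟨g, hg, a, ha, hga⟩ := T6_edges (edgesE A) (T6_lt A) 0 1 _ h0
  rw [zero_add] at ha hga
  rw [one_mul] at ha
  refine ⟨∑ i ∈ range (nK A + 1), Polynomial.C (a i) * Polynomial.X ^ i, ?_, ?_, ?_⟩
  · refine Polynomial.natDegree_sum_le_of_forall_le _ _ fun i hi => ?_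
    rw [mem_range] at hi
    exact (Polynomial.natDegree_C_mul_X_pow_le _ _).trans (by omega)
  · rw [Polynomial.finsetSum_coeff, ← ha]
    simp only [Polynomial.coeff_C_mul_X_pow]
    rw [Finset.sum_eq_single (nK A)]
    · rw [if_pos rfl]
      rfl
    · intro i _ hi
      rw [if_neg (Ne.symm hi)]
    · intro h
      exact absurd (mem_range.2 (by omega)) h
  · intro D
    rw [SD]
    have h1 : (blocks A).foldl (fun s b => stepB D b s) (1, 0) = (g D, 0) := hg D
    rw [h1]
    simp only
    rw [hga D, Polynomial.eval_finsetSum]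
    refine Finset.sum_congr rfl fun i _ => ?_
    rw [Polynomial.eval_mul, Polynomial.eval_C, Polynomial.eval_pow, Polynomial.eval_X, C_pow,
      map_natCast, mul_comm]

/-- T6': the coefficient of the graph polynomial -/
theorem coeff_graph (A : List (List Bool)) (hsq : ∀ r ∈ A, r.length = A.length)
    (hdeg : ∀ j < A.length, 1 ≤ degL A j) :
    coeff (∑ v ∈ range (2 * A.length), Finsupp.single v (dL A v))
      ((edgesE A).map fun e => (X e.1 - X e.2 : MP)).prod =
      (-1) ^ ((edgesE A).length + A.length) * (F A : ℚ) := by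
  have h := coeff_matchings (SA A) (fun j => by rw [← degL_eq]; exact hdeg _ j.2)
  have hd : (∑ v ∈ range (2 * A.length), Finsupp.single v (dL A v) : ℕ →₀ ℕ) =
      dvec (2 * A.length) (dS A.length (SA A)) := by
    rw [dvec, Finset.sum_range]
    exact Finset.sum_congr rfl fun v _ => by rw [dL_eq A v.val v.2]
  have hF : (F A : ℤ) = ((univ.filter (fun σ : Equiv.Perm (Fin A.length) =>
      ∀ j, (σ j, j) ∈ SA A)).card : ℤ) := by
    rw [F_eq_card A hsq]
    congr 2
    refine Finset.filter_congr fun σ _ => ?_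
    simp [SA]
  have hlen : (edgesE A).length = (SA A).card := by
    rw [edgesE, length_flatMap_range, SA, Finset.card_filter, Fintype.sum_prod_type,
      Finset.sum_range]
    refine Finset.sum_congr rfl fun i _ => ?_
    rw [List.length_map, length_filter_range, Finset.card_filter]
  have hprod : ((edgesE A).map fun e => (X e.1 - X e.2 : MP)).prod =
      (-1) ^ (SA A).card * MvPolynomial.map (Int.castRingHom ℚ)
        (∏ e ∈ SA A, (X (A.length + e.2.val) - X e.1.val : MvPolynomial ℕ ℤ)) := by
    rw [map_prod, ← Finset.prod_const, ← Finset.prod_mul_distrib]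
    rw [edgesE, prod_flatMap_range, SA, Finset.prod_filter, Fintype.prod_prod_type,
      Finset.prod_range]
    refine Finset.prod_congr rfl fun i _ => ?_
    rw [List.map_map, prod_filter_range, Finset.prod_range]
    refine Finset.prod_congr rfl fun j _ => ?_
    simp only [Function.comp]
    refine if_congr Iff.rfl ?_ rfl
    simp
  rw [hd, hprod, hlen, pow_add, mul_assoc]
  have e1 : ((-1 : MP)) ^ (SA A).card = C ((-1 : ℚ) ^ (SA A).card) := by simp
  rw [e1, coeff_C_mul, coeff_map, h, hF.symm]
  simp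

end Pool.Agent.H618R2.Skew
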