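import Pool.Agent.H618R2.Skew.T5
import Pool.Agent.H618R2.Skew.T2
import Pool.Agent.H618R2.Skew.T3
import Pool.Agent.H618R2.Skew.T6

/-!
# The reduction identity
-/

namespace Pool.Agent.H618R2.Skew

open MvPolynomial Finset Pool.Agent.H549R2.Convex

theorem colM_le (A : List (List Bool)) (D u : ℕ) (hD : 1 ≤ D) : colM A D u ≤ D + 1 := by
  rw [colM, bm]
  split_ifs <;> omega

theorem tot_exL_le (A : List (List Bool)) (D u : ℕ) :
    tot ((exL A D u).map fun q => (q.1, (q.2 : ℤ))) ≤ D := by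
  rw [exL]
  split_ifs
  · simp [tot]
  · simp [tot]

/-- the nested elimination is a polynomial in `M` -/
theorem poly_M (A : List (List Bool)) (D : ℕ) (hD1 : 1 ≤ D) (hD2 : D ≤ nK A + 1) :
    ∃ P : Polynomial ℚ, P.natDegree ≤ nD A ∧ ∀ M : ℤ,
      constantCoeff (run (Lz A D M) 0 (nG A) 1) = P.eval (M : ℚ) := by
  obtain ⟨P, hP1, hP2⟩ := genC (nG A) (nC A) (mainT A)
    (fun u => (colP A D u : ℤ) - colM A D u) (fun u => -(mainA A D u : ℤ))
    (fun u => (exL A D u).map fun q => (q.1, (q.2 : ℤ))) (nG A * (2 * nK A + 4)) (by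
      intro u hu
      have h : ∀ w ∈ range u, -(mainA A D w : ℤ) - ((colP A D w : ℤ) - colM A D w) +
          tot ((exL A D w).map fun q => (q.1, (q.2 : ℤ))) ≤ (2 * nK A + 4 : ℤ) := by
        intro w _
        have h1 := colM_le A D w hD1
        have h2 := tot_exL_le A D w
        omega
      refine (Finset.sum_le_sum h).trans ?_
      rw [Finset.sum_const, card_range, nsmul_eq_mul]
      push_cast
      have : (u : ℤ) ≤ nG A := by exact_mod_cast hu
      nlinarith)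
  refine ⟨P, hP1, fun M => ?_⟩
  rw [← hP2 M]
  congr 2
  funext u
  rw [Lz]
  congr 2
  · congr 1
    ring

/-- the finite difference in `M` -/
theorem sum_M (A : List (List Bool)) (D : ℕ) (hn : 0 < A.length)
    (hdeg : ∀ j < A.length, 1 ≤ degL A j) (hD1 : 1 ≤ D) (hD2 : D ≤ nK A + 1) :
    ∑ m ∈ range (nD A + 1), (-1 : ℚ) ^ m * ((nD A + 1).choose (m + 1) : ℚ) *
        ((F (HS A D (m + 1)) / DS A D (m + 1) : ℕ) : ℚ) =
      coeff (∑ v ∈ range (2 * A.length), Finsupp.single v (dL A v)) (SD A D) := by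
  obtain ⟨P, hP1, hP2⟩ := poly_M A D hD1 hD2
  rw [← value_zero A D hn hD1]
  have h0 := hP2 0
  rw [h0, Int.cast_zero, ← fd_zero P (nD A) hP1]
  refine Finset.sum_congr rfl fun m _ => ?_
  rw [div_eq A D (m + 1) hn hdeg hD1 hD2 (by omega)]
  have h1 := hP2 ((m + 1 : ℕ) : ℤ)
  rw [h1]
  push_cast
  ring

/-- the polynomial in `D` -/
theorem poly_D (A : List (List Bool)) : ∃ Q : Polynomial ℚ, Q.natDegree ≤ nK A ∧
    Q.coeff (nK A) = coeff (∑ v ∈ range (2 * A.length), Finsupp.single v (dL A v))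
      ((edgesE A).map fun e => (X e.1 - X e.2 : MP)).prod ∧
    ∀ D : ℕ, coeff (∑ v ∈ range (2 * A.length), Finsupp.single v (dL A v)) (SD A D) =
      Q.eval (D : ℚ) := by
  obtain ⟨P, hP1, hP2, hP3⟩ := SD_lead A
  set E := ∑ v ∈ range (2 * A.length), Finsupp.single v (dL A v) with hE
  refine ⟨∑ i ∈ range (nK A + 1), Polynomial.C (coeff E (P.coeff i)) * Polynomial.X ^ i, ?_, ?_, ?_⟩
  · refine Polynomial.natDegree_sum_le_of_forall_le _ _ fun i hi => ?_
    rw [mem_range] at hi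
    exact (Polynomial.natDegree_C_mul_X_pow_le _ _).trans (by omega)
  · rw [Polynomial.finsetSum_coeff, ← hP2]
    simp only [Polynomial.coeff_C_mul_X_pow]
    rw [Finset.sum_ite_eq, if_pos (by simp)]
  · intro D
    rw [hP3 D, Polynomial.eval_eq_sum_range' (Nat.lt_succ_of_le hP1), coeff_sum,
      Polynomial.eval_finsetSum]
    refine Finset.sum_congr rfl fun i _ => ?_
    rw [Polynomial.eval_C_mul, Polynomial.eval_pow, Polynomial.eval_X]
    have : ((D : MP)) ^ i = C ((D : ℚ) ^ i) := by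
      rw [C_pow, map_natCast]
    rw [this, mul_comm, coeff_C_mul, mul_comm]

/-- the reduction identity -/
theorem reduction (A : List (List Bool)) (hn : 0 < A.length) (hsq : ∀ r ∈ A, r.length = A.length)
    (hdeg : ∀ j < A.length, 1 ≤ degL A j) :
    ∑ j ∈ range (nK A + 1), ∑ m ∈ range (nD A + 1), (-1 : ℤ) ^ (nK A + j + m) *
        ((nK A).choose j : ℤ) * ((nD A + 1).choose (m + 1) : ℤ) *
        ((F (HS A (j + 1) (m + 1)) / DS A (j + 1) (m + 1) : ℕ) : ℤ) =
      ((nK A).factorial : ℤ) * ((-1) ^ ((edgesE A).length + A.length) * (F A : ℤ)) := by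
  obtain ⟨Q, hQ1, hQ2, hQ3⟩ := poly_D A
  have h := fd_lead Q (nK A) hQ1
  rw [hQ2, coeff_graph A hsq hdeg] at h
  have h2 : (∑ j ∈ range (nK A + 1), ∑ m ∈ range (nD A + 1), (-1 : ℚ) ^ (nK A + j + m) *
        ((nK A).choose j : ℚ) * ((nD A + 1).choose (m + 1) : ℚ) *
        ((F (HS A (j + 1) (m + 1)) / DS A (j + 1) (m + 1) : ℕ) : ℚ)) =
      ((nK A).factorial : ℚ) * ((-1) ^ ((edgesE A).length + A.length) * (F A : ℚ)) := by
    rw [← h]
    refine Finset.sum_congr rfl fun j hj => ?_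
    rw [mem_range] at hj
    have h3 := hQ3 (j + 1)
    rw [← sum_M A (j + 1) hn hdeg (by omega) (by omega)] at h3
    push_cast at h3
    rw [← h3, Finset.mul_sum]
    refine Finset.sum_congr rfl fun m _ => ?_
    rw [pow_add]
    push_cast
    ring
  have key : ∀ (c : ℕ → ℕ → ℕ) (K N e f : ℕ), (∑ j ∈ range (K + 1), ∑ m ∈ range (N + 1),
      (-1 : ℚ) ^ (K + j + m) * (K.choose j : ℚ) * ((N + 1).choose (m + 1) : ℚ) * (c j m : ℚ)) =
      (K.factorial : ℚ) * ((-1) ^ e * (f : ℚ)) →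
      (∑ j ∈ range (K + 1), ∑ m ∈ range (N + 1),
      (-1 : ℤ) ^ (K + j + m) * (K.choose j : ℤ) * ((N + 1).choose (m + 1) : ℤ) * (c j m : ℤ)) =
      (K.factorial : ℤ) * ((-1) ^ e * (f : ℤ)) := by
    intro c K N e f h
    exact_mod_cast h
  exact key (fun j m => F (HS A (j + 1) (m + 1)) / DS A (j + 1) (m + 1)) _ _ _ _ h2

end Pool.Agent.H618R2.Skew
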