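import Pool.Agent.H618R2.Skew.Model

/-!
# Statements of the independent tasks (each is proved in its own file)
-/

namespace Pool.Agent.H618R2.Skew.Stubs

open MvPolynomial Finset Pool.Agent.H618R2.Skew Pool.Agent.H549R2.Convex

/-- T0a -/
theorem zch_succ (N : ℤ) (k : ℕ) : zch (N + 1) (k + 1) = zch N (k + 1) + zch N k := sorry

/-- T0b: raising an exponent by one multiplies by the difference -/
theorem elim_succ (u v : ℕ) (hv : v ≠ u) (N : ℤ) (L : List (ℕ × ℤ)) (f : MP) :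
    elim u ((v, N + 1) :: L) f = elim u ((v, N) :: L) (f * (X u - X v)) := sorry

/-- T0c: a single pole gives the Hasse derivative -/
theorem elim_pole (u v s : ℕ) (f : MP) :
    elim u [(v, -(s : ℤ) - 1)] f = ((Polynomial.hasseDeriv s (sep u f)).eval (X v)) := sorry

/-- T1: nested elimination with nonnegative multiplicities is a coefficient -/
theorem genA (G : ℕ) (tg : ℕ → List (ℕ × ℕ)) (m : ℕ → ℕ)
    (htg : ∀ u < G, ∀ q ∈ tg u, u < q.1 ∧ q.1 ≤ G) :
    coeff (∑ u ∈ range G, Finsupp.single u (m u))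
        (∏ u ∈ range G, ((tg u).map fun q => (∑ κ ∈ Ico u q.1, (X κ : MP)) ^ q.2).prod) =
      (∏ u ∈ range G, (-1 : ℚ) ^ (m u + ((tg u).map Prod.snd).sum)) *
        constantCoeff (run (fun u => (u + 1, -(m u : ℤ) - 1) :: (tg u).map fun q => (q.1, (q.2 : ℤ)))
          0 G 1) := sorry

/-- T2: the nested elimination is a polynomial in the parameter `M` -/
theorem genC (G : ℕ) (c : ℤ) (mn : ℕ → ℕ) (β α : ℕ → ℤ) (ex : ℕ → List (ℕ × ℤ)) (gm : ℕ)
    (hg : ∀ u ≤ G, ∑ w ∈ range u, (α w - β w + tot (ex w)) ≤ gm) :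
    ∃ P : Polynomial ℚ, P.natDegree ≤ G * gm ∧ ∀ M : ℤ,
      constantCoeff (run (fun u => (u + 1, -(c * M + β u) - 1) :: (mn u, c * M + α u) :: ex u) 0 G 1) =
        P.eval (M : ℚ) := sorry

/-- T2' -/
theorem fd_zero (P : Polynomial ℚ) (B : ℕ) (h : P.natDegree ≤ B) :
    ∑ m ∈ range (B + 1), (-1 : ℚ) ^ m * ((B + 1).choose (m + 1) : ℚ) * P.eval ((m : ℚ) + 1) =
      P.eval 0 := sorry

/-- T2'' -/
theorem fd_lead (P : Polynomial ℚ) (K : ℕ) (h : P.natDegree ≤ K) :
    ∑ j ∈ range (K + 1), (-1 : ℚ) ^ (K + j) * (K.choose j : ℚ) * P.eval ((j : ℚ) + 1) =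
      (K.factorial : ℚ) * P.coeff K := sorry

/-- T3a: the matrices are square -/
theorem lengths_eq (A : List (List Bool)) (D M : ℕ) (hn : 0 < A.length)
    (hdeg : ∀ j < A.length, 1 ≤ degL A j) (hD1 : 1 ≤ D) (hD2 : D ≤ nK A + 1) (hM : 1 ≤ M) :
    (rowsS A D M).length = (colsS A D M).length := sorry

/-- T3b: the normalised permanents as nested eliminations -/
theorem div_eq (A : List (List Bool)) (D M : ℕ) (hn : 0 < A.length)
    (hdeg : ∀ j < A.length, 1 ≤ degL A j) (hD1 : 1 ≤ D) (hD2 : D ≤ nK A + 1) (hM : 1 ≤ M) :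
    ((F (HS A D M) / DS A D M : ℕ) : ℚ) = constantCoeff (run (Lz A D M) 0 (nG A) 1) := sorry

/-- T3c -/
theorem HS_staircase (A : List (List Bool)) (D M : ℕ) : Staircase (HS A D M) := sorry

/-- T5: the value at `M = 0` -/
theorem value_zero (A : List (List Bool)) (D : ℕ) (hn : 0 < A.length) (hD1 : 1 ≤ D) :
    constantCoeff (run (Lz A D 0) 0 (nG A) 1) =
      coeff (∑ v ∈ range (2 * A.length), Finsupp.single v (dL A v)) (SD A D) := sorry

/-- T6: the dependence on `D` -/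
theorem SD_lead (A : List (List Bool)) : ∃ P : Polynomial MP, P.natDegree ≤ nK A ∧
    P.coeff (nK A) = ((edgesE A).map fun e => (X e.1 - X e.2 : MP)).prod ∧
    ∀ D : ℕ, SD A D = P.eval (D : MP) := sorry

/-- T6': the coefficient of the graph polynomial -/
theorem coeff_graph (A : List (List Bool)) (hsq : ∀ r ∈ A, r.length = A.length)
    (hdeg : ∀ j < A.length, 1 ≤ degL A j) :
    coeff (∑ v ∈ range (2 * A.length), Finsupp.single v (dL A v))
      ((edgesE A).map fun e => (X e.1 - X e.2 : MP)).prod =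
      (-1) ^ ((edgesE A).length + A.length) * (F A : ℚ) := sorry

/-- T7: the reduction identity -/
theorem reduction (A : List (List Bool)) (hn : 0 < A.length) (hsq : ∀ r ∈ A, r.length = A.length)
    (hdeg : ∀ j < A.length, 1 ≤ degL A j) :
    ∑ j ∈ range (nK A + 1), ∑ m ∈ range (nD A + 1), (-1 : ℤ) ^ (nK A + j + m) *
        ((nK A).choose j : ℤ) * ((nD A + 1).choose (m + 1) : ℤ) *
        ((F (HS A (j + 1) (m + 1)) / DS A (j + 1) (m + 1) : ℕ) : ℤ) =
      ((nK A).factorial : ℤ) * ((-1) ^ ((edgesE A).length + A.length) * (F A : ℤ)) := sorry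

end Pool.Agent.H618R2.Skew.Stubs
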