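import Pool.Agent.H618R2.Skew.Defs

/-!
# Basic properties of the elimination operator
-/

namespace Pool.Agent.H618R2.Skew

open MvPolynomial Finset

theorem zch_zero (N : ℤ) : zch N 0 = 1 := by simp [zch]

theorem zch_succ (N : ℤ) (k : ℕ) : zch (N + 1) (k + 1) = zch N (k + 1) + zch N k := by
  have h1 : (∏ i ∈ range (k + 1), (((N + 1 : ℤ) : ℚ) - i)) =
      (∏ i ∈ range k, ((N : ℚ) - i)) * ((N : ℚ) + 1) := by
    rw [Finset.prod_range_succ']
    congr 1
    · refine Finset.prod_congr rfl fun i _ => ?_
      push_cast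
      ring
    · push_cast
      ring
  have h2 : (∏ i ∈ range (k + 1), ((N : ℚ) - i)) = (∏ i ∈ range k, ((N : ℚ) - i)) * ((N : ℚ) - k) :=
    Finset.prod_range_succ _ _
  have h3 : ((k + 1).factorial : ℚ) = (k + 1) * k.factorial := by
    rw [Nat.factorial_succ]; push_cast; ring
  have h4 : (k.factorial : ℚ) ≠ 0 := by exact_mod_cast k.factorial_ne_zero
  have h5 : ((k : ℚ) + 1) ≠ 0 := by positivity
  rw [zch, zch, zch, h1, h2, h3]
  field_simp
  ring

theorem zch_small (j : ℕ) : zch (j : ℤ) (j + 1) = 0 := by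
  rw [zch, Finset.prod_eq_zero (i := j)]
  · simp
  · simp
  · simp

theorem coeff_ser (N : ℤ) (y : MP) (k : ℕ) :
    PowerSeries.coeff k (ser N y) = C (zch N k) * (-y) ^ k := by
  rw [ser, PowerSeries.coeff_mk]

theorem ser_succ (N : ℤ) (y : MP) :
    ser (N + 1) y = ser N y * (1 - PowerSeries.C y * PowerSeries.X) := by
  ext k : 1
  rw [mul_sub, mul_one, map_sub, coeff_ser, coeff_ser]
  have h : ser N y * (PowerSeries.C y * PowerSeries.X) = PowerSeries.C y * ser N y * PowerSeries.X := by
    ring
  rw [h]
  cases k with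
  | zero => simp [zch_zero]
  | succ k =>
    rw [PowerSeries.coeff_succ_mul_X, PowerSeries.coeff_C_mul, coeff_ser, zch_succ, C_add]
    ring

theorem cz_mul (S : PowerSeries MP) (y : MP) (j : ℤ) :
    cz (S * (1 - PowerSeries.C y * PowerSeries.X)) j = cz S j - y * cz S (j - 1) := by
  have h : S * (1 - PowerSeries.C y * PowerSeries.X) = S - PowerSeries.C y * S * PowerSeries.X := by
    ring
  rw [h]
  unfold cz
  by_cases h0 : 0 ≤ j
  · rw [if_pos h0, if_pos h0, map_sub]
    obtain ⟨n, rfl⟩ := Int.eq_ofNat_of_zero_le h0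
    cases n with
    | zero => simp
    | succ n =>
      rw [if_pos (by push_cast; omega)]
      have e1 : ((n + 1 : ℕ) : ℤ).toNat = n + 1 := by simp
      have e2 : (((n + 1 : ℕ) : ℤ) - 1).toNat = n := by simp
      rw [e1, e2, PowerSeries.coeff_succ_mul_X, PowerSeries.coeff_C_mul]
  · rw [if_neg h0, if_neg h0, if_neg (by omega)]
    simp

theorem phi_add (S : PowerSeries MP) (e : ℤ) (p q : Polynomial MP) :
    phi S e (p + q) = phi S e p + phi S e q := by
  unfold phi
  exact Polynomial.sum_add_index p q _ (fun i => by simp) (fun i a b => by ring)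

theorem phi_zero (S : PowerSeries MP) (e : ℤ) : phi S e 0 = 0 := by
  simp [phi]

theorem phi_sum {ι : Type*} (S : PowerSeries MP) (e : ℤ) (s : Finset ι) (f : ι → Polynomial MP) :
    phi S e (∑ i ∈ s, f i) = ∑ i ∈ s, phi S e (f i) := by
  classical
  induction s using Finset.induction_on with
  | empty => simp [phi_zero]
  | insert a s ha ih => rw [Finset.sum_insert ha, Finset.sum_insert ha, phi_add, ih]

theorem phi_monomial (S : PowerSeries MP) (e : ℤ) (i : ℕ) (a : MP) :
    phi S e (Polynomial.monomial i a) = a * cz S (i + e + 1) := by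
  unfold phi
  exact Polynomial.sum_monomial_index _ _ (by simp)

theorem phi_C_mul (S : PowerSeries MP) (e : ℤ) (a : MP) (p : Polynomial MP) :
    phi S e (Polynomial.C a * p) = a * phi S e p := by
  induction p using Polynomial.induction_on' with
  | add p q hp hq => rw [mul_add, phi_add, phi_add, hp, hq]; ring
  | monomial i b => rw [Polynomial.C_mul_monomial, phi_monomial, phi_monomial]; ring

theorem phi_mul (S : PowerSeries MP) (e : ℤ) (y : MP) (p : Polynomial MP) :
    phi (S * (1 - PowerSeries.C y * PowerSeries.X)) (e + 1) p =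
      phi S e (p * (Polynomial.X - Polynomial.C y)) := by
  induction p using Polynomial.induction_on' with
  | add p q hp hq => rw [add_mul, phi_add, phi_add, hp, hq]
  | monomial i a =>
    have h : (Polynomial.monomial i a) * (Polynomial.X - Polynomial.C y) =
        Polynomial.monomial (i + 1) a + Polynomial.monomial i (-(a * y)) := by
      rw [mul_sub, Polynomial.monomial_mul_X, Polynomial.monomial_mul_C, map_neg]
      ring
    rw [h, phi_add, phi_monomial, phi_monomial, phi_monomial, cz_mul]
    have e1 : (i : ℤ) + (e + 1) + 1 - 1 = i + e + 1 := by ring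
    have e2 : ((i + 1 : ℕ) : ℤ) + e + 1 = i + (e + 1) + 1 := by push_cast; ring
    rw [e1, e2]
    ring

theorem sep_X_self (u : ℕ) : sep u (X u) = Polynomial.X := by
  rw [sep, aeval_X, if_pos rfl]

theorem sep_X_ne (u v : ℕ) (h : v ≠ u) : sep u (X v) = Polynomial.C (X v) := by
  rw [sep, aeval_X, if_neg h]

/-- raising an exponent by one multiplies by the difference -/
theorem elim_succ (u v : ℕ) (hv : v ≠ u) (N : ℤ) (L : List (ℕ × ℤ)) (f : MP) :
    elim u ((v, N + 1) :: L) f = elim u ((v, N) :: L) (f * (X u - X v)) := by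
  unfold elim
  have h1 : serL ((v, N + 1) :: L) =
      serL ((v, N) :: L) * (1 - PowerSeries.C (X v) * PowerSeries.X) := by
    unfold serL
    rw [List.map_cons, List.prod_cons, List.map_cons, List.prod_cons, ser_succ]
    ring
  have h2 : tot ((v, N + 1) :: L) = tot ((v, N) :: L) + 1 := by
    unfold tot
    rw [List.map_cons, List.sum_cons, List.map_cons, List.sum_cons]
    ring
  rw [h1, h2, phi_mul, map_mul, map_sub, sep_X_self, sep_X_ne u v hv]

/-- raising an exponent by `k` -/
theorem elim_add (u v : ℕ) (hv : v ≠ u) (N : ℤ) (k : ℕ) (L : List (ℕ × ℤ)) (f : MP) :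
    elim u ((v, N + k) :: L) f = elim u ((v, N) :: L) (f * (X u - X v) ^ k) := by
  induction k generalizing f with
  | zero => simp
  | succ k ih =>
    have : N + ((k + 1 : ℕ) : ℤ) = (N + k) + 1 := by push_cast; ring
    rw [this, elim_succ u v hv, ih, pow_succ]
    ring_nf

theorem elim_perm (u : ℕ) {L L' : List (ℕ × ℤ)} (h : L.Perm L') (f : MP) :
    elim u L f = elim u L' f := by
  unfold elim serL tot
  rw [(h.map _).prod_eq, (h.map _).sum_eq]

theorem ser_zero (y : MP) : ser 0 y = 1 := by
  ext k : 1
  rw [coeff_ser, PowerSeries.coeff_one]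
  cases k with
  | zero => simp [zch_zero]
  | succ k =>
    have : zch 0 (k + 1) = 0 := by
      rw [zch, Finset.prod_eq_zero (i := 0)]
      · simp
      · simp
      · simp
    rw [this, if_neg (Nat.succ_ne_zero k)]
    simp

theorem elim_zero_cons (u v : ℕ) (L : List (ℕ × ℤ)) (f : MP) :
    elim u ((v, 0) :: L) f = elim u L f := by
  unfold elim serL tot
  rw [List.map_cons, List.prod_cons, List.map_cons, List.sum_cons, ser_zero]
  simp

theorem elim_add_fun (u : ℕ) (L : List (ℕ × ℤ)) (f g : MP) :
    elim u L (f + g) = elim u L f + elim u L g := by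
  unfold elim
  rw [map_add, phi_add]

theorem elim_mul_free (u : ℕ) (L : List (ℕ × ℤ)) (f g : MP) (hg : sep u g = Polynomial.C g) :
    elim u L (g * f) = g * elim u L f := by
  unfold elim
  rw [map_mul, hg, phi_C_mul]

theorem phi_pow (N e : ℤ) (y : MP) (k : ℕ) (p : Polynomial MP) :
    phi (ser (N + k) y) (e + k) p = phi (ser N y) e (p * (Polynomial.X - Polynomial.C y) ^ k) := by
  induction k generalizing p with
  | zero => simp
  | succ k ih =>
    have h1 : N + ((k + 1 : ℕ) : ℤ) = (N + k) + 1 := by push_cast; ring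
    have h2 : e + ((k + 1 : ℕ) : ℤ) = (e + k) + 1 := by push_cast; ring
    rw [h1, h2, ser_succ, phi_mul, ih, pow_succ]
    ring_nf

theorem phi_pole (y : MP) (s : ℕ) (p : Polynomial MP) :
    phi (ser (-(s : ℤ) - 1) y) (-(s : ℤ) - 1) p = (Polynomial.hasseDeriv s p).eval y := by
  have hp : p = ∑ k ∈ p.support ∪ range (p.natDegree + 1), Polynomial.C ((Polynomial.taylor y p).coeff k) *
      (Polynomial.X - Polynomial.C y) ^ k := by
    have h1 := Polynomial.sum_taylor_eq p y
    conv_lhs => rw [← h1]
    rw [Polynomial.sum_def]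
    refine Finset.sum_subset ?_ ?_
    · intro k hk
      rw [mem_union, mem_range]
      right
      have := Polynomial.le_natDegree_of_mem_supp k hk
      rw [Polynomial.natDegree_taylor] at this
      omega
    · intro k _ hk
      rw [Polynomial.notMem_support_iff] at hk
      rw [hk]
      simp
  set T := p.support ∪ range (p.natDegree + 1) with hT
  have key : ∀ k : ℕ, phi (ser (-(s : ℤ) - 1) y) (-(s : ℤ) - 1)
      (Polynomial.C ((Polynomial.taylor y p).coeff k) * (Polynomial.X - Polynomial.C y) ^ k) =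
      if k = s then (Polynomial.taylor y p).coeff k else 0 := by
    intro k
    rw [← phi_pow, ← Polynomial.monomial_zero_left, phi_monomial]
    unfold cz
    split_ifs with h1 h2 h2
    · subst h2
      have : ((0 : ℕ) : ℤ) + (-(k : ℤ) - 1 + k) + 1 = 0 := by push_cast; ring
      rw [this]
      simp [coeff_ser, zch_zero]
    · have hk : s < k := by
        push_cast at h1
        omega
      obtain ⟨j, rfl⟩ : ∃ j, k = s + (j + 1) := ⟨k - s - 1, by omega⟩
      have e1 : ((0 : ℕ) : ℤ) + (-(s : ℤ) - 1 + ((s + (j + 1) : ℕ) : ℤ)) + 1 = ((j + 1 : ℕ) : ℤ) := by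
        push_cast; ring
      have e2 : -(s : ℤ) - 1 + ((s + (j + 1) : ℕ) : ℤ) = (j : ℤ) := by push_cast; ring
      rw [e1, e2, Int.toNat_natCast, coeff_ser, zch_small]
      simp
    · exfalso
      apply h1
      subst h2
      push_cast
      omega
    · simp
  conv_lhs => rw [hp]
  rw [phi_sum, Finset.sum_congr rfl (fun k _ => key k), Finset.sum_ite_eq']
  split_ifs with h
  · rw [Polynomial.taylor_coeff]
  · rw [hT, mem_union, mem_range, not_or] at h
    rw [Polynomial.hasseDeriv_eq_zero_of_lt_natDegree p s (by omega)]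
    simp

/-- a single pole gives the Hasse derivative -/
theorem elim_pole (u v s : ℕ) (f : MP) :
    elim u [(v, -(s : ℤ) - 1)] f = ((Polynomial.hasseDeriv s (sep u f)).eval (X v)) := by
  rw [← phi_pole]
  unfold elim serL tot
  simp

end Pool.Agent.H618R2.Skew
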