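import Pool.Agent.H618R2.Skew.Model
import Pool.Agent.H549R2.PM10

/-!
# The reduction runs in polynomial time
-/

namespace Pool.Agent.NPC.H618Skew

open Pool.Agent.H549R2.Convex Pool.Agent.H618R2.Skew Pool.Agent.NPC.Cnt
open Pool.Agent.NPC.H549Convex (LL poly_prod upoly_fact upoly_choose ent_poly dL_poly degL_poly
  mat_poly sqB sqB_poly degB degB_poly sum_filter_range_list F_size fp_of_poly)
open Pool.Agent.NPC.H549PM (upoly_min upoly_pow2 alt alt_poly alt_eq alt_congr tF tF_upoly MF_poly
  qF_upoly kF_upoly)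
open Pool.Agent.H549R2.PM (MF qF kF sat_eq MF_square)

section Model

variable {α : Type} [TEnc α]

theorem edgesE_poly : Poly edgesE := by
  have h2 : Poly (fun p : LL × ℕ => (List.range p.1.length).filter (fun j => ent p.1 p.2 j)) :=
    Poly.filter (p := fun (p : LL × ℕ) j => ent p.1 p.2 j) (Poly.range_length (Poly.fst Poly.id))
      (ent_poly.comp (Poly.pair (Poly.fst (Poly.fst Poly.id)) (Poly.pair
        (Poly.snd (Poly.fst Poly.id)) (Poly.snd Poly.id))))
  have h3 : Poly (fun p : LL × ℕ => ((List.range p.1.length).filter (fun j => ent p.1 p.2 j)).map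
      (fun j => (p.2, p.1.length + j))) :=
    Poly.map (F := fun (p : LL × ℕ) j => (p.2, p.1.length + j)) h2
      (Poly.pair (Poly.snd (Poly.fst Poly.id))
        (Poly.add (Poly.length (Poly.fst (Poly.fst Poly.id))) (Poly.snd Poly.id)))
  exact Poly.flatMap (F := fun (A : LL) i => ((List.range A.length).filter
    (fun j => ent A i j)).map (fun j => (i, A.length + j))) (Poly.range_length Poly.id) h3

/-- the blocks of an edge, with a bound -/
def eB (A : LL) (e : ℕ × ℕ) : List Blk :=
  (List.range (min (e.2 - e.1) (2 * A.length))).map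
    fun s => (e.1 + 1 + s, decide (s = 0), decide (e.1 + 1 + s = e.2))

theorem eB_poly : Poly (fun p : LL × (ℕ × ℕ) => eB p.1 p.2) := by
  have hd : Poly (fun p : LL × (ℕ × ℕ) => p.2.2 - p.2.1) :=
    Poly.sub (Poly.snd (Poly.snd Poly.id)) (Poly.fst (Poly.snd Poly.id))
  have hn : UPoly (fun p : LL × (ℕ × ℕ) => 2 * p.1.length) :=
    UPoly.mul (UPoly.const 2) (UPoly.length (Poly.fst Poly.id))
  refine Poly.map (F := fun (p : LL × (ℕ × ℕ)) s =>
    ((p.2.1 + 1 + s, decide (s = 0), decide (p.2.1 + 1 + s = p.2.2)) : Blk))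
    (upoly_min hd hn).range ?_
  have h1 : Poly (fun q : (LL × (ℕ × ℕ)) × ℕ => q.1.2.1 + 1 + q.2) :=
    Poly.add (Poly.succ (Poly.fst (Poly.snd (Poly.fst Poly.id)))) (Poly.snd Poly.id)
  exact Poly.pair h1 (Poly.pair (Poly.decide_eq (Poly.snd Poly.id) (Poly.const 0))
    (Poly.decide_eq h1 (Poly.snd (Poly.snd (Poly.fst Poly.id)))))

theorem blocks_poly : Poly blocks := by
  have h : Poly (fun A : LL => (edgesE A).flatMap (eB A)) :=
    Poly.flatMap (F := fun (A : LL) e => eB A e) edgesE_poly eB_poly
  refine h.congr fun A => ?_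
  unfold blocks
  refine List.flatMap_congr fun e he => ?_
  have : e.2 - e.1 ≤ 2 * A.length := by
    simp only [edgesE, List.mem_flatMap, List.mem_range, List.mem_map, List.mem_filter] at he
    obtain ⟨i, hi, j, ⟨hj, _⟩, rfl⟩ := he
    simp only
    omega
  rw [eB, edgeBlocks, Nat.min_eq_left this]

theorem wd_u {A : α → LL} (hA : Poly A) : UPoly (fun a => wd (A a)) :=
  UPoly.add (UPoly.mul (UPoly.const 2) (UPoly.length hA)) (UPoly.const 1)

theorem nB_u {A : α → LL} (hA : Poly A) : UPoly (fun a => nB (A a)) :=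
  UPoly.length (blocks_poly.comp hA)

theorem nG_u {A : α → LL} (hA : Poly A) : UPoly (fun a => nG (A a)) :=
  UPoly.mul (UPoly.add (nB_u hA) (UPoly.const 1)) (wd_u hA)

theorem nK_u {A : α → LL} (hA : Poly A) : UPoly (fun a => nK (A a)) := by
  have h : Poly (fun A : LL => (blocks A).filter fun b => !b.2.2) :=
    Poly.filter (p := fun (_ : LL) (b : Blk) => !b.2.2) blocks_poly
      (Poly.not (Poly.snd (Poly.snd (Poly.snd Poly.id))))
  exact UPoly.length (h.comp hA)

theorem nC_u {A : α → LL} (hA : Poly A) : UPoly (fun a => nC (A a)) :=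
  UPoly.add (UPoly.add (nB_u hA) (UPoly.length hA)) (UPoly.const 3)

theorem nD_u {A : α → LL} (hA : Poly A) : UPoly (fun a => nD (A a)) :=
  UPoly.mul (nG_u hA) (UPoly.mul (nG_u hA) (UPoly.add (UPoly.mul (UPoly.const 2) (nK_u hA))
    (UPoly.const 4)))

theorem blk_p {A : α → LL} {t : α → ℕ} (hA : Poly A) (ht : Poly t) :
    Poly (fun a => blk (A a) (t a)) :=
  Poly.getD (blocks_poly.comp hA) ht (Poly.const _)

theorem am_p {D i : α → ℕ} {b : α → Blk} (hD : Poly D) (hb : Poly b) (hi : Poly i) :
    Poly (fun a => am (D a) (b a) (i a)) := by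
  unfold am
  refine Poly.ite (p := fun a => (b a).2.2 = true) (Poly.decide_bool (Poly.snd (Poly.snd hb)))
    (Poly.const 1) ?_
  refine Poly.ite (p := fun a => i a = (b a).1) (Poly.decide_eq hi (Poly.fst hb)) hD ?_
  exact Poly.ite (p := fun a => i a = (b a).1 + 1)
    (Poly.decide_eq hi (Poly.succ (Poly.fst hb))) (Poly.const 2) (Poly.const 1)

theorem ta_p {q i : α → ℕ} {b : α → Blk} (hb : Poly b) (hq : Poly q) (hi : Poly i) :
    Poly (fun a => ta (b a) (q a) (i a)) := by
  have h1 : Poly (fun a => if i a ≤ (b a).1 then i a else i a - 1) :=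
    Poly.ite (p := fun a => i a ≤ (b a).1) (Poly.decide_le hi (Poly.fst hb)) hi
      (Poly.sub hi (Poly.const 1))
  unfold ta
  refine Poly.ite (p := fun a => (b a).2.2 = true) (Poly.decide_bool (Poly.snd (Poly.snd hb)))
    ?_ ?_
  · exact Poly.ite (p := fun a => (if i a ≤ (b a).1 then i a else i a - 1) < q a)
      (Poly.decide_lt h1 hq) h1 (Poly.succ h1)
  · exact Poly.ite (p := fun a => i a = (b a).1 + 1)
      (Poly.decide_eq hi (Poly.succ (Poly.fst hb))) (Poly.fst hb) hi

theorem bp_p {D i : α → ℕ} {b : α → Blk} (hD : Poly D) (hb : Poly b) (hi : Poly i) :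
    Poly (fun a => bp (D a) (b a) (i a)) := by
  unfold bp
  refine Poly.ite (p := fun a => (b a).2.1 = false ∧ i a + 1 = (b a).1) ?_ hD (Poly.const 0)
  refine Poly.decide_and (p := fun a => (b a).2.1 = false) (q := fun a => i a + 1 = (b a).1)
    ?_ (Poly.decide_eq (Poly.succ hi) (Poly.fst hb))
  exact Poly.decide_eq (Poly.fst (Poly.snd hb)) (Poly.const false)

theorem bm_p {D i : α → ℕ} {b : α → Blk} (hD : Poly D) (hb : Poly b) (hi : Poly i) :
    Poly (fun a => bm (D a) (b a) (i a)) := by
  unfold bm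
  refine Poly.ite (p := fun a => i a + 1 = (b a).1)
    (Poly.decide_eq (Poly.succ hi) (Poly.fst hb)) (Poly.const 2) ?_
  refine Poly.ite (p := fun a => (b a).2.2 = false ∧ i a = (b a).1) ?_ hD (Poly.const 1)
  exact Poly.decide_and (p := fun a => (b a).2.2 = false) (q := fun a => i a = (b a).1)
    (Poly.decide_eq (Poly.snd (Poly.snd hb)) (Poly.const false)) (Poly.decide_eq hi (Poly.fst hb))

section ctx

variable {A : α → LL} {D u : α → ℕ}

theorem div_p (hA : Poly A) (hu : Poly u) : Poly (fun a => u a / wd (A a)) :=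
  Poly.div hu (wd_u hA).toPoly

theorem mod_p (hA : Poly A) (hu : Poly u) : Poly (fun a => u a % wd (A a)) :=
  Poly.mod hu (wd_u hA).toPoly

theorem base_p (hA : Poly A) (hu : Poly u) : Poly (fun a => (u a / wd (A a) + 1) * wd (A a)) :=
  Poly.mul (Poly.succ (div_p hA hu)) (wd_u hA).toPoly

theorem mainT_p (hA : Poly A) (hu : Poly u) : Poly (fun a => mainT (A a) (u a)) := by
  unfold mainT
  refine Poly.ite (p := fun a => u a / wd (A a) < nB (A a))
    (Poly.decide_lt (div_p hA hu) (nB_u hA).toPoly) ?_ (base_p hA hu)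
  exact Poly.add (base_p hA hu) (ta_p (blk_p hA (div_p hA hu))
    (Poly.fst (blk_p hA (Poly.succ (div_p hA hu)))) (mod_p hA hu))

theorem mainA_p (hA : Poly A) (hD : Poly D) (hu : Poly u) :
    Poly (fun a => mainA (A a) (D a) (u a)) := by
  unfold mainA
  refine Poly.ite (p := fun a => u a / wd (A a) < nB (A a))
    (Poly.decide_lt (div_p hA hu) (nB_u hA).toPoly) ?_ ?_
  · exact am_p hD (blk_p hA (div_p hA hu)) (mod_p hA hu)
  · refine Poly.ite (p := fun a => u a % wd (A a) = 0)
      (Poly.decide_eq (mod_p hA hu) (Poly.const 0)) (Poly.const 1) ?_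
    exact Poly.succ (dL_poly.comp (f := fun a => (A a, u a % wd (A a) - 1))
      (Poly.pair hA (Poly.sub (mod_p hA hu) (Poly.const 1))))

theorem colP_p (hA : Poly A) (hD : Poly D) (hu : Poly u) :
    Poly (fun a => colP (A a) (D a) (u a)) := bp_p hD (blk_p hA (div_p hA hu)) (mod_p hA hu)

theorem colM_p (hA : Poly A) (hD : Poly D) (hu : Poly u) :
    Poly (fun a => colM (A a) (D a) (u a)) := bm_p hD (blk_p hA (div_p hA hu)) (mod_p hA hu)

theorem colP_le (A : LL) (D u : ℕ) : colP A D u ≤ D := by
  unfold colP bp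
  split_ifs <;> omega

theorem mc_u {M : α → ℕ} (hA : Poly A) (hD : UPoly D) (hM : UPoly M) (hu : Poly u) :
    UPoly (fun a => mc (A a) (D a) (M a) (u a)) := by
  refine UPoly.of_le ?_ (UPoly.add (UPoly.mul (nC_u hA) hM) hD) fun a => ?_
  · unfold mc
    exact Poly.sub (Poly.add (Poly.mul (nC_u hA).toPoly hM.toPoly) (colP_p hA hD.toPoly hu))
      (colM_p hA hD.toPoly hu)
  · have := colP_le (A a) (D a) (u a)
    unfold mc
    omega

end ctx

/-- the rows of the vertex `u` -/
def rowsU (A : LL) (D M u : ℕ) : List (ℕ × ℕ) :=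
  (List.range (nC A * M - mainA A D u)).map (fun _ => (u, mainT A u - 1)) ++
    bif (decide ((blk A (u / wd A)).2.2 = false) &&
      decide (u % wd A = (blk A (u / wd A)).1 + 1)) then
      (List.range D).map (fun _ => (u, ((u / wd A + 1) * wd A + (blk A (u / wd A)).1 + 1) - 1))
    else []

theorem rowsU_eq (A : LL) (D M u : ℕ) :
    (tg A D M u).flatMap (fun q => (List.range q.2).map fun _ => (u, q.1 - 1)) =
      rowsU A D M u := by
  unfold tg rowsU exL
  rw [List.flatMap_cons]
  congr 1
  by_cases h : (blk A (u / wd A)).2.2 = false ∧ u % wd A = (blk A (u / wd A)).1 + 1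
  · rw [if_pos h]
    have : (decide ((blk A (u / wd A)).2.2 = false) &&
      decide (u % wd A = (blk A (u / wd A)).1 + 1)) = true := by simp [h.1, h.2]
    rw [this, cond_true]
    simp
  · rw [if_neg h]
    have : (decide ((blk A (u / wd A)).2.2 = false) &&
      decide (u % wd A = (blk A (u / wd A)).1 + 1)) = false := by
      rw [Bool.and_eq_false_iff]
      rcases not_and_or.1 h with h' | h'
      · left; simpa using h'
      · right; simpa using h'
    rw [this, cond_false]
    rfl

theorem rowsU_p {A : α → LL} {D M u : α → ℕ} (hA : Poly A) (hD : UPoly D) (hM : UPoly M)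
    (hu : Poly u) : Poly (fun a => rowsU (A a) (D a) (M a) (u a)) := by
  unfold rowsU
  have hlen : UPoly (fun a => nC (A a) * M a - mainA (A a) (D a) (u a)) :=
    UPoly.of_le (Poly.sub (Poly.mul (nC_u hA).toPoly hM.toPoly) (mainA_p hA hD.toPoly hu))
      (UPoly.mul (nC_u hA) hM) fun a => Nat.sub_le _ _
  refine Poly.append ?_ ?_
  · refine Poly.map (F := fun a (_ : ℕ) => (u a, mainT (A a) (u a) - 1)) hlen.range ?_
    exact Poly.comp (g := fun a => (u a, mainT (A a) (u a) - 1))
      (Poly.pair hu (Poly.sub (mainT_p hA hu) (Poly.const 1))) (Poly.fst Poly.id)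
  · refine Poly.cond ?_ ?_ (Poly.const _)
    · exact Poly.and (Poly.decide_eq (Poly.snd (Poly.snd (blk_p hA (div_p hA hu))))
        (Poly.const false)) (Poly.decide_eq (mod_p hA hu)
          (Poly.succ (Poly.fst (blk_p hA (div_p hA hu)))))
    · refine Poly.map (F := fun a (_ : ℕ) =>
        (u a, ((u a / wd (A a) + 1) * wd (A a) + (blk (A a) (u a / wd (A a))).1 + 1) - 1))
        hD.range ?_
      exact Poly.comp (g := fun a =>
        (u a, ((u a / wd (A a) + 1) * wd (A a) + (blk (A a) (u a / wd (A a))).1 + 1) - 1))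
        (Poly.pair hu (Poly.sub (Poly.succ (Poly.add (base_p hA hu)
          (Poly.fst (blk_p hA (div_p hA hu))))) (Poly.const 1))) (Poly.fst Poly.id)

theorem rowsS_p {A : α → LL} {D M : α → ℕ} (hA : Poly A) (hD : UPoly D) (hM : UPoly M) :
    Poly (fun a => rowsS (A a) (D a) (M a)) := by
  have hf : Poly (Prod.fst : α × ℕ → α) := Poly.fst Poly.id
  have h : Poly (fun a => (List.range (nG (A a))).flatMap
      (fun u => rowsU (A a) (D a) (M a) u)) :=
    Poly.flatMap (F := fun a u => rowsU (A a) (D a) (M a) u) (nG_u hA).range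
      (rowsU_p (hA.comp hf) (hD.comp hf) (hM.comp hf) (Poly.snd Poly.id))
  refine h.congr fun a => ?_
  unfold rowsS
  refine List.flatMap_congr fun u _ => ?_
  exact (rowsU_eq _ _ _ _).symm

theorem colsS_p {A : α → LL} {D M : α → ℕ} (hA : Poly A) (hD : UPoly D) (hM : UPoly M) :
    Poly (fun a => colsS (A a) (D a) (M a)) := by
  have hf : Poly (Prod.fst : α × ℕ → α) := Poly.fst Poly.id
  refine Poly.flatMap (F := fun a u => (List.range (mc (A a) (D a) (M a) u)).map fun _ => u)
    (nG_u hA).range ?_
  exact Poly.map (F := fun (p : α × ℕ) (_ : ℕ) => p.2)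
    (mc_u (hA.comp hf) (hD.comp hf) (hM.comp hf) (Poly.snd Poly.id)).range
    (Poly.snd (Poly.fst Poly.id))

theorem HS_p {A : α → LL} {D M : α → ℕ} (hA : Poly A) (hD : UPoly D) (hM : UPoly M) :
    Poly (fun a => HS (A a) (D a) (M a)) :=
  mat_poly.comp (f := fun a => (rowsS (A a) (D a) (M a), colsS (A a) (D a) (M a)))
    (Poly.pair (rowsS_p hA hD hM) (colsS_p hA hD hM))

theorem DS_p {A : α → LL} {D M : α → ℕ} (hA : Poly A) (hD : UPoly D) (hM : UPoly M) :
    Poly (fun a => DS (A a) (D a) (M a)) := by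
  have hf : Poly (Prod.fst : α × ℕ → α) := Poly.fst Poly.id
  refine poly_prod ?_
  exact Poly.map (F := fun a u => (mc (A a) (D a) (M a) u).factorial) (nG_u hA).range
    (upoly_fact (mc_u (hA.comp hf) (hD.comp hf) (hM.comp hf) (Poly.snd Poly.id)))

end Model

section Queries

/-- first index of a query -/
def jx (p : LL × ℕ) : ℕ := min (p.2 / (nD p.1 + 1)) (nK p.1)

/-- second index of a query -/
def mx (p : LL × ℕ) : ℕ := p.2 % (nD p.1 + 1)

theorem jx_u : UPoly jx := upoly_min (Poly.div (Poly.snd Poly.id)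
  (Poly.succ (nD_u (Poly.fst Poly.id)).toPoly)) (nK_u (Poly.fst Poly.id))

theorem jx_le (p : LL × ℕ) : jx p ≤ nK p.1 := Nat.min_le_right _ _

theorem mx_le (p : LL × ℕ) : mx p ≤ nD p.1 :=
  Nat.lt_succ_iff.1 (Nat.mod_lt _ (Nat.succ_pos _))

theorem mx_u : UPoly mx := UPoly.of_le (Poly.mod (Poly.snd Poly.id)
  (Poly.succ (nD_u (Poly.fst Poly.id)).toPoly)) (nD_u (Poly.fst Poly.id)) mx_le

/-- a query -/
def qry (p : LL × ℕ) : LL := HS p.1 (jx p + 1) (mx p + 1)

theorem qry_p : Poly qry :=
  HS_p (Poly.fst Poly.id) (UPoly.add jx_u (UPoly.const 1)) (UPoly.add mx_u (UPoly.const 1))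

/-- number of queries -/
def nQ (A : LL) : ℕ := (nK A + 1) * (nD A + 1)

theorem nQ_u {α : Type} [TEnc α] {A : α → LL} (hA : Poly A) : UPoly (fun a => nQ (A a)) :=
  UPoly.mul (UPoly.add (nK_u hA) (UPoly.const 1)) (UPoly.add (nD_u hA) (UPoly.const 1))

/-- context of the final computation: matrix, answers, offset -/
abbrev Cz : Type := LL × List ℕ × ℕ

/-- one term of the reduction identity -/
def tmS (c : Cz) (x : ℕ) : ℕ :=
  (nK c.1).choose (jx (c.1, x)) * (nD c.1 + 1).choose (mx (c.1, x) + 1) *
    (c.2.1.getD (c.2.2 + x) 0 / DS c.1 (jx (c.1, x) + 1) (mx (c.1, x) + 1))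

/-- the terms of a given parity -/
def prS (c : Cz) (b : ℕ) : ℕ :=
  (((List.range (nQ c.1)).filter
    (fun x => decide ((nK c.1 + jx (c.1, x) + mx (c.1, x)) % 2 = b))).map (tmS c)).sum

/-- the final computation from the answers -/
def psS (c : Cz) : ℕ :=
  bif sqB c.1 then
    (bif degB c.1 then
      (bif decide (c.1.length = 0) then 1
      else (bif decide (((edgesE c.1).length + c.1.length) % 2 = 0) then
          (prS c 0 - prS c 1) / (nK c.1).factorial
        else (prS c 1 - prS c 0) / (nK c.1).factorial))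
    else 0)
  else 0

theorem tmS_p : Poly (fun p : Cz × ℕ => tmS p.1 p.2) := by
  have hA : Poly (fun p : Cz × ℕ => p.1.1) := Poly.fst (Poly.fst Poly.id)
  have hAx : Poly (fun p : Cz × ℕ => (p.1.1, p.2)) := Poly.pair hA (Poly.snd Poly.id)
  have hj : UPoly (fun p : Cz × ℕ => jx (p.1.1, p.2)) := jx_u.comp hAx
  have hm : UPoly (fun p : Cz × ℕ => mx (p.1.1, p.2)) := mx_u.comp hAx
  have h1 := upoly_choose (nK_u hA) hj (fun p => jx_le (p.1.1, p.2))
  have h2 := upoly_choose (UPoly.add (nD_u hA) (UPoly.const 1)) (UPoly.add hm (UPoly.const 1))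
    (fun p => Nat.succ_le_succ (mx_le (p.1.1, p.2)))
  have h3 : Poly (fun p : Cz × ℕ => p.1.2.1.getD (p.1.2.2 + p.2) 0) :=
    Poly.getD (Poly.fst (Poly.snd (Poly.fst Poly.id)))
      (Poly.add (Poly.snd (Poly.snd (Poly.fst Poly.id))) (Poly.snd Poly.id)) (Poly.const 0)
  have h4 : Poly (fun p : Cz × ℕ => DS p.1.1 (jx (p.1.1, p.2) + 1) (mx (p.1.1, p.2) + 1)) :=
    DS_p hA (UPoly.add hj (UPoly.const 1)) (UPoly.add hm (UPoly.const 1))
  exact Poly.mul (Poly.mul h1 h2) (Poly.div h3 h4)

theorem prS_p (b : ℕ) : Poly (fun c : Cz => prS c b) := by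
  have hA : Poly (fun p : Cz × ℕ => p.1.1) := Poly.fst (Poly.fst Poly.id)
  have hAx : Poly (fun p : Cz × ℕ => (p.1.1, p.2)) := Poly.pair hA (Poly.snd Poly.id)
  have h2 : Poly (fun c : Cz => (List.range (nQ c.1)).filter
      (fun x => decide ((nK c.1 + jx (c.1, x) + mx (c.1, x)) % 2 = b))) :=
    Poly.filter (p := fun (c : Cz) x => decide ((nK c.1 + jx (c.1, x) + mx (c.1, x)) % 2 = b))
      (nQ_u (Poly.fst Poly.id)).range
      (Poly.decide_eq (Poly.mod (Poly.add (Poly.add (nK_u hA).toPoly (jx_u.comp hAx).toPoly)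
        (mx_u.comp hAx).toPoly) (Poly.const 2)) (Poly.const b))
  exact Poly.sum (Poly.map (F := fun (c : Cz) x => tmS c x) h2 tmS_p)

theorem psS_p : Poly psS := by
  have hA : Poly (fun c : Cz => c.1) := Poly.fst Poly.id
  have hl : Poly (fun c : Cz => c.1.length) := Poly.length hA
  have hE : Poly (fun c : Cz => (edgesE c.1).length) := Poly.length (edgesE_poly.comp hA)
  have hf : Poly (fun c : Cz => (nK c.1).factorial) := upoly_fact (nK_u hA)
  have h2 : Poly (fun c : Cz => decide (((edgesE c.1).length + c.1.length) % 2 = 0)) :=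
    Poly.decide_eq (Poly.mod (Poly.add hE hl) (Poly.const 2)) (Poly.const 0)
  exact Poly.cond (sqB_poly.comp hA) (Poly.cond (degB_poly.comp hA)
    (Poly.cond (Poly.decide_eq hl (Poly.const 0)) (Poly.const 1)
      (Poly.cond h2 (Poly.div (Poly.sub (prS_p 0) (prS_p 1)) hf)
        (Poly.div (Poly.sub (prS_p 1) (prS_p 0)) hf))) (Poly.const 0)) (Poly.const 0)

end Queries

section Correct

/-- the reduction identity (task T7) -/
def RedId : Prop := ∀ A : LL, 0 < A.length → (∀ r ∈ A, r.length = A.length) →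
    (∀ j < A.length, 1 ≤ degL A j) →
    ∑ j ∈ Finset.range (nK A + 1), ∑ m ∈ Finset.range (nD A + 1), (-1 : ℤ) ^ (nK A + j + m) *
        ((nK A).choose j : ℤ) * ((nD A + 1).choose (m + 1) : ℤ) *
        ((F (HS A (j + 1) (m + 1)) / DS A (j + 1) (m + 1) : ℕ) : ℤ) =
      ((nK A).factorial : ℤ) * ((-1) ^ ((edgesE A).length + A.length) * (F A : ℤ))

theorem sum_range_mul {M : Type*} [AddCommMonoid M] (K N : ℕ) (hN : 0 < N) (f : ℕ → ℕ → M) :
    ∑ x ∈ Finset.range (K * N), f (x / N) (x % N) =
      ∑ j ∈ Finset.range K, ∑ m ∈ Finset.range N, f j m := by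
  induction K with
  | zero => simp
  | succ K ih =>
    rw [Nat.succ_mul, Finset.sum_range_add, ih, Finset.sum_range_succ]
    congr 1
    refine Finset.sum_congr rfl fun m hm => ?_
    rw [Finset.mem_range] at hm
    have e1 : (K * N + m) / N = K := by
      rw [mul_comm, Nat.mul_add_div hN, Nat.div_eq_of_lt hm, add_zero]
    have e2 : (K * N + m) % N = m := by
      rw [mul_comm, Nat.mul_add_mod, Nat.mod_eq_of_lt hm]
    rw [e1, e2]

theorem F_nil : F ([] : LL) = 1 := by
  rw [F, if_pos (by simp)]
  unfold Matrix.permanent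
  simp

theorem psS_correct (hred : RedId) (c : Cz)
    (hc : ∀ x < nQ c.1, c.2.1.getD (c.2.2 + x) 0 = F (qry (c.1, x))) : psS c = F c.1 := by
  obtain ⟨A, ans, o⟩ := c
  simp only at hc
  unfold psS
  simp only
  cases hs : sqB A with
  | false =>
    rw [cond_false]
    have : ¬ ∀ r ∈ A, r.length = A.length := by
      intro h
      rw [sqB, Bool.eq_false_iff] at hs
      apply hs
      rw [List.all_eq_true]
      intro r hr
      simp [h r hr]
    rw [F, if_neg this]
  | true =>
    have hsq : ∀ r ∈ A, r.length = A.length := by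
      intro r hr
      rw [sqB, List.all_eq_true] at hs
      simpa using hs r hr
    rw [cond_true]
    cases hd : degB A with
    | false =>
      rw [cond_false]
      rw [degB, List.all_eq_false] at hd
      obtain ⟨j, hj, hj2⟩ := hd
      rw [List.mem_range] at hj
      simp only [decide_eq_true_eq, not_lt, Nat.le_zero] at hj2
      exact (F_zero A hsq j hj hj2).symm
    | true =>
      rw [cond_true]
      have hdeg : ∀ j < A.length, 1 ≤ degL A j := by
        intro j hj
        rw [degB, List.all_eq_true] at hd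
        have := hd j (List.mem_range.2 hj)
        simp only [decide_eq_true_eq] at this
        exact this
      by_cases h0 : A.length = 0
      · rw [show decide (A.length = 0) = true from decide_eq_true h0, cond_true]
        have : A = [] := List.length_eq_zero_iff.1 h0
        rw [this, F_nil]
      · rw [show decide (A.length = 0) = false from decide_eq_false h0, cond_false]
        have hid := hred A (Nat.pos_of_ne_zero h0) hsq hdeg
        have hpr : ∀ b : ℕ, prS (A, ans, o) b =
            ∑ x ∈ Finset.range ((nK A + 1) * (nD A + 1)),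
              if (nK A + x / (nD A + 1) + x % (nD A + 1)) % 2 = b then
                (nK A).choose (x / (nD A + 1)) * (nD A + 1).choose (x % (nD A + 1) + 1) *
                  (F (HS A (x / (nD A + 1) + 1) (x % (nD A + 1) + 1)) /
                    DS A (x / (nD A + 1) + 1) (x % (nD A + 1) + 1)) else 0 := by
          intro b
          rw [prS, sum_filter_range_list]
          refine Finset.sum_congr rfl fun x hx => ?_
          rw [Finset.mem_range] at hx
          have hj : jx (A, x) = x / (nD A + 1) := by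
            unfold jx
            refine Nat.min_eq_left ?_
            simp only
            have : x / (nD A + 1) < nK A + 1 := Nat.div_lt_of_lt_mul (by rwa [mul_comm])
            omega
          have hm : mx (A, x) = x % (nD A + 1) := rfl
          have hq : qry (A, x) = HS A (x / (nD A + 1) + 1) (x % (nD A + 1) + 1) := by
            unfold qry
            rw [hj, hm]
          have hx' : x < nQ A := hx
          have h1 := hc x hx'
          simp only [decide_eq_true_eq, tmS, hj, hm]
          rw [h1, hq]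
        have hsplit : ((prS (A, ans, o) 0 : ℕ) : ℤ) - (prS (A, ans, o) 1 : ℕ) =
            ((nK A).factorial : ℤ) * ((-1) ^ ((edgesE A).length + A.length) * (F A : ℤ)) := by
          rw [← hid, ← sum_range_mul (nK A + 1) (nD A + 1) (Nat.succ_pos _)
            (fun j m => (-1 : ℤ) ^ (nK A + j + m) * ((nK A).choose j : ℤ) *
              ((nD A + 1).choose (m + 1) : ℤ) *
              ((F (HS A (j + 1) (m + 1)) / DS A (j + 1) (m + 1) : ℕ) : ℤ)), hpr 0, hpr 1]
          push_cast
          rw [← Finset.sum_sub_distrib]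
          refine Finset.sum_congr rfl fun x _ => ?_
          rcases Nat.even_or_odd (nK A + x / (nD A + 1) + x % (nD A + 1)) with h | h
          · rw [if_pos (Nat.even_iff.1 h), if_neg (by have := Nat.even_iff.1 h; omega),
              h.neg_one_pow]
            ring
          · rw [if_neg (by have := Nat.odd_iff.1 h; omega), if_pos (Nat.odd_iff.1 h),
              h.neg_one_pow]
            ring
        have hfac := Nat.factorial_pos (nK A)
        by_cases hn : ((edgesE A).length + A.length) % 2 = 0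
        · rw [show decide (((edgesE A).length + A.length) % 2 = 0) = true from decide_eq_true hn,
            cond_true]
          rw [(Nat.even_iff.2 hn).neg_one_pow, one_mul] at hsplit
          have h5 : prS (A, ans, o) 0 - prS (A, ans, o) 1 = (nK A).factorial * F A := by
            zify at hsplit ⊢
            have h6 : (0 : ℤ) ≤ ((nK A).factorial : ℤ) * (F A : ℤ) := by positivity
            push_cast [Nat.cast_sub (by omega : prS (A, ans, o) 1 ≤ prS (A, ans, o) 0)]
            exact hsplit
          rw [h5, Nat.mul_div_cancel_left _ hfac]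
        · rw [show decide (((edgesE A).length + A.length) % 2 = 0) = false from
            decide_eq_false hn, cond_false]
          rw [(Nat.odd_iff.2 (by omega)).neg_one_pow] at hsplit
          have h6 : (0 : ℤ) ≤ ((nK A).factorial : ℤ) * (F A : ℤ) := by positivity
          have h7 : ((prS (A, ans, o) 1 : ℕ) : ℤ) - (prS (A, ans, o) 0 : ℕ) =
              ((nK A).factorial : ℤ) * (F A : ℤ) := by linarith
          have h5 : prS (A, ans, o) 1 - prS (A, ans, o) 0 = (nK A).factorial * F A := by
            have h8 : prS (A, ans, o) 0 ≤ prS (A, ans, o) 1 := by omega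
            zify [h8]
            exact h7
          rw [h5, Nat.mul_div_cancel_left _ hfac]

end Correct

end Pool.Agent.NPC.H618Skew
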