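import Pool.Agent.H618R2.Skew.T5e
import Pool.Agent.H618R2.Skew.T1

/-!
# The value at `M = 0`
-/

namespace Pool.Agent.H618R2.Skew

open MvPolynomial Finset Pool.Agent.H549R2.Convex

variable (A : List (List Bool))

/-- the state before block `t` -/
noncomputable def stt (D t : ℕ) : MP × MP :=
  ((blocks A).take t).foldl (fun s b => stepB D b s) (1, 0)

theorem stt_zero (D : ℕ) : stt A D 0 = (1, 0) := by rw [stt]; simp

theorem stt_succ (D t : ℕ) (ht : t < nB A) : stt A D (t + 1) = stepB D (blk A t) (stt A D t) := by
  rw [stt, List.take_add_one, List.foldl_append, List.getElem?_eq_getElem ht, stt, blk,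
    List.getD_eq_getElem _ _ ht]
  rfl

theorem stt_inv (D t : ℕ) (ht : t ≤ nB A) : (blk A t).2.1 = true → (stt A D t).2 = 0 := by
  cases t with
  | zero => intro _; rw [stt_zero]
  | succ t =>
    intro h
    have hf := blk_facts A t (by omega)
    have hl : (blk A t).2.2 = true := by
      cases hl : (blk A t).2.2 with
      | true => rfl
      | false =>
        have := (hf.2.2.2 hl).1
        rw [h] at this
        exact absurd this (by simp)
    rw [stt_succ A D t (by omega), stepB_eq, if_pos hl]

theorem run_blocks (D : ℕ) (hD : 1 ≤ D) (t : ℕ) (ht : t ≤ nB A) :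
    run (Lz A D 0) 0 (t * wd A) 1 = raw (2 * A.length) D t (blk A t) (stt A D t) := by
  induction t with
  | zero =>
    rw [zero_mul, run, stt_zero, raw, if_pos (blk_zero A)]
    simp
  | succ t ih =>
    rw [add_mul, one_mul, run_add, ih (by omega), zero_add,
      run_block A D t (by omega) hD _ (stt_inv A D t (by omega)), stt_succ A D t (by omega)]

/-- a pole to the terminal vertex extracts a coefficient -/
theorem coeff_elim (u a G d : ℕ) (e : ℕ →₀ ℕ) (he : e u = 0) (heG : e G = 0)
    (f : MP) :
    coeff e (elim u [(a, 0), (G, -((d : ℤ) + 1))] f) = coeff (Finsupp.single u d + e) f := by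
  have h0 : -((d : ℤ) + 1) = -(d : ℤ) - 1 := by ring
  rw [elim_zero_cons, h0, elim_pole, T1.coeff_sep u d e he]
  generalize sep u f = p
  induction p using Polynomial.induction_on' with
  | add p q hp hq =>
    rw [map_add, Polynomial.eval_add, coeff_add, hp, hq, Polynomial.coeff_add, coeff_add]
  | monomial i b =>
    rw [Polynomial.hasseDeriv_monomial, Polynomial.eval_monomial, Polynomial.coeff_monomial]
    by_cases h1 : i < d
    · rw [Nat.choose_eq_zero_of_lt h1, if_neg (by omega)]
      simp
    · by_cases h2 : i = d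
      · subst h2
        simp
      · rw [if_neg h2, coeff_zero]
        obtain ⟨k, hk⟩ : ∃ k, i - d = k + 1 := ⟨i - d - 1, by omega⟩
        rw [hk, pow_succ, ← mul_assoc, coeff_mul_X', if_neg]
        rw [Finsupp.mem_support_iff, not_not]
        exact heG

theorem coeff_run (L : ℕ → List (ℕ × ℤ)) (G : ℕ) (d : ℕ → ℕ) (u k : ℕ) (hG : u + k ≤ G)
    (hL : ∀ w, u ≤ w → w < u + k → L w = [(w + 1, 0), (G, -((d w : ℤ) + 1))]) (e : ℕ →₀ ℕ)
    (he : ∀ w, u ≤ w → w < u + k → e w = 0) (heG : e G = 0) (f : MP) :
    coeff e (run L u k f) = coeff ((∑ w ∈ Ico u (u + k), Finsupp.single w (d w)) + e) f := by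
  induction k generalizing u f with
  | zero => simp [run]
  | succ k ih =>
    rw [run, ih (u + 1) (by omega) (fun w h1 h2 => hL w (by omega) (by omega))
      (fun w h1 h2 => he w (by omega) (by omega)), hL u le_rfl (by omega), coeff_elim]
    · rw [← add_assoc]
      congr 2
      have e1 : u + (k + 1) = u + 1 + k := by ring
      rw [e1, Finset.sum_eq_sum_Ico_succ_bot (a := u) (b := u + 1 + k) (by omega)]
    · rw [Finsupp.add_apply, he u le_rfl (by omega), add_zero, Finsupp.finsetSum_apply]
      refine Finset.sum_eq_zero fun w hw => ?_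
      rw [mem_Ico] at hw
      rw [Finsupp.single_apply, if_neg (by omega)]
    · rw [Finsupp.add_apply, heG, add_zero, Finsupp.finsetSum_apply]
      refine Finset.sum_eq_zero fun w hw => ?_
      rw [mem_Ico] at hw
      rw [Finsupp.single_apply, if_neg (by omega)]

theorem coeff_shift (V : ℕ) (g : ℕ → ℕ) (hg : Function.Injective g) (E : ℕ →₀ ℕ)
    (hE : ∀ v, V ≤ v → E v = 0) (S : MP) :
    coeff (E.mapDomain g) (aeval (fun v => if v < V then (X (g v) : MP) else 0) S) = coeff E S := by
  induction S using MvPolynomial.induction_on' with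
  | add p q hp hq => rw [map_add, coeff_add, coeff_add, hp, hq]
  | monomial m c =>
    by_cases h : ∀ v, V ≤ v → m v = 0
    · rw [← coeff_rename_mapDomain g hg (monomial m c) E]
      congr 1
      rw [aeval_monomial, rename_monomial, monomial_eq (s := m.mapDomain g), algebraMap_eq,
        Finsupp.prod_mapDomain_index_inj hg]
      congr 1
      apply Finsupp.prod_congr
      intro v hv
      rw [Finsupp.mem_support_iff] at hv
      have hvV : v < V := by
        by_contra h2
        exact hv (h v (by omega))
      rw [if_pos hvV]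
    · push Not at h
      obtain ⟨v, hv, hmv⟩ := h
      have h1 : m ≠ E := by
        rintro rfl
        exact hmv (hE v hv)
      rw [coeff_monomial, if_neg h1, aeval_monomial, Finsupp.prod,
        Finset.prod_eq_zero (i := v) (by rwa [Finsupp.mem_support_iff])]
      · simp
      · rw [if_neg (by omega), zero_pow hmv]

/-- the value at `M = 0` -/
theorem value_zero (A : List (List Bool)) (D : ℕ) (_hn : 0 < A.length) (hD1 : 1 ≤ D) :
    constantCoeff (run (Lz A D 0) 0 (nG A) 1) =
      coeff (∑ v ∈ range (2 * A.length), Finsupp.single v (dL A v)) (SD A D) := by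
  have hWe : wd A = 2 * A.length + 1 := rfl
  have hG : nG A = nB A * wd A + wd A := by rw [nG]; ring
  have hblk : blk A (nB A) = (0, true, true) := blk_big A _ le_rfl
  have hst2 : (stt A D (nB A)).2 = 0 := stt_inv A D (nB A) le_rfl (by rw [hblk])
  have hst1 : (stt A D (nB A)).1 = SD A D := by
    rw [stt, SD, nB, List.take_length]
  set u := nB A * wd A with hu
  have h1 : run (Lz A D 0) 0 (nG A) 1 =
      run (Lz A D 0) u (wd A) (mx (2 * A.length) (nB A) 0 0 0 (SD A D)) := by
    rw [hG, run_add, run_blocks A D hD1 _ le_rfl, hblk, raw, if_pos rfl, hst1, hst2, map_zero,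
      mul_zero, add_zero, mul_one, zero_add]
  have hL : ∀ w, u ≤ w → w < u + wd A → Lz A D 0 w =
      [(w + 1, 0), (nG A, -(((if w = u then 0 else dL A (w - u - 1) : ℕ) : ℤ) + 1))] := by
    intro w h2 h3
    obtain ⟨i, rfl⟩ : ∃ i, w = u + i := ⟨w - u, by omega⟩
    have hi : i < wd A := by omega
    have hW0 : 0 < wd A := by omega
    have e1 : (u + i) / wd A = nB A := by
      rw [hu, add_comm, Nat.add_mul_div_right _ _ hW0, Nat.div_eq_of_lt hi, zero_add]
    have e2 : (u + i) % wd A = i := by
      rw [hu, add_comm, Nat.add_mul_mod_self_right, Nat.mod_eq_of_lt hi]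
    have e3 : colP A D (u + i) = 0 := by
      rw [colP, e1, e2, hblk, bp, if_neg]
      rintro ⟨h, _⟩
      exact absurd h (by simp)
    have e4 : colM A D (u + i) = 1 := by
      rw [colM, e1, e2, hblk, bm, if_neg (by simp), if_neg]
      rintro ⟨h, _⟩
      exact absurd h (by simp)
    have e5 : exL A D (u + i) = [] := by
      rw [exL, e1, e2, hblk, if_neg]
      rintro ⟨h, _⟩
      exact absurd h (by simp)
    have e6 : mainT A (u + i) = nG A := by
      rw [mainT, e1, if_neg (lt_irrefl _)]
      rfl
    have e7 : mainA A D (u + i) = (if u + i = u then 0 else dL A (u + i - u - 1)) + 1 := by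
      rw [mainA, e1, e2, if_neg (lt_irrefl _)]
      by_cases hi0 : i = 0
      · rw [if_pos hi0, if_pos (by omega)]
      · rw [if_neg hi0, if_neg (by omega), Nat.add_sub_cancel_left]
    rw [Lz, e3, e4, e5, e6, e7]
    simp
  rw [h1]
  show coeff 0 (run (Lz A D 0) u (wd A) (mx (2 * A.length) (nB A) 0 0 0 (SD A D))) = _
  rw [coeff_run _ (nG A) _ u (wd A) (by omega) hL 0 (fun _ _ _ => rfl) rfl, add_zero]
  have hmx : mx (2 * A.length) (nB A) 0 0 0 =
      aeval (fun v => if v < 2 * A.length then (X (u + 1 + v) : MP) else 0) := by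
    rw [mx]
    congr 1
    funext v
    by_cases hv : v < 2 * A.length
    · rw [if_pos hv, if_pos hv, if_neg (by omega)]
      have : nB A * (2 * A.length + 1) + pos 0 v = u + 1 + v := by
        rw [hu, hWe, pos, if_neg (by omega)]; ring
      rw [this]
    · rw [if_neg hv, if_neg hv]
  have hE : (∑ w ∈ Ico u (u + wd A), Finsupp.single w (if w = u then 0 else dL A (w - u - 1))) =
      (∑ v ∈ range (2 * A.length), Finsupp.single v (dL A v)).mapDomain (fun v => u + 1 + v) := by
    rw [Finset.sum_eq_sum_Ico_succ_bot (by omega), if_pos rfl, Finsupp.single_zero, zero_add,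
      Finset.sum_Ico_eq_sum_range]
    have e1 : u + wd A - (u + 1) = 2 * A.length := by omega
    rw [e1, ← Finsupp.mapDomain.addMonoidHom_apply, map_sum]
    refine Finset.sum_congr rfl fun v _ => ?_
    rw [if_neg (by omega), Finsupp.mapDomain.addMonoidHom_apply, Finsupp.mapDomain_single]
    have : u + 1 + v - u - 1 = v := by omega
    rw [this]
  rw [hE, hmx, coeff_shift]
  · intro a b h
    simpa using h
  · intro v hv
    rw [Finsupp.finsetSum_apply]
    refine Finset.sum_eq_zero fun w hw => ?_
    rw [mem_range] at hw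
    rw [Finsupp.single_apply, if_neg (by omega)]

end Pool.Agent.H618R2.Skew
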