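import Pool.Agent.H618R2.Skew.T0
import Pool.Agent.H618R2.Skew.Model

/-!
# Elimination at `M = 0`: substitutions, derivatives, and the shape of the blocks
-/

namespace Pool.Agent.H618R2.Skew

open MvPolynomial Finset

/-- substitution of the variable `v` for `u` -/
noncomputable def sb (u v : ℕ) : MP →ₐ[ℚ] MP := aeval fun w => if w = u then X v else X w

theorem sb_X_self (u v : ℕ) : sb u v (X u) = X v := by rw [sb, aeval_X, if_pos rfl]

theorem sb_X_ne (u v w : ℕ) (h : w ≠ u) : sb u v (X w) = X w := by rw [sb, aeval_X, if_neg h]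

theorem eval_sep (u v : ℕ) (f : MP) : (sep u f).eval (X v) = sb u v f := by
  have h : ((Polynomial.aeval (X v : MP)).toRingHom.comp (sep u).toRingHom : MP →+* MP) =
      (sb u v).toRingHom := by
    apply MvPolynomial.ringHom_ext
    · intro r
      simp [sep, sb]
    · intro w
      by_cases hw : w = u
      · subst hw
        simp [sep_X_self, sb_X_self]
      · simp [sep_X_ne _ _ hw, sb_X_ne _ _ _ hw]
  have h2 := RingHom.congr_fun h f
  simpa [Polynomial.coe_aeval_eq_eval] using h2

theorem derivative_sep (u : ℕ) (f : MP) : Polynomial.derivative (sep u f) = sep u (pderiv u f) := by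
  induction f using MvPolynomial.induction_on with
  | C a => simp [sep]
  | add p q hp hq => rw [map_add, Polynomial.derivative_add, map_add, map_add, hp, hq]
  | mul_X p w hp =>
    rw [map_mul, Polynomial.derivative_mul, hp, Derivation.leibniz, map_add, smul_eq_mul,
      smul_eq_mul, map_mul, map_mul]
    by_cases hw : w = u
    · subst hw
      rw [sep_X_self, pderiv_X_self]
      simp
      ring
    · rw [sep_X_ne _ _ hw, pderiv_X_of_ne (fun h => hw h)]
      simp
      ring

/-- a simple pole substitutes -/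
theorem elim_one (u v : ℕ) (f : MP) : elim u [(v, -1)] f = sb u v f := by
  have h := elim_pole u v 0 f
  simp only [Nat.cast_zero, neg_zero, zero_sub, Polynomial.hasseDeriv_zero', eval_sep] at h
  exact h

/-- a double pole differentiates and substitutes -/
theorem elim_two (u v : ℕ) (f : MP) : elim u [(v, -2)] f = sb u v (pderiv u f) := by
  have h := elim_pole u v 1 f
  rw [Polynomial.hasseDeriv_one, derivative_sep, eval_sep] at h
  exact h

theorem elim_transport (u a v : ℕ) (f : MP) : elim u [(a, 0), (v, -1)] f = sb u v f := by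
  rw [elim_zero_cons, elim_one]

/-- elimination of the messenger at a crossing -/
theorem elim_messenger (u a v : ℕ) (D : ℕ) (f0 f1 : MP)
    (h0 : sep u f0 = Polynomial.C f0) (h1 : sep u f1 = Polynomial.C f1) :
    elim u [(a, (D : ℤ) - 1), (v, -(D : ℤ))] (f0 + X u * f1) =
      f0 + f1 * (C (D : ℚ) * X v - (C (D : ℚ) - 1) * X a) := by
  unfold elim
  have htot : tot [(a, (D : ℤ) - 1), (v, -(D : ℤ))] = -1 := by simp [tot]; ring
  have hs : sep u (f0 + X u * f1) = Polynomial.monomial 0 f0 + Polynomial.monomial 1 f1 := by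
    rw [map_add, map_mul, h0, h1, sep_X_self, Polynomial.monomial_zero_left,
      ← Polynomial.C_mul_X_eq_monomial]
    ring
  rw [htot, hs, phi_add, phi_monomial, phi_monomial]
  have e0 : ((0 : ℕ) : ℤ) + -1 + 1 = ((0 : ℕ) : ℤ) := by norm_num
  have e1 : ((1 : ℕ) : ℤ) + -1 + 1 = ((1 : ℕ) : ℤ) := by norm_num
  rw [e0, e1]
  unfold cz
  rw [if_pos (by positivity), if_pos (by positivity), Int.toNat_natCast, Int.toNat_natCast]
  have z1 : ∀ N : ℤ, zch N 1 = N := by intro N; simp [zch]
  have c0 : PowerSeries.coeff 0 (serL [(a, (D : ℤ) - 1), (v, -(D : ℤ))]) = 1 := by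
    simp [serL, PowerSeries.coeff_mul, coeff_ser, zch_zero]
  have c1 : PowerSeries.coeff 1 (serL [(a, (D : ℤ) - 1), (v, -(D : ℤ))]) =
      C (D : ℚ) * X v - (C (D : ℚ) - 1) * X a := by
    simp only [serL, List.map_cons, List.map_nil, List.prod_cons, List.prod_nil, mul_one,
      PowerSeries.coeff_mul]
    rw [Finset.Nat.sum_antidiagonal_eq_sum_range_succ (fun i j =>
      (PowerSeries.coeff i) (ser (↑D - 1) (X a)) * (PowerSeries.coeff j) (ser (-↑D) (X v))) 1,
      Finset.sum_range_succ, Finset.sum_range_one]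
    simp only [coeff_ser, z1, zch_zero, Nat.sub_zero, Nat.sub_self]
    simp
    ring
  rw [c0, c1, mul_one]

/-- elimination of a crossed wire -/
theorem elim_crossed (u a v w : ℕ) (hw : w ≠ u) (D : ℕ) (f : MP) :
    elim u [(a, 0), (v, -2), (w, (D : ℤ))] f = sb u v (pderiv u (f * (X u - X w) ^ D)) := by
  rw [elim_zero_cons, elim_perm u (List.Perm.swap (w, (D : ℤ)) (v, -2) [])]
  have h := elim_add u w hw 0 D [(v, -2)] f
  rw [zero_add] at h
  rw [h, elim_zero_cons, elim_two]

/-- general elimination before a factor or after a crossing -/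
theorem elim_factor (u a v : ℕ) (ha : a ≠ u) (f : MP) :
    elim u [(a, 1), (v, -1)] f = sb u v (f * (X u - X a)) := by
  have h := elim_succ u a ha 0 [(v, -1)] f
  rw [zero_add] at h
  rw [h, elim_zero_cons, elim_one]

theorem elim_cancel (u a v : ℕ) (ha : a ≠ u) (D : ℕ) (hD : 1 ≤ D) (g : MP) :
    elim u [(a, 1 - (D : ℤ)), (v, -1)] (g * (X u - X a) ^ (D - 1)) = sb u v g := by
  have h := elim_add u a ha (1 - (D : ℤ)) (D - 1) [(v, -1)] g
  have e : 1 - (D : ℤ) + ((D - 1 : ℕ) : ℤ) = 0 := by omega
  rw [e] at h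
  rw [← h, elim_zero_cons, elim_one]

theorem run_add (L : ℕ → List (ℕ × ℤ)) (u k l : ℕ) (f : MP) :
    run L u (k + l) f = run L (u + k) l (run L u k f) := by
  induction k generalizing u f with
  | zero => simp [run]
  | succ k ih =>
    rw [show k + 1 + l = (k + l) + 1 by ring, run, run, ih]
    congr 1
    ring

theorem run_one (L : ℕ → List (ℕ × ℤ)) (u : ℕ) (f : MP) : run L u 1 f = elim u (L u) f := rfl

/-- simultaneous substitution for the vertices `u ≤ w < u + k` -/
noncomputable def sbs (u k : ℕ) (τ : ℕ → ℕ) : MP →ₐ[ℚ] MP :=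
  aeval fun w => if u ≤ w ∧ w < u + k then X (τ w) else X w

theorem run_transport (L : ℕ → List (ℕ × ℤ)) (τ : ℕ → ℕ) (u k : ℕ)
    (hL : ∀ w, u ≤ w → w < u + k → ∀ f, elim w (L w) f = sb w (τ w) f)
    (hτ : ∀ w, u ≤ w → w < u + k → u + k ≤ τ w) (f : MP) :
    run L u k f = sbs u k τ f := by
  induction k generalizing u f with
  | zero =>
    rw [run, sbs]
    have : (fun w => if u ≤ w ∧ w < u + 0 then (X (τ w) : MP) else X w) = X := by
      funext w
      rw [if_neg (by omega)]
    rw [this, aeval_X_left]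
    rfl
  | succ k ih =>
    rw [run, hL u le_rfl (by omega), ih (u + 1)
      (fun w h1 h2 => hL w (by omega) (by omega)) (fun w h1 h2 => by
        have := hτ w (by omega) (by omega)
        omega)]
    rw [sbs, sbs, sb, ← AlgHom.comp_apply]
    congr 1
    apply MvPolynomial.algHom_ext
    intro w
    rw [AlgHom.comp_apply, aeval_X, aeval_X]
    by_cases hw : w = u
    · subst hw
      rw [if_pos rfl, if_pos (by omega), aeval_X, if_neg]
      have := hτ w le_rfl (by omega)
      omega
    · rw [if_neg hw, aeval_X]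
      by_cases h2 : u + 1 ≤ w ∧ w < u + 1 + k
      · rw [if_pos h2, if_pos (by omega)]
      · rw [if_neg h2, if_neg (by omega)]

end Pool.Agent.H618R2.Skew
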