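import Pool.Agent.H618R2.Skew.T5a

/-!
# The shape of the list of blocks
-/

namespace Pool.Agent.H618R2.Skew

open Pool.Agent.H549R2.Convex

/-- default block -/
abbrev dB : Blk := (0, true, true)

/-- shape of a list of blocks on `V` wires -/
def OKl (V : ℕ) (l : List Blk) : Prop :=
  (∀ t < l.length, 1 ≤ (l.getD t dB).1 ∧ (l.getD t dB).1 < V ∧
    ((l.getD t dB).2.2 = true → (l.getD (t + 1) dB).2.1 = true) ∧
    ((l.getD t dB).2.2 = false → (l.getD (t + 1) dB).2.1 = false ∧
      (l.getD (t + 1) dB).1 = (l.getD t dB).1 + 1 ∧ (l.getD t dB).1 + 1 < V)) ∧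
    (l.getD 0 dB).2.1 = true

theorem OKl_nil (V : ℕ) : OKl V [] := ⟨fun t ht => absurd ht (Nat.not_lt_zero _), rfl⟩

theorem edgeBlocks_length (e : ℕ × ℕ) : (edgeBlocks e).length = e.2 - e.1 := by
  simp [edgeBlocks]

theorem edgeBlocks_getD (e : ℕ × ℕ) (l : List Blk) (t : ℕ) (ht : t < e.2 - e.1) :
    (edgeBlocks e ++ l).getD t dB = (e.1 + 1 + t, decide (t = 0), decide (e.1 + 1 + t = e.2)) := by
  rw [List.getD_append _ _ _ _ (by rw [edgeBlocks_length]; exact ht)]
  rw [List.getD_eq_getElem _ _ (by rw [edgeBlocks_length]; exact ht)]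
  simp [edgeBlocks]

theorem OKl_append (V : ℕ) (e : ℕ × ℕ) (h1 : e.1 < e.2) (h2 : e.2 < V) (l : List Blk)
    (hl : OKl V l) : OKl V (edgeBlocks e ++ l) := by
  have hlen := edgeBlocks_length e
  have key : ∀ t, e.2 - e.1 ≤ t → (edgeBlocks e ++ l).getD t dB = l.getD (t - (e.2 - e.1)) dB := by
    intro t ht
    rw [List.getD_append_right _ _ _ _ (by rw [hlen]; exact ht), hlen]
  refine ⟨fun t ht => ?_, ?_⟩
  · rw [List.length_append, hlen] at ht
    by_cases h : t < e.2 - e.1
    · rw [edgeBlocks_getD e l t h]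
      refine ⟨by simp only; omega, by simp only; omega, ?_, ?_⟩
      · intro h3
        simp only [decide_eq_true_eq] at h3
        rw [key (t + 1) (by omega)]
        have : t + 1 - (e.2 - e.1) = 0 := by omega
        rw [this]
        exact hl.2
      · intro h3
        simp only [decide_eq_false_iff_not] at h3
        rw [edgeBlocks_getD e l (t + 1) (by omega)]
        refine ⟨?_, ?_, ?_⟩
        · simp
        · simp only; omega
        · simp only; omega
    · rw [key t (by omega), key (t + 1) (by omega)]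
      have : t + 1 - (e.2 - e.1) = (t - (e.2 - e.1)) + 1 := by omega
      rw [this]
      exact hl.1 _ (by omega)
  · rw [edgeBlocks_getD e l 0 (by omega)]
    simp

theorem edgesE_mem (A : List (List Bool)) (e : ℕ × ℕ) (he : e ∈ edgesE A) :
    e.1 < A.length ∧ A.length ≤ e.2 ∧ e.2 < 2 * A.length := by
  rw [edgesE, List.mem_flatMap] at he
  obtain ⟨i, hi, he⟩ := he
  rw [List.mem_map] at he
  obtain ⟨j, hj, rfl⟩ := he
  rw [List.mem_filter, List.mem_range] at hj
  rw [List.mem_range] at hi
  refine ⟨hi, by simp only; omega, by simp only; omega⟩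

theorem OKl_blocks (A : List (List Bool)) : OKl (2 * A.length) (blocks A) := by
  rw [blocks]
  have h : ∀ e ∈ edgesE A, e.1 < e.2 ∧ e.2 < 2 * A.length := fun e he => by
    have := edgesE_mem A e he
    omega
  revert h
  generalize edgesE A = l
  intro h
  induction l with
  | nil => exact OKl_nil _
  | cons e l ih =>
    rw [List.flatMap_cons]
    have he := h e (by simp)
    exact OKl_append _ e he.1 he.2 _ (ih fun e' he' => h e' (by simp [he']))

theorem blk_facts (A : List (List Bool)) (t : ℕ) (ht : t < nB A) :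
    1 ≤ (blk A t).1 ∧ (blk A t).1 < 2 * A.length ∧
    ((blk A t).2.2 = true → (blk A (t + 1)).2.1 = true) ∧
    ((blk A t).2.2 = false → (blk A (t + 1)).2.1 = false ∧
      (blk A (t + 1)).1 = (blk A t).1 + 1 ∧ (blk A t).1 + 1 < 2 * A.length) :=
  (OKl_blocks A).1 t ht

theorem blk_zero (A : List (List Bool)) : (blk A 0).2.1 = true := (OKl_blocks A).2

theorem blk_big (A : List (List Bool)) (t : ℕ) (ht : nB A ≤ t) : blk A t = (0, true, true) := by
  rw [blk, List.getD_eq_default _ _ ht]

end Pool.Agent.H618R2.Skew
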