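import Pool.Agent.H618R2.Skew.T5b

/-!
# Elimination of one block at `M = 0`
-/

namespace Pool.Agent.H618R2.Skew

open MvPolynomial Finset Pool.Agent.H549R2.Convex

/-- position of wire `v` when the messenger is at position `p` -/
def pos (p v : ℕ) : ℕ := if v < p then v else v + 1

theorem pos_ne (p v : ℕ) : pos p v ≠ p := by unfold pos; split_ifs <;> omega

theorem pos_inj (p v w : ℕ) (h : pos p v = pos p w) : v = w := by
  unfold pos at h; split_ifs at h <;> omega

theorem pos_lt (p v V : ℕ) (hv : v < V) : pos p v < V + 1 := by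
  unfold pos; split_ifs <;> omega

/-- the wires after the elimination of the positions `< j` of block `t` -/
noncomputable def mx (V t p p' j : ℕ) : MP →ₐ[ℚ] MP :=
  aeval fun v => if v < V then (if pos p v < j then X ((t + 1) * (V + 1) + pos p' v)
    else X (t * (V + 1) + pos p v)) else 0

theorem mx_X (V t p p' j v : ℕ) (hv : v < V) : mx V t p p' j (X v) =
    if pos p v < j then X ((t + 1) * (V + 1) + pos p' v) else X (t * (V + 1) + pos p v) := by
  rw [mx, aeval_X, if_pos hv]

theorem mx_X_ge (V t p p' j v : ℕ) (hv : ¬ v < V) : mx V t p p' j (X v) = 0 := by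
  rw [mx, aeval_X, if_neg hv]

theorem mx_last (V t p p' q : ℕ) : mx V t p p' (V + 1) = mx V (t + 1) p' q 0 := by
  apply MvPolynomial.algHom_ext
  intro v
  by_cases hv : v < V
  · rw [mx_X _ _ _ _ _ _ hv, mx_X _ _ _ _ _ _ hv, if_pos (pos_lt p v V hv), if_neg (by omega)]
  · rw [mx_X_ge _ _ _ _ _ _ hv, mx_X_ge _ _ _ _ _ _ hv]

theorem mx_zero_indep (V t p q q' : ℕ) : mx V t p q 0 = mx V t p q' 0 := by
  apply MvPolynomial.algHom_ext
  intro v
  by_cases hv : v < V
  · rw [mx_X _ _ _ _ _ _ hv, mx_X _ _ _ _ _ _ hv, if_neg (by omega), if_neg (by omega)]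
  · rw [mx_X_ge _ _ _ _ _ _ hv, mx_X_ge _ _ _ _ _ _ hv]

theorem mx_succ (V t p p' : ℕ) : mx V t p p' (p + 1) = mx V t p p' p := by
  apply MvPolynomial.algHom_ext
  intro v
  by_cases hv : v < V
  · rw [mx_X _ _ _ _ _ _ hv, mx_X _ _ _ _ _ _ hv]
    have h := pos_ne p v
    by_cases h2 : pos p v < p
    · rw [if_pos h2, if_pos (by omega)]
    · rw [if_neg h2, if_neg (by omega)]
  · rw [mx_X_ge _ _ _ _ _ _ hv, mx_X_ge _ _ _ _ _ _ hv]

theorem sbs_X (u k : ℕ) (τ : ℕ → ℕ) (w : ℕ) :
    sbs u k τ (X w) = if u ≤ w ∧ w < u + k then X (τ w) else X w := by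
  rw [sbs, aeval_X]

theorem block_lt (V t : ℕ) : (t + 1) * (V + 1) = t * (V + 1) + (V + 1) := by ring

/-- simultaneous transport of the positions `j ≤ i < j + k` -/
theorem sbs_mx (V t p p' j k : ℕ) (τ : ℕ → ℕ) (hjk : j + k ≤ V + 1)
    (hτ : ∀ v < V, j ≤ pos p v → pos p v < j + k →
      τ (t * (V + 1) + pos p v) = (t + 1) * (V + 1) + pos p' v) (P : MP) :
    sbs (t * (V + 1) + j) k τ (mx V t p p' j P) = mx V t p p' (j + k) P := by
  rw [← AlgHom.comp_apply]
  congr 1
  apply MvPolynomial.algHom_ext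
  intro v
  rw [AlgHom.comp_apply]
  have hb := block_lt V t
  by_cases hv : v < V
  · rw [mx_X _ _ _ _ _ _ hv, mx_X _ _ _ _ _ _ hv]
    by_cases h1 : pos p v < j
    · rw [if_pos h1, if_pos (by omega), sbs_X, if_neg (by omega)]
    · rw [if_neg h1, sbs_X]
      by_cases h2 : pos p v < j + k
      · rw [if_pos (by omega), if_pos h2, hτ v hv (by omega) h2]
      · rw [if_neg (by omega), if_neg h2]
  · rw [mx_X_ge _ _ _ _ _ _ hv, mx_X_ge _ _ _ _ _ _ hv, map_zero]

theorem sb_eq_sbs (u : ℕ) (τ : ℕ → ℕ) : sb u (τ u) = sbs u 1 τ := by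
  apply MvPolynomial.algHom_ext
  intro w
  rw [sbs_X, sb, aeval_X]
  by_cases h : w = u
  · subst h
    rw [if_pos rfl, if_pos (by omega)]
  · rw [if_neg h, if_neg (by omega)]

theorem sep_mx (V t p p' j w : ℕ) (hw : ∀ v < V, w ≠ (t + 1) * (V + 1) + pos p' v)
    (hw2 : ∀ v < V, w ≠ t * (V + 1) + pos p v) (P : MP) :
    sep w (mx V t p p' j P) = Polynomial.C (mx V t p p' j P) := by
  have h : (sep w).comp (mx V t p p' j) =
      ((Polynomial.CAlgHom : MP →ₐ[MP] Polynomial MP).restrictScalars ℚ).comp (mx V t p p' j) := by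
    apply MvPolynomial.algHom_ext
    intro v
    rw [AlgHom.comp_apply, AlgHom.comp_apply]
    by_cases hv : v < V
    · rw [mx_X _ _ _ _ _ _ hv]
      by_cases h1 : pos p v < j
      · rw [if_pos h1, sep_X_ne _ _ (fun h => hw v hv h.symm)]
        rfl
      · rw [if_neg h1, sep_X_ne _ _ (fun h => hw2 v hv h.symm)]
        rfl
    · rw [mx_X_ge _ _ _ _ _ _ hv]
      simp
  exact DFunLike.congr_fun h P

/-- the derivative with respect to the potential of the crossed wire -/
theorem pderiv_mx (V t p p' : ℕ) (hp : p < V) (P : MP) :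
    pderiv (t * (V + 1) + (p + 1)) (mx V t p p' p P) = mx V t p p' p (pderiv p P) := by
  have hb := block_lt V t
  have hpp : pos p p = p + 1 := by unfold pos; rw [if_neg (by omega)]
  induction P using MvPolynomial.induction_on with
  | C a =>
    rw [pderiv_C, map_zero]
    have : mx V t p p' p (C a) = C a := by
      rw [mx, ← algebraMap_eq, AlgHom.commutes]
    rw [this, pderiv_C]
  | add P Q hP hQ => rw [map_add, map_add, map_add, map_add, hP, hQ]
  | mul_X P v hP =>
    rw [map_mul, Derivation.leibniz, hP, Derivation.leibniz, map_add, smul_eq_mul, smul_eq_mul,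
      smul_eq_mul, smul_eq_mul, map_mul, map_mul]
    congr 2
    by_cases hv : v < V
    · rw [mx_X _ _ _ _ _ _ hv]
      by_cases hvp : v = p
      · subst hvp
        rw [hpp, if_neg (by omega), pderiv_X_self, pderiv_X_self, map_one]
      · rw [pderiv_X_of_ne (fun h => hvp h), map_zero]
        have h3 : pos p v ≠ p + 1 := by
          intro h
          rw [← hpp] at h
          exact hvp (pos_inj p v p h)
        by_cases h1 : pos p v < p
        · rw [if_pos h1, pderiv_X_of_ne (by omega)]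
        · rw [if_neg h1, pderiv_X_of_ne (by omega)]
    · rw [mx_X_ge _ _ _ _ _ _ hv, map_zero, pderiv_X_of_ne (by omega), map_zero]

/-- the polynomial before the elimination of block `t` -/
noncomputable def raw (V D t : ℕ) (b : Blk) (s : MP × MP) : MP :=
  (mx V t b.1 0 0 s.1 + X (t * (V + 1) + b.1) * mx V t b.1 0 0 s.2) *
    (if b.2.1 = true then 1 else
      (X (t * (V + 1) + (b.1 - 1)) - X (t * (V + 1) + b.1)) ^ (D - 1))

section Data

variable (A : List (List Bool))

theorem wd_eq : wd A = 2 * A.length + 1 := rfl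

theorem Lz_block (D t i : ℕ) (ht : t < nB A) (hi : i < wd A) :
    Lz A D 0 (t * wd A + i) =
      (t * wd A + i + 1, (bm D (blk A t) i : ℤ) - bp D (blk A t) i - 1) ::
      ((t + 1) * wd A + ta (blk A t) (blk A (t + 1)).1 i, -(am D (blk A t) i : ℤ)) ::
      (if (blk A t).2.2 = false ∧ i = (blk A t).1 + 1 then
        [((t + 1) * wd A + (blk A t).1 + 1, (D : ℤ))] else []) := by
  have hW : 0 < wd A := by rw [wd_eq]; omega
  have h1 : (t * wd A + i) / wd A = t := by
    rw [add_comm, Nat.add_mul_div_right _ _ hW, Nat.div_eq_of_lt hi, zero_add]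
  have h2 : (t * wd A + i) % wd A = i := by
    rw [add_comm, Nat.add_mul_mod_self_right, Nat.mod_eq_of_lt hi]
  unfold Lz mainT mainA exL colP colM
  rw [h1, h2, if_pos ht, if_pos ht]
  congr 2
  · rw [mul_zero]
    ring_nf
  · rw [mul_zero, zero_sub]
  · split_ifs <;> simp

end Data

end Pool.Agent.H618R2.Skew
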