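import Pool.Agent.H618R2.Skew.T5c

/-!
# Elimination of one block at `M = 0`: the theorem
-/

namespace Pool.Agent.H618R2.Skew

open MvPolynomial Finset Pool.Agent.H549R2.Convex

variable (A : List (List Bool))

/-- ordinary positions are transported -/
theorem elim_ordinary (D t i : ℕ) (ht : t < nB A) (hi : i < wd A) (h1 : i + 1 ≠ (blk A t).1)
    (h2 : (blk A t).2.2 = true ∨ (i ≠ (blk A t).1 ∧ i ≠ (blk A t).1 + 1)) (f : MP) :
    elim (t * wd A + i) (Lz A D 0 (t * wd A + i)) f =
      sb (t * wd A + i) ((t + 1) * wd A + ta (blk A t) (blk A (t + 1)).1 i) f := by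
  rw [Lz_block A D t i ht hi]
  have e1 : (bm D (blk A t) i : ℤ) - bp D (blk A t) i - 1 = 0 := by
    have hbm : bm D (blk A t) i = 1 := by
      rw [bm, if_neg h1, if_neg]
      rintro ⟨h3, h4⟩
      rcases h2 with h2 | h2
      · rw [h2] at h3; exact absurd h3 (by simp)
      · exact h2.1 h4
    have hbp : bp D (blk A t) i = 0 := by
      rw [bp, if_neg]
      rintro ⟨_, h4⟩
      exact h1 h4
    rw [hbm, hbp]; simp
  have e2 : (am D (blk A t) i : ℤ) = 1 := by
    have : am D (blk A t) i = 1 := by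
      rw [am]
      rcases h2 with h2 | h2
      · rw [if_pos h2]
      · rw [if_neg h2.1, if_neg h2.2, ite_self]
    rw [this]; simp
  have e3 : ¬ ((blk A t).2.2 = false ∧ i = (blk A t).1 + 1) := by
    rintro ⟨h3, h4⟩
    rcases h2 with h2 | h2
    · rw [h2] at h3; exact absurd h3 (by simp)
    · exact h2.2 h4
  rw [e1, e2, if_neg e3]
  exact elim_transport _ _ _ _

/-- transport of the positions `j ≤ i < j + k` -/
theorem run_ordinary (D t j k : ℕ) (ht : t < nB A) (hjk : j + k ≤ wd A)
    (h : ∀ i, j ≤ i → i < j + k → i + 1 ≠ (blk A t).1 ∧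
      ((blk A t).2.2 = true ∨ (i ≠ (blk A t).1 ∧ i ≠ (blk A t).1 + 1))) (f : MP) :
    run (Lz A D 0) (t * wd A + j) k f =
      sbs (t * wd A + j) k (fun w => (t + 1) * wd A +
        ta (blk A t) (blk A (t + 1)).1 (w - t * wd A)) f := by
  refine run_transport _ _ _ _ ?_ ?_ f
  · intro w h1 h2 g
    obtain ⟨i, rfl⟩ : ∃ i, w = t * wd A + i := ⟨w - t * wd A, by omega⟩
    rw [Nat.add_sub_cancel_left]
    have h3 := h i (by omega) (by omega)
    exact elim_ordinary A D t i ht (by omega) h3.1 h3.2 g
  · intro w _ _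
    have : (t + 1) * wd A = t * wd A + wd A := by ring
    omega

/-- the pair after the first part of a block -/
noncomputable def s1 (b : Blk) (s : MP × MP) : MP × MP :=
  if b.2.1 = true then (X (b.1 - 1) * s.1, -s.1) else s

theorem stepB_eq (D : ℕ) (b : Blk) (s : MP × MP) : stepB D b s =
    if b.2.2 = true then ((s1 b s).1 + X b.1 * (s1 b s).2, 0)
    else (C (D : ℚ) * (s1 b s).1 + X b.1 * pderiv b.1 ((s1 b s).1 + X b.1 * (s1 b s).2),
      C (D : ℚ) * (s1 b s).2 - pderiv b.1 ((s1 b s).1 + X b.1 * (s1 b s).2)) := rfl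

/-- target positions of the wires -/
theorem ta_pos (t v : ℕ) (ht : t < nB A) (hv : v < 2 * A.length) :
    ta (blk A t) (blk A (t + 1)).1 (pos (blk A t).1 v) = pos (blk A (t + 1)).1 v := by
  have hf := blk_facts A t ht
  cases h1 : (blk A t).2.2 with
  | true =>
    rw [ta, if_pos h1]
    unfold pos
    split_ifs <;> omega
  | false =>
    have h7 := hf.2.2.2 h1
    rw [ta, if_neg (by rw [h1]; simp), h7.2.1]
    unfold pos
    split_ifs <;> omega

theorem ta_mess (t : ℕ) (h : (blk A t).2.2 = true) :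
    ta (blk A t) (blk A (t + 1)).1 (blk A t).1 = pos (blk A (t + 1)).1 (blk A t).1 := by
  rw [ta, if_pos h, pos]
  simp

/-- elimination of the positions before the messenger -/
theorem run_first (D t : ℕ) (ht : t < nB A) (hD : 1 ≤ D) (s : MP × MP)
    (hs : (blk A t).2.1 = true → s.2 = 0) :
    run (Lz A D 0) (t * wd A) (blk A t).1 (raw (2 * A.length) D t (blk A t) s) =
      mx (2 * A.length) t (blk A t).1 (blk A (t + 1)).1 (blk A t).1 (s1 (blk A t) s).1 +
      X (t * wd A + (blk A t).1) *
        mx (2 * A.length) t (blk A t).1 (blk A (t + 1)).1 (blk A t).1 (s1 (blk A t) s).2 := by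
  have hf := blk_facts A t ht
  set p := (blk A t).1 with hp
  set q := (blk A (t + 1)).1 with hq
  have hW : wd A = 2 * A.length + 1 := rfl
  obtain ⟨k, hk⟩ : ∃ k, p = k + 1 := ⟨p - 1, by omega⟩
  have htau : ∀ v < 2 * A.length, (fun w => (t + 1) * wd A +
      ta (blk A t) q (w - t * wd A)) (t * (2 * A.length + 1) + pos p v) =
      (t + 1) * (2 * A.length + 1) + pos q v := by
    intro v hv
    show (t + 1) * wd A + ta (blk A t) q (t * (2 * A.length + 1) + pos p v - t * wd A) =
      (t + 1) * (2 * A.length + 1) + pos q v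
    rw [hW, Nat.add_sub_cancel_left, hp, hq, ta_pos A t v ht hv]
  -- positions < p - 1
  have hfirst : ∀ f, run (Lz A D 0) (t * wd A) p f =
      elim (t * wd A + k) (Lz A D 0 (t * wd A + k)) (sbs (t * wd A) k (fun w => (t + 1) * wd A +
        ta (blk A t) q (w - t * wd A)) f) := by
    intro f
    rw [hk, run_add, run_one]
    congr 1
    have h := run_ordinary A D t 0 k ht (by omega) (fun i _ h2 => ⟨by omega, Or.inr
      ⟨by omega, by omega⟩⟩) f
    rw [Nat.add_zero] at h
    exact h
  rw [hfirst]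
  have hsbs : ∀ P : MP, sbs (t * wd A) k (fun w => (t + 1) * wd A +
        ta (blk A t) q (w - t * wd A)) (mx (2 * A.length) t p 0 0 P) =
      mx (2 * A.length) t p q k P := by
    intro P
    have h := sbs_mx (2 * A.length) t p q 0 k (fun w => (t + 1) * wd A +
        ta (blk A t) q (w - t * wd A)) (by omega) (fun v hv _ _ => htau v hv) P
    rw [Nat.add_zero, Nat.zero_add, ← hW] at h
    rw [mx_zero_indep _ _ _ 0 q]
    exact h
  have hmid : ∀ P : MP, sb (t * wd A + k) ((t + 1) * wd A + ta (blk A t) q k)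
      (mx (2 * A.length) t p q k P) = mx (2 * A.length) t p q p P := by
    intro P
    have h := sbs_mx (2 * A.length) t p q k 1 (fun w => (t + 1) * wd A +
        ta (blk A t) q (w - t * wd A)) (by omega) (fun v hv _ _ => htau v hv) P
    rw [← sb_eq_sbs, ← hW, Nat.add_sub_cancel_left, ← hk] at h
    exact h
  have hXp : sbs (t * wd A) k (fun w => (t + 1) * wd A +
        ta (blk A t) q (w - t * wd A)) (X (t * wd A + p)) = X (t * wd A + p) := by
    rw [sbs_X, if_neg (by omega)]
  have hXk : sbs (t * wd A) k (fun w => (t + 1) * wd A +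
        ta (blk A t) q (w - t * wd A)) (X (t * wd A + k)) = X (t * wd A + k) := by
    rw [sbs_X, if_neg (by omega)]
  have hXp' : sb (t * wd A + k) ((t + 1) * wd A + ta (blk A t) q k) (X (t * wd A + p)) =
      X (t * wd A + p) := sb_X_ne _ _ _ (by omega)
  have hpk : p - 1 = k := by omega
  have hnc : ¬ ((blk A t).2.2 = false ∧ k = (blk A t).1 + 1) := by
    rintro ⟨_, h⟩
    omega
  have hbm : bm D (blk A t) k = 2 := by
    rw [bm, if_pos (by omega)]
  have ham : am D (blk A t) k = 1 := by
    rw [am]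
    split_ifs <;> omega
  have e3 : t * wd A + k + 1 = t * wd A + p := by omega
  have e2 : -((1 : ℕ) : ℤ) = -1 := by norm_num
  rw [Lz_block A D t k ht (by omega), if_neg hnc, hbm, ham, e2, e3, ← hq]
  unfold raw
  rw [← hp, hpk, ← hW]
  cases hfst : (blk A t).2.1 with
  | true =>
    have hs2 : s.2 = 0 := hs hfst
    have hbp : bp D (blk A t) k = 0 := by
      rw [bp, if_neg]
      rintro ⟨h, _⟩
      rw [hfst] at h
      exact absurd h (by simp)
    have e1 : ((2 : ℕ) : ℤ) - ((0 : ℕ) : ℤ) - 1 = 1 := by norm_num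
    rw [hbp, if_pos rfl, hs2, map_zero, mul_zero, add_zero, mul_one, hsbs, e1,
      elim_factor _ _ _ (by omega)]
    have hXk2 : (X (t * wd A + k) : MP) = mx (2 * A.length) t p q k (X k) := by
      rw [mx_X _ _ _ _ _ _ (by omega)]
      have : pos p k = k := by unfold pos; rw [if_pos (by omega)]
      rw [this, if_neg (by omega), ← hW]
    have e4 : mx (2 * A.length) t p q k s.1 * (X (t * wd A + k) - X (t * wd A + p)) =
        mx (2 * A.length) t p q k (X k * s.1) -
          X (t * wd A + p) * mx (2 * A.length) t p q k s.1 := by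
      rw [map_mul, ← hXk2]
      ring
    have es1 : s1 (blk A t) s = (X k * s.1, -s.1) := by
      rw [s1, if_pos hfst, ← hp, hpk]
    rw [e4, map_sub, map_mul (sb (t * wd A + k) ((t + 1) * wd A + ta (blk A t) q k))
      (X (t * wd A + p)), hmid, hmid, hXp', es1]
    simp only [map_neg]
    ring
  | false =>
    have hbp : bp D (blk A t) k = D := by
      rw [bp, if_pos ⟨hfst, by omega⟩]
    have e1 : ((2 : ℕ) : ℤ) - (D : ℤ) - 1 = 1 - (D : ℤ) := by push_cast; ring
    have es1 : s1 (blk A t) s = s := by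
      rw [s1, if_neg (by rw [hfst]; simp)]
    rw [hbp, if_neg (by simp), map_mul, map_add, map_mul, map_pow, map_sub, hsbs, hsbs, hXp,
      hXk, e1, elim_cancel _ _ _ (by omega) D hD, map_add, map_mul, hmid, hmid, hXp', es1]

end Pool.Agent.H618R2.Skew
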