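import Pool.Agent.H618R2.Skew.T5d

/-!
# Elimination of one block at `M = 0`: the theorem, second part
-/

namespace Pool.Agent.H618R2.Skew

open MvPolynomial Finset Pool.Agent.H549R2.Convex

variable (A : List (List Bool))

/-- the last block of an edge -/
theorem run_block_last (D t : ℕ) (ht : t < nB A) (hD : 1 ≤ D) (s : MP × MP)
    (hs : (blk A t).2.1 = true → s.2 = 0) (hl : (blk A t).2.2 = true) :
    run (Lz A D 0) (t * wd A) (wd A) (raw (2 * A.length) D t (blk A t) s) =
      raw (2 * A.length) D (t + 1) (blk A (t + 1)) (stepB D (blk A t) s) := by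
  have hf := blk_facts A t ht
  have hW : wd A = 2 * A.length + 1 := rfl
  obtain ⟨m, hm⟩ : ∃ m, wd A = (blk A t).1 + m := ⟨wd A - (blk A t).1, by omega⟩
  have h1 : run (Lz A D 0) (t * wd A) (wd A) (raw (2 * A.length) D t (blk A t) s) =
      run (Lz A D 0) (t * wd A + (blk A t).1) m
        (run (Lz A D 0) (t * wd A) (blk A t).1 (raw (2 * A.length) D t (blk A t) s)) := by
    rw [← run_add, ← hm]
  rw [h1, run_first A D t ht hD s hs, run_ordinary A D t (blk A t).1 m ht (by omega)
    (fun i h2 _ => ⟨by omega, Or.inl hl⟩), map_add, map_mul]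
  have hτ : ∀ v < 2 * A.length, (blk A t).1 ≤ pos (blk A t).1 v →
      pos (blk A t).1 v < (blk A t).1 + m →
      (fun w => (t + 1) * wd A + ta (blk A t) (blk A (t + 1)).1 (w - t * wd A))
        (t * (2 * A.length + 1) + pos (blk A t).1 v) =
      (t + 1) * (2 * A.length + 1) + pos (blk A (t + 1)).1 v := by
    intro v hv _ _
    show (t + 1) * wd A + ta (blk A t) (blk A (t + 1)).1
      (t * (2 * A.length + 1) + pos (blk A t).1 v - t * wd A) = _
    rw [hW, Nat.add_sub_cancel_left, ta_pos A t v ht hv]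
  have h2 : ∀ P : MP, sbs (t * wd A + (blk A t).1) m (fun w => (t + 1) * wd A +
      ta (blk A t) (blk A (t + 1)).1 (w - t * wd A))
      (mx (2 * A.length) t (blk A t).1 (blk A (t + 1)).1 (blk A t).1 P) =
      mx (2 * A.length) (t + 1) (blk A (t + 1)).1 0 0 P := by
    intro P
    have h := sbs_mx (2 * A.length) t (blk A t).1 (blk A (t + 1)).1 (blk A t).1 m (fun w =>
      (t + 1) * wd A + ta (blk A t) (blk A (t + 1)).1 (w - t * wd A)) (by omega) hτ P
    rw [← hW] at h
    rw [h, ← hm, hW, mx_last _ _ _ _ 0]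
  rw [h2, h2, sbs_X, if_pos (by omega), Nat.add_sub_cancel_left, ta_mess A t hl]
  have hX : (X ((t + 1) * wd A + pos (blk A (t + 1)).1 (blk A t).1) : MP) =
      mx (2 * A.length) (t + 1) (blk A (t + 1)).1 0 0 (X (blk A t).1) := by
    rw [mx_X _ _ _ _ _ _ hf.2.1, if_neg (by omega), hW]
  rw [hX, stepB_eq, if_pos hl]
  unfold raw
  rw [if_pos (hf.2.2.1 hl), map_zero, map_add, map_mul]
  ring

theorem ta_cross (b : Blk) (q : ℕ) (h : b.2.2 = false) : ta b q b.1 = b.1 := by
  rw [ta, if_neg (by rw [h]; simp), if_neg (by omega)]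

theorem ta_cross' (b : Blk) (q : ℕ) (h : b.2.2 = false) : ta b q (b.1 + 1) = b.1 := by
  rw [ta, if_neg (by rw [h]; simp), if_pos rfl]

/-- a crossing -/
theorem run_block_cross (D t : ℕ) (ht : t < nB A) (hD : 1 ≤ D) (s : MP × MP)
    (hs : (blk A t).2.1 = true → s.2 = 0) (hl : (blk A t).2.2 = false) :
    run (Lz A D 0) (t * wd A) (wd A) (raw (2 * A.length) D t (blk A t) s) =
      raw (2 * A.length) D (t + 1) (blk A (t + 1)) (stepB D (blk A t) s) := by
  have hf := blk_facts A t ht
  have hW : wd A = 2 * A.length + 1 := rfl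
  have hW1 : (t + 1) * wd A = t * wd A + wd A := by ring
  obtain ⟨hf1, hq, hp2⟩ := hf.2.2.2 hl
  obtain ⟨m, hm⟩ : ∃ m, wd A = (blk A t).1 + (1 + (1 + m)) := ⟨wd A - (blk A t).1 - 2, by omega⟩
  have h1 : run (Lz A D 0) (t * wd A) (wd A) (raw (2 * A.length) D t (blk A t) s) =
      run (Lz A D 0) (t * wd A + ((blk A t).1 + 2)) m
        (elim (t * wd A + ((blk A t).1 + 1)) (Lz A D 0 (t * wd A + ((blk A t).1 + 1)))
          (elim (t * wd A + (blk A t).1) (Lz A D 0 (t * wd A + (blk A t).1))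
            (run (Lz A D 0) (t * wd A) (blk A t).1 (raw (2 * A.length) D t (blk A t) s)))) := by
    rw [← run_one, ← run_one]
    rw [show t * wd A + ((blk A t).1 + 2) = t * wd A + ((blk A t).1 + 1) + 1 by ring, ← run_add,
      show t * wd A + ((blk A t).1 + 1) = t * wd A + (blk A t).1 + 1 by ring, ← run_add,
      ← run_add, ← hm]
  have hpp : pos (blk A t).1 (blk A t).1 = (blk A t).1 + 1 := by unfold pos; rw [if_neg (by omega)]
  have hqp : pos (blk A (t + 1)).1 (blk A t).1 = (blk A t).1 := by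
    unfold pos; rw [if_pos (by omega)]
  rw [h1, run_first A D t ht hD s hs]
  generalize hP : (s1 (blk A t) s).1 = P
  generalize hQ : (s1 (blk A t) s).2 = Q
  have hst : stepB D (blk A t) s =
      (C (D : ℚ) * P + X (blk A t).1 * pderiv (blk A t).1 (P + X (blk A t).1 * Q),
        C (D : ℚ) * Q - pderiv (blk A t).1 (P + X (blk A t).1 * Q)) := by
    rw [stepB_eq, if_neg (by rw [hl]; simp), hP, hQ]
  generalize hR : pderiv (blk A t).1 (P + X (blk A t).1 * Q) = R at hst
  have hR2 : R = pderiv (blk A t).1 P + Q + X (blk A t).1 * pderiv (blk A t).1 Q := by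
    rw [← hR, map_add, Derivation.leibniz, pderiv_X_self, smul_eq_mul, smul_eq_mul]
    ring
  -- elimination of the messenger
  have hL0 : Lz A D 0 (t * wd A + (blk A t).1) =
      [(t * wd A + ((blk A t).1 + 1), (D : ℤ) - 1), ((t + 1) * wd A + (blk A t).1, -(D : ℤ))] := by
    have hbm : bm D (blk A t) (blk A t).1 = D := by
      rw [bm, if_neg (by omega), if_pos ⟨hl, rfl⟩]
    have hbp : bp D (blk A t) (blk A t).1 = 0 := by
      rw [bp, if_neg (by rintro ⟨_, h⟩; omega)]
    have ham : am D (blk A t) (blk A t).1 = D := by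
      rw [am, if_neg (by rw [hl]; simp), if_pos rfl]
    rw [Lz_block A D t _ ht (by omega), hbm, hbp, ham, ta_cross _ _ hl,
      if_neg (by rintro ⟨_, h⟩; omega)]
    simp [add_assoc]
  have hfree : ∀ P : MP, sep (t * wd A + (blk A t).1)
      (mx (2 * A.length) t (blk A t).1 (blk A (t + 1)).1 (blk A t).1 P) =
      Polynomial.C (mx (2 * A.length) t (blk A t).1 (blk A (t + 1)).1 (blk A t).1 P) := by
    intro P
    apply sep_mx
    · intro v hv
      rw [hW] at *
      omega
    · intro v hv h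
      rw [← hW] at h
      exact pos_ne (blk A t).1 v (by omega)
  rw [hL0, elim_messenger _ _ _ D _ _ (hfree P) (hfree Q)]
  -- elimination of the crossed wire
  have hL1 : Lz A D 0 (t * wd A + ((blk A t).1 + 1)) =
      [(t * wd A + ((blk A t).1 + 2), 0), ((t + 1) * wd A + (blk A t).1, -2),
        ((t + 1) * wd A + ((blk A t).1 + 1), (D : ℤ))] := by
    have hbm : bm D (blk A t) ((blk A t).1 + 1) = 1 := by
      rw [bm, if_neg (by omega), if_neg (by rintro ⟨_, h⟩; omega)]
    have hbp : bp D (blk A t) ((blk A t).1 + 1) = 0 := by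
      rw [bp, if_neg (by rintro ⟨_, h⟩; omega)]
    have ham : am D (blk A t) ((blk A t).1 + 1) = 2 := by
      rw [am, if_neg (by rw [hl]; simp), if_neg (by omega), if_pos rfl]
    rw [Lz_block A D t _ ht (by omega), hbm, hbp, ham, ta_cross' _ _ hl, if_pos ⟨hl, rfl⟩]
    congr 2
  rw [hL1, elim_crossed _ _ _ _ (by omega)]
  set u := t * wd A + ((blk A t).1 + 1) with hu
  set l := (t + 1) * wd A + (blk A t).1 with hll
  set r := (t + 1) * wd A + ((blk A t).1 + 1) with hrr
  set p := (blk A t).1 with hp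
  have hpd : ∀ P : MP, pderiv u (mx (2 * A.length) t p (blk A (t + 1)).1 p P) =
      mx (2 * A.length) t p (blk A (t + 1)).1 p (pderiv p P) := by
    intro P
    rw [hu, hW]
    exact pderiv_mx _ _ _ _ hf.2.1 P
  have hlu : l ≠ u := by omega
  have hru : r ≠ u := by omega
  -- transport of the crossed wire
  have hsb : ∀ P : MP, sb u l (mx (2 * A.length) t p (blk A (t + 1)).1 p P) =
      mx (2 * A.length) t p (blk A (t + 1)).1 (p + 2) P := by
    intro P
    rw [← mx_succ]
    have h := sbs_mx (2 * A.length) t p (blk A (t + 1)).1 (p + 1) 1 (fun _ => l) (by omega)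
      (by
        intro v hv h3 h4
        have : v = p := pos_inj p v p (by omega)
        rw [this, hqp, hll, hW]) P
    rw [← hW, ← hu, ← sb_eq_sbs u (fun _ => l)] at h
    exact h
  have hXl : (X l : MP) = mx (2 * A.length) t p (blk A (t + 1)).1 (p + 2) (X p) := by
    rw [mx_X _ _ _ _ _ _ hf.2.1, hpp, if_pos (by omega), hqp, hll, hW]
  have hDp : ∀ D : ℕ, 1 ≤ D → ∀ f : MP, pderiv u (f * (X u - X r) ^ D) =
      (X u - X r) ^ (D - 1) * (pderiv u f * (X u - X r) + C (D : ℚ) * f) := by
    intro D hD f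
    obtain ⟨e, rfl⟩ : ∃ e, D = e + 1 := ⟨D - 1, by omega⟩
    rw [Derivation.leibniz, Derivation.leibniz_pow, map_sub, pderiv_X_self,
      pderiv_X_of_ne hru.symm.symm, Nat.add_sub_cancel]
    simp only [smul_eq_mul, nsmul_eq_mul, sub_zero, mul_one]
    rw [map_natCast]
    ring
  have hg : pderiv u (mx (2 * A.length) t p (blk A (t + 1)).1 p P +
      mx (2 * A.length) t p (blk A (t + 1)).1 p Q * (C (D : ℚ) * X l - (C (D : ℚ) - 1) * X u)) =
      mx (2 * A.length) t p (blk A (t + 1)).1 p (pderiv p P) +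
      mx (2 * A.length) t p (blk A (t + 1)).1 p (pderiv p Q) *
        (C (D : ℚ) * X l - (C (D : ℚ) - 1) * X u) -
      (C (D : ℚ) - 1) * mx (2 * A.length) t p (blk A (t + 1)).1 p Q := by
    have hc : pderiv u (C (D : ℚ) * X l - (C (D : ℚ) - 1) * X u : MP) = -(C (D : ℚ) - 1) := by
      rw [map_sub, Derivation.leibniz, Derivation.leibniz, map_sub, pderiv_C, pderiv_X_self,
        pderiv_X_of_ne hlu, pderiv_one]
      simp
    rw [map_add, Derivation.leibniz, hpd, hpd, hc]
    simp only [smul_eq_mul]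
    ring
  rw [hDp D hD, hg]
  have hC : ∀ a : ℚ, sb u l (C a) = C a := fun a => by rw [← algebraMap_eq, AlgHom.commutes]
  have hCm : ∀ a : ℚ, mx (2 * A.length) t p (blk A (t + 1)).1 (p + 2) (C a) = C a :=
    fun a => by rw [← algebraMap_eq, AlgHom.commutes]
  have key : sb u l ((X u - X r) ^ (D - 1) * ((mx (2 * A.length) t p (blk A (t + 1)).1 p (pderiv p P) +
      mx (2 * A.length) t p (blk A (t + 1)).1 p (pderiv p Q) *
        (C (D : ℚ) * X l - (C (D : ℚ) - 1) * X u) -
      (C (D : ℚ) - 1) * mx (2 * A.length) t p (blk A (t + 1)).1 p Q) * (X u - X r) +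
      C (D : ℚ) * (mx (2 * A.length) t p (blk A (t + 1)).1 p P +
      mx (2 * A.length) t p (blk A (t + 1)).1 p Q * (C (D : ℚ) * X l - (C (D : ℚ) - 1) * X u)))) =
      (X l - X r) ^ (D - 1) *
        (mx (2 * A.length) t p (blk A (t + 1)).1 (p + 2) (C (D : ℚ) * P + X p * R) +
        X r * mx (2 * A.length) t p (blk A (t + 1)).1 (p + 2) (C (D : ℚ) * Q - R)) := by
    simp only [map_mul, map_pow, map_sub, map_add, sb_X_self, sb_X_ne _ _ _ hru, sb_X_ne _ _ _ hlu,
      hsb, map_one, hC, hCm, hR2]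
    rw [hXl]
    ring
  rw [key, run_ordinary A D t (p + 2) m ht (by omega)
    (fun i h2 _ => ⟨by omega, Or.inr ⟨by omega, by omega⟩⟩)]
  have hτ : ∀ v < 2 * A.length, p + 2 ≤ pos p v → pos p v < p + 2 + m →
      (fun w => (t + 1) * wd A + ta (blk A t) (blk A (t + 1)).1 (w - t * wd A))
        (t * (2 * A.length + 1) + pos p v) =
      (t + 1) * (2 * A.length + 1) + pos (blk A (t + 1)).1 v := by
    intro v hv _ _
    show (t + 1) * wd A + ta (blk A t) (blk A (t + 1)).1
      (t * (2 * A.length + 1) + pos (blk A t).1 v - t * wd A) = _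
    rw [hW, Nat.add_sub_cancel_left, ta_pos A t v ht hv]
  have h2 : ∀ P : MP, sbs (t * wd A + (p + 2)) m (fun w => (t + 1) * wd A +
      ta (blk A t) (blk A (t + 1)).1 (w - t * wd A))
      (mx (2 * A.length) t p (blk A (t + 1)).1 (p + 2) P) =
      mx (2 * A.length) (t + 1) (blk A (t + 1)).1 0 0 P := by
    intro P
    have h := sbs_mx (2 * A.length) t p (blk A (t + 1)).1 (p + 2) m (fun w =>
      (t + 1) * wd A + ta (blk A t) (blk A (t + 1)).1 (w - t * wd A)) (by omega) hτ P
    rw [← hW] at h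
    have e : p + 2 + m = wd A := by omega
    rw [h, e, hW, mx_last _ _ _ _ 0]
  rw [map_mul, map_pow, map_sub, map_add, map_mul, h2, h2, sbs_X, sbs_X, if_neg (by omega),
    if_neg (by omega), hst]
  unfold raw
  rw [if_neg (by rw [hf1]; simp), hq, Nat.add_sub_cancel, ← hW, ← hll, ← hrr]
  ring

theorem run_block (D t : ℕ) (ht : t < nB A) (hD : 1 ≤ D) (s : MP × MP)
    (hs : (blk A t).2.1 = true → s.2 = 0) :
    run (Lz A D 0) (t * wd A) (wd A) (raw (2 * A.length) D t (blk A t) s) =
      raw (2 * A.length) D (t + 1) (blk A (t + 1)) (stepB D (blk A t) s) := by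
  cases hl : (blk A t).2.2 with
  | true => exact run_block_last A D t ht hD s hs hl
  | false => exact run_block_cross A D t ht hD s hs hl

end Pool.Agent.H618R2.Skew
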