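import Pool.Agent.H549R2.PM8
import Pool.Agent.H618R2.Skew.Model

/-!
# Staircase matrices are the matrices of the bipartite permutation graphs (task T9)
-/

namespace Pool.Agent.H618R2.Skew

open Finset Pool.Agent.H549R2.Convex

/-- The bipartite graph of a square list of rows: the rows on the left, the columns on the right,
row `i` is adjacent to column `j` iff the entry `(i, j)` is `true`. -/
def BG (A : List (List Bool)) : SimpleGraph (Fin A.length ⊕ Fin A.length) where
  Adj x y := match x, y with
    | .inl i, .inr j => ent A i.val j.val = true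
    | .inr j, .inl i => ent A i.val j.val = true
    | .inl _, .inl _ => False
    | .inr _, .inr _ => False
  symm := ⟨fun x y h => by
    rcases x with i | i <;> rcases y with j | j <;> exact h⟩
  loopless := ⟨fun x h => by
    rcases x with i | i <;> exact h⟩

theorem BG_lr (A : List (List Bool)) (i j : Fin A.length) :
    (BG A).Adj (.inl i) (.inr j) ↔ ent A i.val j.val = true := Iff.rfl

theorem BG_rl (A : List (List Bool)) (i j : Fin A.length) :
    (BG A).Adj (.inr j) (.inl i) ↔ ent A i.val j.val = true := Iff.rfl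

theorem BG_ll (A : List (List Bool)) (i j : Fin A.length) :
    (BG A).Adj (.inl i) (.inl j) ↔ False := Iff.rfl

theorem BG_rr (A : List (List Bool)) (i j : Fin A.length) :
    (BG A).Adj (.inr i) (.inr j) ↔ False := Iff.rfl

/-- the permanent of a 0-1 matrix is the number of perfect matchings of its bipartite graph -/
theorem F_eq_pm (A : List (List Bool)) (h : ∀ r ∈ A, r.length = A.length) :
    F A = Nat.card {M : (BG A).Subgraph // M.IsPerfectMatching} := by
  classical
  rw [F_eq_card' A h A.length rfl, Pool.Agent.H549R2.PM.card_pm, ← Fintype.card_subtype, ← Nat.card_eq_fintype_card]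
  refine Nat.card_congr (Equiv.ofBijective (fun σ =>
    (⟨Sum.elim (fun i => Sum.inr (σ.1 i)) (fun j => Sum.inl (σ.1.symm j)), ?_, ?_⟩ :
      {f : Fin A.length ⊕ Fin A.length → Fin A.length ⊕ Fin A.length //
        (∀ i, f (f i) = i) ∧ ∀ i, (BG A).Adj i (f i)})) ⟨?_, ?_⟩)
  · rintro (i | i) <;> simp
  · rintro (i | i)
    · exact σ.2 i
    · simp only [Sum.elim_inr]
      rw [BG_rl]
      have := σ.2 (σ.1.symm i)
      simpa using this
  · intro σ τ hst
    apply Subtype.ext
    ext1 i
    have h1 := congrArg (fun f : {f : Fin A.length ⊕ Fin A.length → Fin A.length ⊕ Fin A.length //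
        (∀ i, f (f i) = i) ∧ ∀ i, (BG A).Adj i (f i)} => f.1 (Sum.inl i)) hst
    simpa using h1
  · rintro ⟨f, hf1, hf2⟩
    have hl : ∀ i, ∃ j, f (Sum.inl i) = Sum.inr j := by
      intro i
      rcases hfi : f (Sum.inl i) with j | j
      · have := hf2 (Sum.inl i)
        rw [hfi, BG_ll] at this
        exact this.elim
      · exact ⟨j, rfl⟩
    have hr : ∀ i, ∃ j, f (Sum.inr i) = Sum.inl j := by
      intro i
      rcases hfi : f (Sum.inr i) with j | j
      · exact ⟨j, rfl⟩
      · have := hf2 (Sum.inr i)
        rw [hfi, BG_rr] at this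
        exact this.elim
    choose s hs using hl
    choose t ht using hr
    have hst : ∀ i, t (s i) = i := by
      intro i
      have := hf1 (Sum.inl i)
      rw [hs, ht] at this
      exact Sum.inl_injective this
    have hts : ∀ i, s (t i) = i := by
      intro i
      have := hf1 (Sum.inr i)
      rw [ht, hs] at this
      exact Sum.inr_injective this
    refine ⟨⟨⟨s, t, hst, hts⟩, ?_⟩, ?_⟩
    · intro i
      have := hf2 (Sum.inl i)
      rw [hs, BG_lr] at this
      exact this
    · apply Subtype.ext
      funext x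
      rcases x with i | i
      · simp [hs]
      · simp [ht]

/-- Permutation graphs: the vertices can be arranged in two linear orders such that two vertices are
adjacent iff the two orders disagree about them. -/
def IsPermutationGraph {V : Type*} (G : SimpleGraph V) : Prop :=
  ∃ f g : V → ℕ, Function.Injective f ∧ Function.Injective g ∧
    ∀ u v, G.Adj u v ↔ (f u < f v ∧ g v < g u) ∨ (f v < f u ∧ g u < g v)

/-- interleaving two chains -/
theorem interleave (n : ℕ) (R : ℕ → ℕ → Prop)
    (hR : ∀ i i' q q', i' ≤ i → q ≤ q' → R i q → R i' q') :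
    ∃ f : Fin n ⊕ Fin n → ℕ, Function.Injective f ∧
      (∀ i j : Fin n, f (.inl i) < f (.inl j) ↔ i < j) ∧
      (∀ i j : Fin n, f (.inr i) < f (.inr j) ↔ i < j) ∧
      (∀ i j : Fin n, f (.inl i) < f (.inr j) ↔ R i j) := by
  classical
  set c : ℕ → ℕ := fun i => ((range n).filter fun q => ¬ R i q).card with hc
  have hc1 : ∀ i q, q < n → (q < c i ↔ ¬ R i q) := by
    intro i q hq
    constructor
    · intro h hRq
      have : (range n).filter (fun q => ¬ R i q) ⊆ range q := by
        intro x hx
        rw [mem_filter] at hx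
        rw [mem_range]
        by_contra hxq
        exact hx.2 (hR i i q x le_rfl (by omega) hRq)
      have := card_le_card this
      rw [card_range] at this
      simp only [hc] at h
      omega
    · intro h
      have : range (q + 1) ⊆ (range n).filter (fun q => ¬ R i q) := by
        intro x hx
        rw [mem_range] at hx
        rw [mem_filter, mem_range]
        exact ⟨by omega, fun hx' => h (hR i i x q le_rfl (by omega) hx')⟩
      have := card_le_card this
      rw [card_range] at this
      simp only [hc]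
      omega
  have hcm : ∀ i j, i ≤ j → c i ≤ c j := by
    intro i j hij
    simp only [hc]
    apply card_le_card
    intro x hx
    rw [mem_filter] at hx ⊢
    exact ⟨hx.1, fun hx' => hx.2 (hR j i x x hij le_rfl hx')⟩
  have key1 : ∀ i j : Fin n, c i * (n + 1) + i.val < c j * (n + 1) + j.val ↔ i < j := by
    have hlt : ∀ i j : Fin n, i < j → c i * (n + 1) + i.val < c j * (n + 1) + j.val := by
      intro i j hij
      have := Nat.mul_le_mul_right (n + 1) (hcm i j (le_of_lt hij))
      have h2 : i.val < j.val := hij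
      omega
    intro i j
    refine ⟨fun h => ?_, hlt i j⟩
    by_contra hij
    rcases lt_or_eq_of_le (not_lt.1 hij) with h1 | h1
    · have := hlt j i h1
      omega
    · subst h1
      omega
  have key3 : ∀ i j : Fin n, c i * (n + 1) + i.val < j.val * (n + 1) + n ↔ R i j := by
    intro i j
    by_cases hij : j.val < c i
    · have h1 := (hc1 i j j.2).1 hij
      have h2 : (j.val + 1) * (n + 1) ≤ c i * (n + 1) := Nat.mul_le_mul_right _ hij
      constructor
      · intro h
        rw [add_mul] at h2
        omega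
      · intro h
        exact (h1 h).elim
    · have h1 : R i j := by
        by_contra h
        exact hij ((hc1 i j j.2).2 h)
      have h2 : c i * (n + 1) ≤ j.val * (n + 1) := Nat.mul_le_mul_right _ (not_lt.1 hij)
      have := i.2
      constructor
      · intro _
        exact h1
      · intro _
        omega
  have key4 : ∀ i j : Fin n, c i * (n + 1) + i.val ≠ j.val * (n + 1) + n := by
    intro i j h
    have h1 : (c i * (n + 1) + i.val) % (n + 1) = i.val := by
      rw [Nat.mul_add_mod', Nat.mod_eq_of_lt (by have := i.2; omega)]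
    have h2 : (j.val * (n + 1) + n) % (n + 1) = n := by
      rw [Nat.mul_add_mod', Nat.mod_eq_of_lt (by omega)]
    rw [h, h2] at h1
    have := i.2
    omega
  refine ⟨Sum.elim (fun i => c i * (n + 1) + i.val) (fun j => j.val * (n + 1) + n),
    ?_, ?_, ?_, ?_⟩
  · rintro (i | i) (j | j) h
    · simp only [Sum.elim_inl] at h
      rcases lt_trichotomy i j with h1 | h1 | h1
      · have := (key1 i j).2 h1
        omega
      · rw [h1]
      · have := (key1 j i).2 h1
        omega
    · exact (key4 i j h).elim
    · exact (key4 j i h.symm).elim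
    · simp only [Sum.elim_inr] at h
      congr 1
      apply Fin.ext
      have : i.val * (n + 1) = j.val * (n + 1) := by omega
      exact Nat.eq_of_mul_eq_mul_right (by omega) this
  · intro i j
    exact key1 i j
  · intro i j
    simp only [Sum.elim_inr]
    rw [Fin.lt_def]
    constructor
    · intro h
      by_contra hij
      have := Nat.mul_le_mul_right (n + 1) (not_lt.1 hij)
      omega
    · intro h
      have := Nat.mul_lt_mul_of_pos_right h (show 0 < n + 1 by omega)
      omega
  · intro i j
    exact key3 i j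

/-- the graph of a staircase matrix is a permutation graph -/
theorem staircase_perm (A : List (List Bool)) (hA : Staircase A) : IsPermutationGraph (BG A) := by
  set P : ℕ → ℕ → Prop := fun i q => ∃ i' j', i ≤ i' ∧ j' ≤ q ∧ ent A i' j' = true with hP
  set Q : ℕ → ℕ → Prop := fun i q => ∃ i' j', i' ≤ i ∧ q ≤ j' ∧ ent A i' j' = true with hQ
  have hent : ∀ i q, ent A i q = true ↔ P i q ∧ Q i q := by
    intro i q
    constructor
    · intro h
      exact ⟨⟨i, q, le_rfl, le_rfl, h⟩, ⟨i, q, le_rfl, le_rfl, h⟩⟩
    · rintro ⟨⟨i', j', h1, h2, h3⟩, ⟨i'', j, h4, h5, h6⟩⟩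
      exact hA i'' i i' j q j' h4 h1 h2 h5 h6 h3
  have hPm : ∀ i i' q q', i' ≤ i → q ≤ q' → P i q → P i' q' := by
    rintro i i' q q' h1 h2 ⟨a, b, h3, h4, h5⟩
    exact ⟨a, b, by omega, by omega, h5⟩
  have hQm : ∀ i i' q q', i' ≤ i → q ≤ q' → ¬ Q i q → ¬ Q i' q' := by
    rintro i i' q q' h1 h2 h ⟨a, b, h3, h4, h5⟩
    exact h ⟨a, b, by omega, by omega, h5⟩
  obtain ⟨f, hf, hf1, hf2, hf3⟩ := interleave A.length (fun i q => P i q ∨ ¬ Q i q) (by
    rintro i i' q q' h1 h2 (h | h)
    · exact Or.inl (hPm i i' q q' h1 h2 h)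
    · exact Or.inr (hQm i i' q q' h1 h2 h))
  obtain ⟨g, hg, hg1, hg2, hg3⟩ := interleave A.length (fun i q => ¬ Q i q) hQm
  have hf4 : ∀ i j : Fin A.length, f (.inr j) < f (.inl i) ↔ ¬ (P i j ∨ ¬ Q i j) := by
    intro i j
    rw [← hf3]
    have : f (.inl i) ≠ f (.inr j) := fun h => by simpa using hf h
    omega
  have hg4 : ∀ i j : Fin A.length, g (.inr j) < g (.inl i) ↔ ¬ ¬ Q i j := by
    intro i j
    rw [← hg3]
    have : g (.inl i) ≠ g (.inr j) := fun h => by simpa using hg h
    omega
  refine ⟨f, g, hf, hg, ?_⟩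
  rintro (i | i) (j | j)
  · rw [BG_ll, hf1, hg1, hf1, hg1]
    simp only [false_iff, not_or, not_and, not_lt]
    exact ⟨fun h => le_of_lt h, fun h => le_of_lt h⟩
  · rw [BG_lr, hf3, hg4, hf4, hg3, hent]
    generalize P i.val j.val = p
    generalize Q i.val j.val = q
    clear * -
    by_cases p <;> by_cases q <;> simp [*]
  · rw [BG_rl, hf4, hg3, hf3, hg4, hent]
    generalize P j.val i.val = p
    generalize Q j.val i.val = q
    clear * -
    by_cases p <;> by_cases q <;> simp [*]
  · rw [BG_rr, hf2, hg2, hf2, hg2]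
    simp only [false_iff, not_or, not_and, not_lt]
    exact ⟨fun h => le_of_lt h, fun h => le_of_lt h⟩

/-- and it is bipartite -/
theorem BG_colorable (A : List (List Bool)) : (BG A).Colorable 2 := by
  refine ⟨SimpleGraph.Coloring.mk (fun x => Sum.elim (fun _ => (0 : Fin 2)) (fun _ => 1) x) ?_⟩
  rintro (i | i) (j | j) h
  · exact ((BG_ll A i j).1 h).elim
  · simp
  · simp
  · exact ((BG_rr A i j).1 h).elim

theorem ent_ofFn (n : ℕ) (B : Fin n → Fin n → Bool) (i j : ℕ) :
    ent (List.ofFn fun a => List.ofFn fun b => B a b) i j = true ↔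
      ∃ (hi : i < n) (hj : j < n), B ⟨i, hi⟩ ⟨j, hj⟩ = true := by
  unfold ent
  by_cases hi : i < n
  · rw [List.getD_eq_getElem (List.ofFn fun a => List.ofFn fun b => B a b) [] (by simpa using hi),
      List.getElem_ofFn]
    by_cases hj : j < n
    · rw [List.getD_eq_getElem _ _ (by simpa using hj), List.getElem_ofFn]
      simp [hi, hj]
    · rw [List.getD_eq_default _ _ (by simpa using hj)]
      simp [hj]
  · rw [List.getD_eq_default (List.ofFn _) _ (by simpa using hi)]
    simp [hi]

/-- Conversely, every bipartite permutation graph with two parts of the same size is the graph of a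
staircase matrix. -/
theorem exists_staircase {V : Type*} (G : SimpleGraph V) (hG : IsPermutationGraph G) (n : ℕ)
    (e : Fin n ⊕ Fin n ≃ V) (hl : ∀ i j, ¬ G.Adj (e (.inl i)) (e (.inl j)))
    (hr : ∀ i j, ¬ G.Adj (e (.inr i)) (e (.inr j))) :
    ∃ A : List (List Bool), A.length = n ∧ (∀ r ∈ A, r.length = n) ∧ Staircase A ∧
      Nonempty (BG A ≃g G) := by
  classical
  obtain ⟨f, g, hf, hg, hfg⟩ := hG
  set σ : Equiv.Perm (Fin n) := Tuple.sort fun i => f (e (.inl i)) with hσ
  set τ : Equiv.Perm (Fin n) := Tuple.sort fun i => f (e (.inr i)) with hτ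
  have hσm : Monotone fun i => f (e (.inl (σ i))) := Tuple.monotone_sort (fun i => f (e (.inl i)))
  have hτm : Monotone fun i => f (e (.inr (τ i))) := Tuple.monotone_sort (fun i => f (e (.inr i)))
  have hσg : Monotone fun i => g (e (.inl (σ i))) := by
    intro i j hij
    simp only
    by_contra h
    have h1 := hσm hij
    simp only at h1
    rcases Nat.eq_or_lt_of_le h1 with h2 | h2
    · have := hf h2
      rw [this] at h
      omega
    · exact hl (σ i) (σ j) ((hfg _ _).2 (Or.inl ⟨h2, by omega⟩))
  have hτg : Monotone fun i => g (e (.inr (τ i))) := by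
    intro i j hij
    simp only
    by_contra h
    have h1 := hτm hij
    simp only at h1
    rcases Nat.eq_or_lt_of_le h1 with h2 | h2
    · have := hf h2
      rw [this] at h
      omega
    · exact hr (τ i) (τ j) ((hfg _ _).2 (Or.inl ⟨h2, by omega⟩))
  set A : List (List Bool) := List.ofFn fun a => List.ofFn fun b =>
    decide (G.Adj (e (.inl (σ a))) (e (.inr (τ b)))) with hA
  have hlen : A.length = n := by simp [hA]
  have hent : ∀ i j : ℕ, ent A i j = true ↔ ∃ (hi : i < n) (hj : j < n),
      G.Adj (e (.inl (σ ⟨i, hi⟩))) (e (.inr (τ ⟨j, hj⟩))) := by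
    intro i j
    rw [hA, ent_ofFn]
    simp
  refine ⟨A, hlen, ?_, ?_, ⟨⟨?_, ?_⟩⟩⟩
  · intro r hr
    rw [hA, List.mem_ofFn] at hr
    obtain ⟨a, rfl⟩ := hr
    simp
  · intro i p i' j q j' h1 h2 h3 h4 h5 h6
    rw [hent] at h5 h6 ⊢
    obtain ⟨hi, hj, h5⟩ := h5
    obtain ⟨hi', hj', h6⟩ := h6
    have hp : p < n := by omega
    have hq : q < n := by omega
    refine ⟨hp, hq, ?_⟩
    have a1 := hσm (show (⟨i, hi⟩ : Fin n) ≤ ⟨p, hp⟩ from h1)
    have a2 := hσm (show (⟨p, hp⟩ : Fin n) ≤ ⟨i', hi'⟩ from h2)
    have a3 := hσg (show (⟨i, hi⟩ : Fin n) ≤ ⟨p, hp⟩ from h1)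
    have a4 := hσg (show (⟨p, hp⟩ : Fin n) ≤ ⟨i', hi'⟩ from h2)
    have b1 := hτm (show (⟨j', hj'⟩ : Fin n) ≤ ⟨q, hq⟩ from h3)
    have b2 := hτm (show (⟨q, hq⟩ : Fin n) ≤ ⟨j, hj⟩ from h4)
    have b3 := hτg (show (⟨j', hj'⟩ : Fin n) ≤ ⟨q, hq⟩ from h3)
    have b4 := hτg (show (⟨q, hq⟩ : Fin n) ≤ ⟨j, hj⟩ from h4)
    simp only at a1 a2 a3 a4 b1 b2 b3 b4
    rw [hfg] at h5 h6 ⊢
    omega
  · exact (Equiv.sumCongr ((finCongr hlen).trans σ) ((finCongr hlen).trans τ)).trans e
  · rintro (i | i) (j | j)
    · rw [BG_ll]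
      simp only [iff_false]
      exact hl _ _
    · rw [BG_lr, hent]
      have hi : i.val < n := hlen ▸ i.2
      have hj : j.val < n := hlen ▸ j.2
      constructor
      · intro h
        exact ⟨hi, hj, h⟩
      · rintro ⟨_, _, h⟩
        exact h
    · rw [BG_rl, hent]
      have hi : i.val < n := hlen ▸ i.2
      have hj : j.val < n := hlen ▸ j.2
      constructor
      · intro h
        exact ⟨hj, hi, h.symm⟩
      · rintro ⟨_, _, h⟩
        exact h.symm
    · rw [BG_rr]
      simp only [iff_false]
      exact hr _ _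

end Pool.Agent.H618R2.Skew
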